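import Pool.Agent.H470R2.Interval

set_option autoImplicit false
set_option linter.unusedSectionVars false

namespace Pool.Agent.H470R2

open Finset

/-- block starting points -/
def Sb (M : ℕ → ℕ) (k : ℕ) : ℕ := ∑ i ∈ range k, M i

lemma Sb_succ (M : ℕ → ℕ) (k : ℕ) : Sb M (k+1) = Sb M k + M k := by
  unfold Sb; rw [Finset.sum_range_succ]

lemma Sb_strictMono (M : ℕ → ℕ) (hM : ∀ k, 1 ≤ M k) : StrictMono (Sb M) := by
  apply strictMono_nat_of_lt_succ
  intro k
  rw [Sb_succ]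
  have := hM k
  omega

/-- block index of `n` -/
def kk (M : ℕ → ℕ) (n : ℕ) : ℕ := Nat.findGreatest (fun k => Sb M k ≤ n) n

lemma kk_spec (M : ℕ → ℕ) (hM : ∀ k, 1 ≤ M k) (n : ℕ) :
    Sb M (kk M n) ≤ n ∧ n < Sb M (kk M n + 1) := by
  constructor
  · have h0 : Sb M 0 ≤ n := by simp [Sb]
    exact Nat.findGreatest_spec (P := fun k => Sb M k ≤ n) (Nat.zero_le n) h0
  · by_contra hcon
    push Not at hcon
    have h1 : kk M n + 1 ≤ n := (Sb_strictMono M hM).le_apply.trans hcon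
    have h2 := Nat.le_findGreatest (P := fun k => Sb M k ≤ n) h1 hcon
    have h3 : Nat.findGreatest (fun k => Sb M k ≤ n) n = kk M n := rfl
    omega

lemma kk_eq (M : ℕ → ℕ) (hM : ∀ k, 1 ≤ M k) {n k : ℕ} (h1 : Sb M k ≤ n) (h2 : n < Sb M (k+1)) :
    kk M n = k := by
  obtain ⟨h3, h4⟩ := kk_spec M hM n
  have hmono := Sb_strictMono M hM
  rcases Nat.lt_trichotomy (kk M n) k with h | h | h
  · have := hmono.monotone (show kk M n + 1 ≤ k from h)
    omega
  · exact h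
  · have := hmono.monotone (show k + 1 ≤ kk M n from h)
    omega

/-- concatenated sequence -/
def cat (M : ℕ → ℕ) (Z : ℕ → ℕ → ℝ) (n : ℕ) : ℝ := Z (kk M n) (n - Sb M (kk M n))

lemma cat_unit (M : ℕ → ℕ) (Z : ℕ → ℕ → ℝ) (h : ∀ k, InUnit (Z k)) : InUnit (cat M Z) :=
  fun n => h _ _

lemma card_eq_sum (N : ℕ) (P : ℕ → Prop) [DecidablePred P] :
    (((range N).filter P).card : ℝ) = ∑ n ∈ range N, if P n then (1:ℝ) else 0 := by
  rw [← Finset.sum_filter, Finset.sum_const, nsmul_eq_mul, mul_one]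

lemma block_count (M : ℕ → ℕ) (hM : ∀ k, 1 ≤ M k) (Xb Yb : ℕ → ℕ → ℝ) (x y : ℝ) (k r : ℕ)
    (hr : r ≤ M k) :
    ∑ n ∈ range (Sb M k + r), (if cat M Xb n < x ∧ cat M Yb n < y then (1:ℝ) else 0) =
      (∑ n ∈ range (Sb M k), (if cat M Xb n < x ∧ cat M Yb n < y then (1:ℝ) else 0)) +
      ∑ n ∈ range r, (if Xb k n < x ∧ Yb k n < y then (1:ℝ) else 0) := by
  rw [Finset.sum_range_add]
  congr 1
  apply Finset.sum_congr rfl
  intro n hn
  have hn' : n < r := by simpa using hn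
  have h1 : kk M (Sb M k + n) = k := by
    apply kk_eq M hM (by omega)
    rw [Sb_succ]; omega
  unfold cat
  rw [h1]
  simp

lemma concat_at (M : ℕ → ℕ) (hM : ∀ k, 1 ≤ M k) (Xb Yb : ℕ → ℕ → ℝ) (B : ℕ → ℝ)
    (hb : ∀ k, ∀ N ≤ M k, StarBound (Xb k) (Yb k) N (B k)) (k : ℕ) :
    ∀ r ≤ M k, StarBound (cat M Xb) (cat M Yb) (Sb M k + r) (∑ i ∈ range (k+1), B i) := by
  induction k with
  | zero =>
    intro r hr x y hx0 hx1 hy0 hy1
    rw [card_eq_sum, block_count M hM Xb Yb x y 0 r hr]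
    have h1 := hb 0 r hr x y hx0 hx1 hy0 hy1
    rw [card_eq_sum] at h1
    simpa [Sb] using h1
  | succ k ih =>
    intro r hr x y hx0 hx1 hy0 hy1
    rw [card_eq_sum, block_count M hM Xb Yb x y (k+1) r hr]
    have h1 := hb (k+1) r hr x y hx0 hx1 hy0 hy1
    have h2 := ih (M k) le_rfl x y hx0 hx1 hy0 hy1
    rw [← Sb_succ] at h2
    rw [card_eq_sum] at h1 h2
    rw [Finset.sum_range_succ B (k+1)]
    have e : (∑ n ∈ range (Sb M (k+1)), (if cat M Xb n < x ∧ cat M Yb n < y then (1:ℝ) else 0)) +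
        (∑ n ∈ range r, (if Xb (k+1) n < x ∧ Yb (k+1) n < y then (1:ℝ) else 0)) -
        ((Sb M (k+1) + r : ℕ) : ℝ) * x * y =
        ((∑ n ∈ range (Sb M (k+1)), (if cat M Xb n < x ∧ cat M Yb n < y then (1:ℝ) else 0)) -
          (Sb M (k+1) : ℝ) * x * y) +
        ((∑ n ∈ range r, (if Xb (k+1) n < x ∧ Yb (k+1) n < y then (1:ℝ) else 0)) - r * x * y) := by
      push_cast; ring
    rw [e]
    exact (abs_add_le _ _).trans (add_le_add h2 h1)

lemma sum_geom (s : ℕ) (hs : 2 ≤ s) : ∀ j : ℕ,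
    ∑ i ∈ range (j+1), (4:ℝ) ^ i / ((i + s : ℕ) : ℝ) ^ 2 ≤ 3 * ((4:ℝ) ^ j / ((j + s : ℕ) : ℝ) ^ 2) := by
  intro j
  induction j with
  | zero =>
    have : (0:ℝ) ≤ (4:ℝ) ^ 0 / ((0 + s : ℕ) : ℝ) ^ 2 := by positivity
    simp only [zero_add, Finset.sum_range_one] at this ⊢
    linarith
  | succ j ih =>
    rw [Finset.sum_range_succ]
    have hs' : (2:ℝ) ≤ ((j + s : ℕ) : ℝ) := by
      have : 2 ≤ j + s := by omega
      exact_mod_cast this
    have e : ((j + 1 + s : ℕ) : ℝ) = ((j + s : ℕ) : ℝ) + 1 := by push_cast; ring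
    rw [e]
    set q : ℝ := ((j + s : ℕ) : ℝ) with hq
    have hq0 : 0 < q := by linarith
    have h4 : (0:ℝ) < 4 ^ j := by positivity
    have key : 3 * ((4:ℝ) ^ j / q ^ 2) ≤ 2 * ((4:ℝ) ^ (j+1) / (q + 1) ^ 2) := by
      rw [pow_succ, ← mul_div_assoc, ← mul_div_assoc, div_le_div_iff₀ (by positivity) (by positivity)]
      have h5 : 3 * (q + 1) ^ 2 ≤ 8 * q ^ 2 := by nlinarith
      calc 3 * (4:ℝ) ^ j * (q + 1) ^ 2 = 4 ^ j * (3 * (q + 1) ^ 2) := by ring
        _ ≤ 4 ^ j * (8 * q ^ 2) := mul_le_mul_of_nonneg_left h5 h4.le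
        _ = _ := by ring
    have : 0 ≤ (4:ℝ) ^ (j+1) / (q + 1) ^ 2 := by positivity
    linarith

/-- `t^2/(log t)^2` is increasing on `[e, ∞)`. -/
lemma fmono {s t : ℝ} (hs : Real.exp 1 ≤ s) (hst : s ≤ t) :
    s ^ 2 / (Real.log s) ^ 2 ≤ t ^ 2 / (Real.log t) ^ 2 := by
  have hs0 : 0 < s := lt_of_lt_of_le (Real.exp_pos 1) hs
  have ht0 : 0 < t := lt_of_lt_of_le hs0 hst
  have hls : 1 ≤ Real.log s := by rwa [Real.le_log_iff_exp_le hs0]
  have hlt : 1 ≤ Real.log t := hls.trans (Real.log_le_log hs0 hst)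
  have h1 := Real.log_div_self_antitoneOn (show s ∈ {x | Real.exp 1 ≤ x} from hs)
    (show t ∈ {x | Real.exp 1 ≤ x} from hs.trans hst) hst
  simp only at h1
  have h2 : s / Real.log s ≤ t / Real.log t := by
    rw [div_le_div_iff₀ ht0 hs0] at h1
    rw [div_le_div_iff₀ (by linarith) (by linarith)]
    linarith
  rw [← div_pow, ← div_pow]
  exact pow_le_pow_left₀ (by positivity) h2 2

/-- A single infinite planar sequence. -/
theorem seq_exists : ∃ X Y : ℕ → ℝ, InUnit X ∧ InUnit Y ∧ ∃ C : ℝ, 0 < C ∧ ∀ N : ℕ, 3 ≤ N →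
    StarBound X Y N (C * ((Real.log N) ^ 2 / (Real.log (Real.log N)) ^ 2)) := by
  -- the shift
  obtain ⟨K, hK2, hK⟩ : ∃ K : ℕ, 94 ≤ K ∧ 64 ≤ ((K:ℝ) - 1) * Real.log 2 := by
    refine ⟨94, le_rfl, ?_⟩
    have := Real.log_two_gt_d9
    push_cast
    linarith
  have hl2 : (1:ℝ)/2 ≤ Real.log 2 := by
    have := Real.log_two_gt_d9
    linarith
  have hl2' : Real.log 2 ≤ 1 := by
    have := Real.log_two_lt_d9
    linarith
  have hl2pos : 0 < Real.log 2 := by linarith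
  have hll2 : -Real.log 2 ≤ Real.log (Real.log 2) := by
    have : Real.log ((1:ℝ)/2) ≤ Real.log (Real.log 2) := Real.log_le_log (by norm_num) hl2
    rw [one_div, Real.log_inv] at this
    exact this
  have hll2' : Real.log (Real.log 2) ≤ 0 := Real.log_nonpos hl2pos.le hl2'
  set L : ℕ → ℝ := fun k => (2:ℝ) ^ (k + K) * Real.log 2 with hL
  have hLpos : ∀ k, 0 < L k := fun k => by positivity
  have hlogL : ∀ k, Real.log (L k) = ((k + K : ℕ) : ℝ) * Real.log 2 + Real.log (Real.log 2) := by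
    intro k
    simp only [hL]
    rw [Real.log_mul (by positivity) hl2pos.ne', Real.log_pow]
  have hKr : (94:ℝ) ≤ K := by exact_mod_cast hK2
  have hlogL1 : ∀ k, ((k + (K-1) : ℕ) : ℝ) * Real.log 2 ≤ Real.log (L k) := by
    intro k
    rw [hlogL]
    have : ((k + (K-1) : ℕ) : ℝ) = ((k + K : ℕ) : ℝ) - 1 := by
      have : k + (K-1) + 1 = k + K := by omega
      have h2 : ((k + (K-1) : ℕ) : ℝ) + 1 = ((k + K : ℕ) : ℝ) := by exact_mod_cast this
      linarith
    rw [this]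
    linarith
  have hlogL2 : ∀ k, Real.log (L k) ≤ ((k + K : ℕ) : ℝ) := by
    intro k
    rw [hlogL]
    have : (0:ℝ) ≤ ((k + K : ℕ) : ℝ) := Nat.cast_nonneg _
    nlinarith
  have hlogL64 : ∀ k, 64 ≤ Real.log (L k) := by
    intro k
    refine le_trans ?_ (hlogL1 k)
    refine hK.trans ?_
    apply mul_le_mul_of_nonneg_right _ hl2pos.le
    have h2 : (K:ℝ) - 1 = ((K - 1 : ℕ) : ℝ) := by
      rw [Nat.cast_sub (by omega)]; simp
    rw [h2]
    exact_mod_cast Nat.le_add_left (K-1) k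
  -- the blocks
  have hblock := fun k => finite_large (L k) (hlogL64 k) (hLpos k)
  choose Xb Yb hXb hYb hb using hblock
  set M : ℕ → ℕ := fun k => 2 ^ (2 ^ (k + K)) with hM
  have hM1 : ∀ k, 1 ≤ M k := fun k => Nat.one_le_two_pow
  have hMexp : ∀ k, ((M k : ℕ) : ℝ) = Real.exp (L k) := by
    intro k
    simp only [hM, hL]
    push_cast
    have : (2:ℝ) ^ (k + K) * Real.log 2 = ((2 ^ (k+K) : ℕ) : ℝ) * Real.log 2 := by push_cast; ring
    rw [this, Real.exp_nat_mul, Real.exp_log (by norm_num)]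
  have hb' : ∀ k, ∀ N ≤ M k, StarBound (Xb k) (Yb k) N
      (2156 * ((L k) ^ 2 / (Real.log (L k)) ^ 2)) := by
    intro k N hN
    apply hb k N
    rw [← hMexp]
    exact_mod_cast hN
  have hcat := concat_at M hM1 Xb Yb _ hb'
  -- the total bound
  have hBk : ∀ k, 2156 * ((L k) ^ 2 / (Real.log (L k)) ^ 2) ≤
      2156 * 4 ^ K * ((4:ℝ) ^ k / ((k + (K-1) : ℕ) : ℝ) ^ 2) := by
    intro k
    have h1 := hlogL1 k
    have h2 : (0:ℝ) < ((k + (K-1) : ℕ) : ℝ) := by
      have : 0 < k + (K-1) := by omega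
      exact_mod_cast this
    have h3 : (L k) ^ 2 / (Real.log (L k)) ^ 2 ≤
        (L k) ^ 2 / (((k + (K-1) : ℕ) : ℝ) * Real.log 2) ^ 2 := by
      apply div_le_div_of_nonneg_left (by positivity) (by positivity)
      exact pow_le_pow_left₀ (by positivity) h1 2
    have h4 : (L k) ^ 2 / (((k + (K-1) : ℕ) : ℝ) * Real.log 2) ^ 2 =
        4 ^ K * ((4:ℝ) ^ k / ((k + (K-1) : ℕ) : ℝ) ^ 2) := by
      simp only [hL]
      have e4 : ((2:ℝ) ^ (k + K)) ^ 2 = 4 ^ k * 4 ^ K := by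
        rw [← pow_mul, mul_comm (k + K) 2, pow_mul, pow_add]; norm_num
      rw [mul_pow, mul_pow, e4]
      field_simp
    rw [h4] at h3
    linarith
  have hsum : ∀ k, ∑ i ∈ range (k+1), 2156 * ((L i) ^ 2 / (Real.log (L i)) ^ 2) ≤
      2156 * 4 ^ K * (3 * ((4:ℝ) ^ k / ((k + (K-1) : ℕ) : ℝ) ^ 2)) := by
    intro k
    refine (Finset.sum_le_sum (fun i _ => hBk i)).trans ?_
    rw [← Finset.mul_sum]
    exact mul_le_mul_of_nonneg_left (sum_geom (K-1) (by omega) k) (by positivity)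
  have hUX : InUnit (cat M Xb) := cat_unit M Xb hXb
  have hUY : InUnit (cat M Yb) := cat_unit M Yb hYb
  refine ⟨cat M Xb, cat M Yb, hUX, hUY, 103488 + (M 0 : ℝ), by positivity, ?_⟩
  intro N hN x y hx0 hx1 hy0 hy1
  have hN3 : (3:ℝ) ≤ N := by exact_mod_cast hN
  have hN0 : (0:ℝ) < N := by linarith
  have hlogN : 1 < Real.log N := by
    rw [Real.lt_log_iff_exp_lt hN0]
    exact lt_of_lt_of_le (lt_trans Real.exp_one_lt_d9 (by norm_num)) hN3
  have hll : 0 < Real.log (Real.log N) := Real.log_pos hlogN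
  have hf1 : (1:ℝ) ≤ (Real.log N) ^ 2 / (Real.log (Real.log N)) ^ 2 := by
    rw [one_le_div (by positivity)]
    have : Real.log (Real.log N) ≤ Real.log N :=
      (Real.log_le_sub_one_of_pos (by linarith)).trans (by linarith)
    exact pow_le_pow_left₀ hll.le this 2
  obtain ⟨hk1, hk2⟩ := kk_spec M hM1 N
  set k := kk M N with hk
  rcases Nat.eq_zero_or_pos k with hk0 | hkpos
  · -- small `N`
    rw [hk0, Sb_succ] at hk2
    have hNM : N ≤ M 0 := by
      have : Sb M 0 = 0 := by simp [Sb]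
      omega
    have hNM' : (N:ℝ) ≤ M 0 := by exact_mod_cast hNM
    have h3 : (((range N).filter (fun n => cat M Xb n < x ∧ cat M Yb n < y)).card : ℝ) ≤ N := by
      have := Finset.card_filter_le (range N) (fun n => cat M Xb n < x ∧ cat M Yb n < y)
      rw [card_range] at this
      exact_mod_cast this
    have h4 : (0:ℝ) ≤ (((range N).filter (fun n => cat M Xb n < x ∧ cat M Yb n < y)).card : ℝ) :=
      Nat.cast_nonneg _
    have h5 : (N:ℝ) * x * y ≤ N := by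
      calc (N:ℝ) * x * y ≤ N * 1 * 1 := by gcongr
        _ = N := by ring
    have h6 : 0 ≤ (N:ℝ) * x * y := by positivity
    have hM0 : (0:ℝ) ≤ (M 0 : ℝ) := Nat.cast_nonneg _
    have h7 : (N:ℝ) ≤ (103488 + (M 0 : ℝ)) *
        ((Real.log N) ^ 2 / (Real.log (Real.log N)) ^ 2) := by
      calc (N:ℝ) ≤ (103488 + (M 0 : ℝ)) * 1 := by linarith
        _ ≤ _ := mul_le_mul_of_nonneg_left hf1 (by positivity)
    rw [abs_le]
    constructor <;> linarith
  · obtain ⟨k', hk'⟩ : ∃ k', k = k' + 1 := ⟨k - 1, by omega⟩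
    rw [hk'] at hk1 hk2
    have hr : N - Sb M (k'+1) ≤ M (k'+1) := by
      rw [Sb_succ M (k'+1)] at hk2
      omega
    have h1 := hcat (k'+1) (N - Sb M (k'+1)) hr x y hx0 hx1 hy0 hy1
    rw [show Sb M (k'+1) + (N - Sb M (k'+1)) = N by omega] at h1
    refine h1.trans ?_
    refine (hsum (k'+1)).trans ?_
    -- compare with `log N`
    have hMN : M k' ≤ N := by
      have : M k' ≤ Sb M (k'+1) := by rw [Sb_succ]; omega
      omega
    have hLN : L k' ≤ Real.log N := by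
      rw [Real.le_log_iff_exp_le hN0, ← hMexp]
      exact_mod_cast hMN
    have hLe : Real.exp 1 ≤ L k' := by
      have := hlogL64 k'
      rw [Real.le_log_iff_exp_le (hLpos k')] at this
      exact (Real.exp_le_exp.2 (by norm_num)).trans this
    have h2 := fmono hLe hLN
    have h3 : (4:ℝ) ^ (k' + K) / ((k' + K : ℕ) : ℝ) ^ 2 * (1/4) ≤
        (L k') ^ 2 / (Real.log (L k')) ^ 2 := by
      have hq : (0:ℝ) < ((k' + K : ℕ) : ℝ) := by
        have : 0 < k' + K := by omega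
        exact_mod_cast this
      have e1 : (L k') ^ 2 / ((k' + K : ℕ) : ℝ) ^ 2 ≤ (L k') ^ 2 / (Real.log (L k')) ^ 2 := by
        apply div_le_div_of_nonneg_left (by positivity)
        · have := hlogL64 k'
          positivity
        · have := hlogL64 k'
          exact pow_le_pow_left₀ (by linarith) (hlogL2 k') 2
      refine le_trans ?_ e1
      rw [div_mul_eq_mul_div]
      apply div_le_div_of_nonneg_right _ (by positivity)
      simp only [hL]
      rw [mul_pow, ← pow_mul, mul_comm (k' + K) 2, pow_mul]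
      norm_num
      nlinarith
    have hq : ((k' + 1 + (K - 1) : ℕ) : ℝ) = ((k' + K : ℕ) : ℝ) := by
      congr 1; omega
    rw [hq]
    have h5 : 2156 * 4 ^ K * (3 * ((4:ℝ) ^ (k'+1) / ((k' + K : ℕ) : ℝ) ^ 2)) =
        103488 * ((4:ℝ) ^ (k' + K) / ((k' + K : ℕ) : ℝ) ^ 2 * (1/4)) := by
      rw [pow_add, pow_succ]; ring
    rw [h5]
    calc 103488 * ((4:ℝ) ^ (k' + K) / ((k' + K : ℕ) : ℝ) ^ 2 * (1/4))
        ≤ 103488 * ((Real.log N) ^ 2 / (Real.log (Real.log N)) ^ 2) := by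
          apply mul_le_mul_of_nonneg_left (h3.trans h2) (by norm_num)
      _ ≤ _ := by
          apply mul_le_mul_of_nonneg_right _ (by linarith)
          have : (0:ℝ) ≤ (M 0 : ℝ) := Nat.cast_nonneg _
          linarith

end Pool.Agent.H470R2
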