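import Mathlib

set_option autoImplicit false

namespace Pool.Agent.H470R2

open Finset

variable {p : ℕ} [hp : Fact p.Prime]

/-- Kernel vectors: `vv g b j` is supported on `[j-b, j]`, has last coordinate `1` and is killed by
the rows `0, …, b-1` (for `b ≤ j`). -/
def vv (g : ℕ → ℕ → (ZMod p)ˣ) : ℕ → ℕ → ℕ → ZMod p
  | 0, j, i => if i = j then 1 else 0
  | b + 1, j, i =>
      vv g b j i - (((g b j * (g b (j-1))⁻¹ : (ZMod p)ˣ)) : ZMod p) * vv g b (j-1) i

/-- Rows of the generator matrix. -/
def uu (g : ℕ → ℕ → (ZMod p)ˣ) (b : ℕ) : ℕ → ZMod p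
  | j => if j < b then 0 else (g b j : ZMod p) - ∑ i : Fin j, uu g b i * vv g b j i
termination_by j => j
decreasing_by exact i.2

/-- Partial solutions: `hh g ξ η b j` is supported on `[0,j)`, agrees with `ξ` on `[0, j-b)`, and
the rows `b' < b` take the values `η b'` on it (for `b ≤ j`). -/
def hh (g : ℕ → ℕ → (ZMod p)ˣ) (ξ η : ℕ → ZMod p) : ℕ → ℕ → ℕ → ZMod p
  | 0, j, i => if i < j then ξ i else 0
  | b + 1, j, i => hh g ξ η b j i -
      ((∑ i' ∈ range j, uu g b i' * hh g ξ η b j i') - η b) *
        (((g b (j-1))⁻¹ : (ZMod p)ˣ) : ZMod p) * vv g b (j-1) i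

lemma uu_of_lt (g : ℕ → ℕ → (ZMod p)ˣ) {b j : ℕ} (h : j < b) : uu g b j = 0 := by
  rw [uu]; simp [h]

lemma uu_of_ge (g : ℕ → ℕ → (ZMod p)ˣ) {b j : ℕ} (h : b ≤ j) :
    uu g b j = (g b j : ZMod p) - ∑ i ∈ range j, uu g b i * vv g b j i := by
  rw [uu]
  rw [if_neg (by omega)]
  rw [Finset.sum_range (fun i => uu g b i * vv g b j i)]

lemma vv_eq_zero_of_gt (g : ℕ → ℕ → (ZMod p)ˣ) : ∀ (b j i : ℕ), b ≤ j → j < i →
    vv g b j i = 0 := by
  intro b
  induction b with
  | zero => intro j i _ h; simp only [vv]; rw [if_neg (by omega)]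
  | succ b ih =>
    intro j i hb h
    simp only [vv]
    rw [ih j i (by omega) h, ih (j-1) i (by omega) (by omega), mul_zero, sub_zero]

lemma vv_eq_zero_of_lt (g : ℕ → ℕ → (ZMod p)ˣ) : ∀ (b j i : ℕ), b ≤ j → i + b < j →
    vv g b j i = 0 := by
  intro b
  induction b with
  | zero => intro j i _ h; simp only [vv]; rw [if_neg (by omega)]
  | succ b ih =>
    intro j i hb h
    simp only [vv]
    rw [ih j i (by omega) (by omega), ih (j-1) i (by omega) (by omega), mul_zero, sub_zero]

lemma vv_self (g : ℕ → ℕ → (ZMod p)ˣ) : ∀ (b j : ℕ), b ≤ j → vv g b j j = 1 := by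
  intro b
  induction b with
  | zero => intro j _; simp [vv]
  | succ b ih =>
    intro j hb
    simp only [vv]
    rw [ih j (by omega), vv_eq_zero_of_gt g b (j-1) j (by omega) (by omega), mul_zero, sub_zero]

/-- sums over a range only see the support -/
lemma sum_range_of_support (u z : ℕ → ZMod p) {n m : ℕ} (hnm : n ≤ m)
    (hz : ∀ i, n ≤ i → z i = 0) :
    ∑ i ∈ range m, u i * z i = ∑ i ∈ range n, u i * z i := by
  symm
  apply Finset.sum_subset (Finset.range_subset_range.2 hnm)
  intro i _ hi
  rw [hz i (by simpa using hi), mul_zero]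

lemma row_vv_self (g : ℕ → ℕ → (ZMod p)ˣ) {b j m : ℕ} (hb : b ≤ j) (hj : j < m) :
    ∑ i ∈ range m, uu g b i * vv g b j i = g b j := by
  rw [sum_range_of_support (uu g b) (vv g b j) (n := j+1) (by omega)
    (fun i hi => vv_eq_zero_of_gt g b j i hb (by omega))]
  rw [Finset.sum_range_succ, uu_of_ge g hb, vv_self g b j hb]
  ring

lemma row_vv_lt (g : ℕ → ℕ → (ZMod p)ˣ) : ∀ (b b' j m : ℕ), b ≤ j → j < m → b' < b →
    ∑ i ∈ range m, uu g b' i * vv g b j i = 0 := by
  intro b
  induction b with
  | zero => intro b' j m _ _ h; omega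
  | succ b ih =>
    intro b' j m hb hj hb'
    have key : ∑ i ∈ range m, uu g b' i * vv g (b+1) j i
        = (∑ i ∈ range m, uu g b' i * vv g b j i)
          - (((g b j * (g b (j-1))⁻¹ : (ZMod p)ˣ)) : ZMod p) *
            ∑ i ∈ range m, uu g b' i * vv g b (j-1) i := by
      rw [Finset.mul_sum, ← Finset.sum_sub_distrib]
      apply Finset.sum_congr rfl
      intro i _
      simp only [vv]
      ring
    rw [key]
    rcases Nat.lt_or_ge b' b with h | h
    · rw [ih b' j m (by omega) hj h, ih b' (j-1) m (by omega) (by omega) h, mul_zero, sub_zero]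
    · have : b' = b := by omega
      subst this
      rw [row_vv_self g (by omega) hj, row_vv_self g (by omega) (by omega), ← Units.val_mul,
        inv_mul_cancel_right, sub_self]

/-- Nonsingularity of windows: a vector supported on a window of length `b` and killed by the rows
`< b` vanishes. -/
lemma window_ns (g : ℕ → ℕ → (ZMod p)ˣ) (m : ℕ) : ∀ (b k : ℕ) (z : ℕ → ZMod p), k + b ≤ m →
    (∀ i, i < k → z i = 0) → (∀ i, k + b ≤ i → z i = 0) →
    (∀ b' < b, ∑ i ∈ range m, uu g b' i * z i = 0) → ∀ i, z i = 0 := by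
  intro b
  induction b with
  | zero =>
    intro k z _ h1 h2 _ i
    rcases Nat.lt_or_ge i k with h | h
    · exact h1 i h
    · exact h2 i (by omega)
  | succ b ih =>
    intro k z hkm h1 h2 h3
    have hz' : ∀ i, z i - z (k+b) * vv g b (k+b) i = 0 := by
      apply ih k (fun i => z i - z (k+b) * vv g b (k+b) i) (by omega)
      · intro i hi
        rw [h1 i hi, vv_eq_zero_of_lt g b (k+b) i (by omega) (by omega), mul_zero, sub_zero]
      · intro i hi
        rcases Nat.lt_or_ge (k+b) i with h | h
        · rw [h2 i (by omega), vv_eq_zero_of_gt g b (k+b) i (by omega) h, mul_zero, sub_zero]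
        · have : i = k + b := by omega
          subst this
          rw [vv_self g b (k+b) (by omega), mul_one, sub_self]
      · intro b' hb'
        have : ∑ i ∈ range m, uu g b' i * (z i - z (k+b) * vv g b (k+b) i)
            = (∑ i ∈ range m, uu g b' i * z i) - z (k+b) *
              ∑ i ∈ range m, uu g b' i * vv g b (k+b) i := by
          rw [Finset.mul_sum, ← Finset.sum_sub_distrib]
          apply Finset.sum_congr rfl
          intro i _; ring
        rw [this, h3 b' (by omega), row_vv_lt g b b' (k+b) m (by omega) (by omega) hb',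
          mul_zero, sub_zero]
    have hlast : z (k+b) = 0 := by
      have h4 := h3 b (by omega)
      have : ∑ i ∈ range m, uu g b i * z i = z (k+b) * (g b (k+b) : ZMod p) := by
        rw [← row_vv_self g (b := b) (j := k+b) (m := m) (by omega) (by omega), Finset.mul_sum]
        apply Finset.sum_congr rfl
        intro i _
        have := hz' i
        linear_combination uu g b i * this
      rw [this] at h4
      rcases mul_eq_zero.1 h4 with h | h
      · exact h
      · exact absurd h (g b (k+b)).ne_zero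
    intro i
    have := hz' i
    rw [hlast] at this
    simpa using this

lemma vv_first_ne_zero (g : ℕ → ℕ → (ZMod p)ˣ) {b j : ℕ} (hb : b ≤ j) :
    vv g b j (j - b) ≠ 0 := by
  intro h0
  have := window_ns g (j+1) b (j - b + 1) (vv g b j) (by omega)
    (by
      intro i hi
      rcases Nat.lt_or_ge i (j-b) with h | h
      · exact vv_eq_zero_of_lt g b j i hb (by omega)
      · have : i = j - b := by omega
        rw [this]; exact h0)
    (by intro i hi; exact vv_eq_zero_of_gt g b j i hb (by omega))
    (by intro b' hb'; exact row_vv_lt g b b' j (j+1) hb (by omega) hb') j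
  rw [vv_self g b j hb] at this
  exact one_ne_zero this

lemma hh_support (g : ℕ → ℕ → (ZMod p)ˣ) (ξ η : ℕ → ZMod p) : ∀ (b j i : ℕ), b ≤ j → j ≤ i →
    hh g ξ η b j i = 0 := by
  intro b
  induction b with
  | zero => intro j i _ h; simp only [hh]; rw [if_neg (by omega)]
  | succ b ih =>
    intro j i hb h
    simp only [hh]
    rw [ih j i (by omega) h, vv_eq_zero_of_gt g b (j-1) i (by omega) (by omega), mul_zero,
      sub_zero]

lemma hh_prefix (g : ℕ → ℕ → (ZMod p)ˣ) (ξ η : ℕ → ZMod p) : ∀ (b j i : ℕ), b ≤ j → i + b < j →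
    hh g ξ η b j i = ξ i := by
  intro b
  induction b with
  | zero => intro j i _ h; simp only [hh]; rw [if_pos (by omega)]
  | succ b ih =>
    intro j i hb h
    simp only [hh]
    rw [ih j i (by omega) (by omega), vv_eq_zero_of_lt g b (j-1) i (by omega) (by omega), mul_zero,
      sub_zero]

lemma hh_rows (g : ℕ → ℕ → (ZMod p)ˣ) (ξ η : ℕ → ZMod p) : ∀ (b b' j : ℕ), b ≤ j → b' < b →
    ∑ i ∈ range j, uu g b' i * hh g ξ η b j i = η b' := by
  intro b
  induction b with
  | zero => intro b' j _ h; omega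
  | succ b ih =>
    intro b' j hb hb'
    set c : ZMod p := ((∑ i' ∈ range j, uu g b i' * hh g ξ η b j i') - η b) *
        (((g b (j-1))⁻¹ : (ZMod p)ˣ) : ZMod p) with hc
    have key : ∑ i ∈ range j, uu g b' i * hh g ξ η (b+1) j i
        = (∑ i ∈ range j, uu g b' i * hh g ξ η b j i)
          - c * ∑ i ∈ range j, uu g b' i * vv g b (j-1) i := by
      rw [Finset.mul_sum, ← Finset.sum_sub_distrib]
      apply Finset.sum_congr rfl
      intro i _
      simp only [hh]
      rw [← hc]
      ring
    rw [key]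
    rcases Nat.lt_or_ge b' b with h | h
    · rw [ih b' j (by omega) h, row_vv_lt g b b' (j-1) j (by omega) (by omega) h, mul_zero,
        sub_zero]
    · have : b' = b := by omega
      subst this
      rw [row_vv_self g (by omega) (by omega), hc, mul_assoc, Units.inv_mul]
      ring

/-! ### Dependence on `g` -/

lemma vv_congr (g g' : ℕ → ℕ → (ZMod p)ˣ) : ∀ (b : ℕ), (∀ b' < b, ∀ j, g b' j = g' b' j) →
    ∀ j, vv g b j = vv g' b j := by
  intro b
  induction b with
  | zero => intro _ j; funext i; simp only [vv]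
  | succ b ih =>
    intro h j
    funext i
    simp only [vv]
    rw [ih (fun b' hb' => h b' (by omega)) j, ih (fun b' hb' => h b' (by omega)) (j-1),
      h b (by omega) j, h b (by omega) (j-1)]

lemma uu_congr (g g' : ℕ → ℕ → (ZMod p)ˣ) (b : ℕ) (h : ∀ b' < b, ∀ j, g b' j = g' b' j) :
    ∀ j, (∀ i ≤ j, g b i = g' b i) → uu g b j = uu g' b j := by
  intro j
  induction j using Nat.strong_induction_on with
  | _ j ih =>
    intro hj
    rcases Nat.lt_or_ge j b with hjb | hjb
    · rw [uu_of_lt g hjb, uu_of_lt g' hjb]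
    · rw [uu_of_ge g hjb, uu_of_ge g' hjb, hj j le_rfl]
      congr 1
      apply Finset.sum_congr rfl
      intro i hi
      have hi' : i < j := by simpa using hi
      rw [ih i hi' (fun i' hi'' => hj i' (by omega)), vv_congr g g' b h j]

lemma hh_congr (g g' : ℕ → ℕ → (ZMod p)ˣ) (ξ η : ℕ → ZMod p) : ∀ (b : ℕ),
    (∀ b' < b, ∀ j, g b' j = g' b' j) → ∀ j, hh g ξ η b j = hh g' ξ η b j := by
  intro b
  induction b with
  | zero => intro _ j; funext i; simp only [hh]
  | succ b ih =>
    intro h j
    have h' : ∀ b' < b, ∀ j, g b' j = g' b' j := fun b' hb' => h b' (by omega)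
    funext i
    simp only [hh]
    rw [ih h' j, vv_congr g g' b h' (j-1), h b (by omega) (j-1)]
    have : ∑ i' ∈ range j, uu g b i' * hh g' ξ η b j i'
        = ∑ i' ∈ range j, uu g' b i' * hh g' ξ η b j i' := by
      apply Finset.sum_congr rfl
      intro i' _
      rw [uu_congr g g' b h' i' (fun i'' _ => h b (by omega) i'')]
    rw [this]

end Pool.Agent.H470R2
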