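import Pool.Agent.H470R2.Finite

set_option autoImplicit false
set_option linter.unusedSectionVars false

namespace Pool.Agent.H470R2

open Finset
open scoped Classical

/-- `StarBound X Y N B`: the first `N` points `(X n, Y n)` have local discrepancy at most `B` on all
boxes `[0,x) × [0,y)`. -/
def StarBound (X Y : ℕ → ℝ) (N : ℕ) (B : ℝ) : Prop :=
  ∀ x y : ℝ, 0 ≤ x → x ≤ 1 → 0 ≤ y → y ≤ 1 →
    |(((range N).filter (fun n => X n < x ∧ Y n < y)).card : ℝ) - N * x * y| ≤ B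

def InUnit (X : ℕ → ℝ) : Prop := ∀ n, 0 ≤ X n ∧ X n < 1

/-- Large `M`: all initial segments of length `≤ M`. -/
theorem finite_large (L : ℝ) (hL : 64 ≤ Real.log L) (hL0 : 0 < L) :
    ∃ X Y : ℕ → ℝ, InUnit X ∧ InUnit Y ∧
      ∀ N : ℕ, (N : ℝ) ≤ Real.exp L → StarBound X Y N (2156 * (L ^ 2 / (Real.log L) ^ 2)) := by
  set lam := Real.exp (Real.log L / 7) with hlam
  have hlampos : 0 < lam := Real.exp_pos _
  set n := ⌊lam⌋₊ with hn
  have hlam1 : 8192 ≤ lam := by
    have h1 : (64:ℝ) / 7 ≤ Real.log L / 7 := by linarith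
    have h2 : (8192:ℝ) ≤ Real.exp (64/7) := by
      have h3 : (2.7182818283 : ℝ) < Real.exp 1 := Real.exp_one_gt_d9
      have h4 : Real.exp (64/7) = (Real.exp 1) ^ (9:ℕ) * Real.exp (1/7) := by
        rw [← Real.exp_nat_mul, ← Real.exp_add]; congr 1; norm_num
      rw [h4]
      have h5 : (8103:ℝ) ≤ (Real.exp 1) ^ (9:ℕ) := by
        calc (8103:ℝ) ≤ (2.7182818283:ℝ) ^ (9:ℕ) - 0 := by norm_num
          _ ≤ _ := by
            rw [sub_zero]
            exact pow_le_pow_left₀ (by norm_num) h3.le 9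
      have h6 : (1:ℝ) + 1/7 ≤ Real.exp (1/7) := by
        have := Real.add_one_le_exp (1/7 : ℝ)
        linarith
      have h7 : (0:ℝ) < Real.exp (1/7) := Real.exp_pos _
      calc (8192:ℝ) ≤ 8103 * (1 + 1/7) := by norm_num
        _ ≤ _ := by gcongr
    exact h2.trans (Real.exp_le_exp.2 h1)
  have hn1 : 8192 ≤ n := Nat.le_floor (by exact_mod_cast hlam1)
  obtain ⟨p, hp, hnp, hp2n⟩ := Nat.exists_prime_lt_and_le_two_mul n (by omega)
  have : Fact p.Prime := ⟨hp⟩
  have hnlam : (n:ℝ) ≤ lam := Nat.floor_le hlampos.le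
  have hlamn : lam < n + 1 := Nat.lt_floor_add_one _
  have hplam : lam ≤ p := by
    have : (n:ℝ) + 1 ≤ p := by exact_mod_cast hnp
    linarith
  have hplam2 : (p:ℝ) ≤ 2 * lam := by
    have : (p:ℝ) ≤ 2 * n := by exact_mod_cast hp2n
    linarith
  have hlam7 : lam ^ 7 = L := by
    rw [hlam, ← Real.exp_nat_mul]
    have : ((7:ℕ):ℝ) * (Real.log L / 7) = Real.log L := by push_cast; ring
    rw [this, Real.exp_log hL0]
  have hp0 : (0:ℝ) < p := by linarith
  have hlogp : Real.log L / 7 ≤ Real.log p := by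
    rw [Real.le_log_iff_exp_le hp0]
    exact hplam
  have hlogp_pos : 0 < Real.log p := by linarith
  have hlogp_le : Real.log p ≤ p := (Real.log_le_sub_one_of_pos hp0).trans (by linarith)
  have h128 : 128 * (p:ℝ) ^ 5 * Real.log p ≤ L := by
    calc 128 * (p:ℝ) ^ 5 * Real.log p ≤ 128 * (p:ℝ) ^ 5 * p := by gcongr
      _ = 128 * (p:ℝ) ^ 6 := by ring
      _ ≤ 128 * (2 * lam) ^ 6 := by gcongr
      _ = 8192 * lam ^ 6 := by ring
      _ ≤ lam * lam ^ 6 := by gcongr
      _ = L := by rw [← hlam7]; ring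
  set m := ⌈L / Real.log p⌉₊ with hm
  have hm1 : L / Real.log p ≤ m := Nat.le_ceil _
  have hm2 : (m:ℝ) < L / Real.log p + 1 := Nat.ceil_lt_add_one (by positivity)
  have hm3 : 128 * (p:ℝ) ^ 5 ≤ L / Real.log p := by
    rw [le_div_iff₀ hlogp_pos]; exact h128
  have hm4 : 128 * p ^ 5 ≤ m := by
    have : (128:ℝ) * (p:ℝ) ^ 5 ≤ m := hm3.trans hm1
    exact_mod_cast this
  have hone : (1:ℝ) ≤ L / Real.log p := by
    have hp1 : (1:ℝ) ≤ p := by linarith
    have : (1:ℝ) ≤ (p:ℝ) ^ 5 := one_le_pow₀ hp1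
    linarith
  obtain ⟨X, Y, h1, h2⟩ := finite_disc p m hm4
  refine ⟨X, Y, fun n => ⟨(h1 n).1, (h1 n).2.1⟩, fun n => ⟨(h1 n).2.2.1, (h1 n).2.2.2⟩, ?_⟩
  intro N hN x y hx0 hx1 hy0 hy1
  have hNp : N ≤ p ^ m := by
    have e1 : Real.exp L ≤ (p:ℝ) ^ m := by
      have e2 : (p:ℝ) ^ m = Real.exp (m * Real.log p) := by
        rw [Real.exp_nat_mul, Real.exp_log hp0]
      rw [e2]
      apply Real.exp_le_exp.2
      rwa [div_le_iff₀ hlogp_pos] at hm1
    exact_mod_cast hN.trans e1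
  refine (h2 N hNp x y hx0 hx1 hy0 hy1).trans ?_
  have hm5 : (m:ℝ) ≤ 2 * (L / Real.log p) := by linarith
  have hm6 : (m:ℝ) ≤ 14 * (L / Real.log L) := by
    refine hm5.trans ?_
    have e3 : L / Real.log p ≤ L / (Real.log L / 7) := by
      apply div_le_div_of_nonneg_left hL0.le (by linarith) hlogp
    have e4 : L / (Real.log L / 7) = 7 * (L / Real.log L) := by field_simp
    linarith
  calc 11 * (m:ℝ) ^ 2 ≤ 11 * (14 * (L / Real.log L)) ^ 2 := by gcongr
    _ = 2156 * (L ^ 2 / (Real.log L) ^ 2) := by ring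

/-- The main finite theorem, for all `M ≥ 3`, with an absolute constant. -/
theorem finite_all : ∃ C : ℝ, 0 < C ∧ ∀ M : ℕ, 3 ≤ M → ∃ X Y : ℕ → ℝ, InUnit X ∧ InUnit Y ∧
    ∀ N ≤ M, StarBound X Y N (C * ((Real.log M) ^ 2 / (Real.log (Real.log M)) ^ 2)) := by
  refine ⟨2156 + Real.exp (Real.exp 64), by positivity, ?_⟩
  intro M hM
  have hM0 : (0:ℝ) < M := by exact_mod_cast (by omega : 0 < M)
  have hM3 : (3:ℝ) ≤ M := by exact_mod_cast hM
  have hlogM : 1 < Real.log M := by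
    rw [Real.lt_log_iff_exp_lt hM0]
    exact lt_of_lt_of_le (lt_trans Real.exp_one_lt_d9 (by norm_num)) hM3
  have hll : 0 < Real.log (Real.log M) := Real.log_pos hlogM
  have hf : 0 ≤ (Real.log M) ^ 2 / (Real.log (Real.log M)) ^ 2 := by positivity
  rcases le_or_gt 64 (Real.log (Real.log M)) with h | h
  · obtain ⟨X, Y, hX, hY, hb⟩ := finite_large (Real.log M) h (by linarith)
    refine ⟨X, Y, hX, hY, ?_⟩
    intro N hN x y hx0 hx1 hy0 hy1
    have hNM : (N:ℝ) ≤ Real.exp (Real.log M) := by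
      rw [Real.exp_log hM0]; exact_mod_cast hN
    refine (hb N hNM x y hx0 hx1 hy0 hy1).trans ?_
    have := (Real.exp_pos (Real.exp 64)).le
    apply mul_le_mul_of_nonneg_right _ hf
    linarith
  · refine ⟨fun _ => 0, fun _ => 0, fun _ => ⟨le_rfl, zero_lt_one⟩,
      fun _ => ⟨le_rfl, zero_lt_one⟩, ?_⟩
    intro N hN x y hx0 hx1 hy0 hy1
    have h1 : (M:ℝ) ≤ Real.exp (Real.exp 64) := by
      have e1 : Real.log M < Real.exp 64 := by
        rwa [Real.log_lt_iff_lt_exp (by linarith)] at h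
      have e2 : (M:ℝ) < Real.exp (Real.exp 64) := by
        rwa [Real.log_lt_iff_lt_exp hM0] at e1
      exact e2.le
    have h2 : (1:ℝ) ≤ (Real.log M) ^ 2 / (Real.log (Real.log M)) ^ 2 := by
      rw [one_le_div (by positivity)]
      have : Real.log (Real.log M) ≤ Real.log M :=
        (Real.log_le_sub_one_of_pos (by linarith)).trans (by linarith)
      exact pow_le_pow_left₀ hll.le this 2
    have hNM : (N:ℝ) ≤ M := by exact_mod_cast hN
    have hN0 : (0:ℝ) ≤ N := Nat.cast_nonneg _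
    have h3 : (((range N).filter (fun n => (0:ℝ) < x ∧ (0:ℝ) < y)).card : ℝ) ≤ N := by
      have := Finset.card_filter_le (range N) (fun n => (0:ℝ) < x ∧ (0:ℝ) < y)
      rw [card_range] at this
      exact_mod_cast this
    have h4 : (0:ℝ) ≤ (((range N).filter (fun n => (0:ℝ) < x ∧ (0:ℝ) < y)).card : ℝ) :=
      Nat.cast_nonneg _
    have h5 : (N:ℝ) * x * y ≤ N := by
      calc (N:ℝ) * x * y ≤ N * 1 * 1 := by gcongr
        _ = N := by ring
    have h6 : 0 ≤ (N:ℝ) * x * y := by positivity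
    have h7 : (N:ℝ) ≤ (2156 + Real.exp (Real.exp 64)) *
        ((Real.log M) ^ 2 / (Real.log (Real.log M)) ^ 2) := by
      calc (N:ℝ) ≤ Real.exp (Real.exp 64) := hNM.trans h1
        _ ≤ (2156 + Real.exp (Real.exp 64)) * 1 := by linarith
        _ ≤ _ := by
          apply mul_le_mul_of_nonneg_left h2
          positivity
    rw [abs_le]
    constructor <;> linarith

end Pool.Agent.H470R2
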