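import Mathlib

set_option autoImplicit false

namespace Pool.Agent.H470R2

open Finset

/-- Sequential choice (method of conditional expectations for exponential moments of martingale
differences, for finitely many martingales at once). -/
lemma seq_choice_exp {ι G D : Type*} [LinearOrder ι] [Fintype G] [Nonempty G] [Fintype D]
    (I : D → ι → (ι → G) → ℝ) (C lam : ℝ) (hC : 0 ≤ C) (hlam : 0 ≤ lam) (hlC : lam * C ≤ 1)
    (dep : ∀ d i g g', (∀ k ≤ i, g k = g' k) → I d i g = I d i g')
    (mean : ∀ d i g, ∑ h : G, I d i (Function.update g i h) = 0)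
    (bdd : ∀ d i g, |I d i g| ≤ C) (s : Finset ι) :
    ∃ g : ι → G, ∑ d, (Real.exp (lam * ∑ i ∈ s, I d i g) + Real.exp (-(lam * ∑ i ∈ s, I d i g)))
      ≤ 2 * (Fintype.card D) * Real.exp (lam ^ 2 * C ^ 2 * s.card) := by
  induction s using Finset.induction_on_max with
  | empty =>
    refine ⟨fun _ => Classical.arbitrary G, ?_⟩
    simp
    ring_nf
    rfl
  | insert a s ha ih =>
    obtain ⟨g, hg⟩ := ih
    have ha' : a ∉ s := fun h => lt_irrefl _ (ha a h)
    set S : D → ℝ := fun d => ∑ i ∈ s, I d i g with hS
    have hupd : ∀ (h : G) (d : D), ∑ i ∈ insert a s, I d i (Function.update g a h)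
        = I d a (Function.update g a h) + S d := by
      intro h d
      rw [Finset.sum_insert ha']
      congr 1
      apply Finset.sum_congr rfl
      intro i hi
      apply dep
      intro k hk
      rw [Function.update_of_ne]
      intro hka
      rw [hka] at hk
      exact absurd (ha i hi) (not_lt.2 hk)
    have hexp : ∀ y : ℝ, |y| ≤ lam * C → Real.exp y ≤ 1 + y + lam ^ 2 * C ^ 2 := by
      intro y hy
      have h1 := Real.abs_exp_sub_one_sub_id_le (x := y) (hy.trans hlC)
      have h2 : y ^ 2 ≤ lam ^ 2 * C ^ 2 := by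
        rw [← mul_pow, ← sq_abs y]
        exact pow_le_pow_left₀ (abs_nonneg _) hy 2
      have h3 := le_abs_self (Real.exp y - 1 - y)
      linarith
    have hsum1 : ∀ d, ∑ h : G, Real.exp (lam * I d a (Function.update g a h)) ≤
        (Fintype.card G) * Real.exp (lam ^ 2 * C ^ 2) := by
      intro d
      calc ∑ h : G, Real.exp (lam * I d a (Function.update g a h))
          ≤ ∑ h : G, (1 + lam * I d a (Function.update g a h) + lam ^ 2 * C ^ 2) := by
            apply Finset.sum_le_sum
            intro h _
            apply hexp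
            rw [abs_mul, abs_of_nonneg hlam]
            exact mul_le_mul_of_nonneg_left (bdd _ _ _) hlam
        _ = (Fintype.card G) * (1 + lam ^ 2 * C ^ 2) := by
            rw [Finset.sum_add_distrib, Finset.sum_add_distrib, ← Finset.mul_sum, mean]
            simp
            ring
        _ ≤ _ := by
            apply mul_le_mul_of_nonneg_left _ (Nat.cast_nonneg _)
            linarith [Real.add_one_le_exp (lam ^ 2 * C ^ 2)]
    have hsum2 : ∀ d, ∑ h : G, Real.exp (-(lam * I d a (Function.update g a h))) ≤
        (Fintype.card G) * Real.exp (lam ^ 2 * C ^ 2) := by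
      intro d
      calc ∑ h : G, Real.exp (-(lam * I d a (Function.update g a h)))
          ≤ ∑ h : G, (1 + (-(lam * I d a (Function.update g a h))) + lam ^ 2 * C ^ 2) := by
            apply Finset.sum_le_sum
            intro h _
            apply hexp
            rw [abs_neg, abs_mul, abs_of_nonneg hlam]
            exact mul_le_mul_of_nonneg_left (bdd _ _ _) hlam
        _ = (Fintype.card G) * (1 + lam ^ 2 * C ^ 2) := by
            rw [Finset.sum_add_distrib, Finset.sum_add_distrib, Finset.sum_neg_distrib,
              ← Finset.mul_sum, mean]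
            simp
            ring
        _ ≤ _ := by
            apply mul_le_mul_of_nonneg_left _ (Nat.cast_nonneg _)
            linarith [Real.add_one_le_exp (lam ^ 2 * C ^ 2)]
    have havg : ∑ h : G, (∑ d, (Real.exp (lam * ∑ i ∈ insert a s, I d i (Function.update g a h)) +
        Real.exp (-(lam * ∑ i ∈ insert a s, I d i (Function.update g a h))))) ≤
        ∑ h : G, (2 * (Fintype.card D) * Real.exp (lam ^ 2 * C ^ 2 * (insert a s).card)) := by
      rw [Finset.sum_comm]
      have h1 : ∀ d, ∑ h : G, (Real.exp (lam * ∑ i ∈ insert a s, I d i (Function.update g a h)) +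
        Real.exp (-(lam * ∑ i ∈ insert a s, I d i (Function.update g a h)))) ≤
        (Fintype.card G) * Real.exp (lam ^ 2 * C ^ 2) *
          (Real.exp (lam * S d) + Real.exp (-(lam * S d))) := by
        intro d
        have e1 : ∀ h : G, Real.exp (lam * ∑ i ∈ insert a s, I d i (Function.update g a h)) =
            Real.exp (lam * S d) * Real.exp (lam * I d a (Function.update g a h)) := by
          intro h; rw [hupd, ← Real.exp_add]; congr 1; ring
        have e2 : ∀ h : G, Real.exp (-(lam * ∑ i ∈ insert a s, I d i (Function.update g a h))) =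
            Real.exp (-(lam * S d)) * Real.exp (-(lam * I d a (Function.update g a h))) := by
          intro h; rw [hupd, ← Real.exp_add]; congr 1; ring
        simp_rw [e1, e2]
        rw [Finset.sum_add_distrib, ← Finset.mul_sum, ← Finset.mul_sum]
        have := mul_le_mul_of_nonneg_left (hsum1 d) (Real.exp_pos (lam * S d)).le
        have := mul_le_mul_of_nonneg_left (hsum2 d) (Real.exp_pos (-(lam * S d))).le
        linarith
      calc _ ≤ ∑ d, (Fintype.card G) * Real.exp (lam ^ 2 * C ^ 2) *
          (Real.exp (lam * S d) + Real.exp (-(lam * S d))) := Finset.sum_le_sum (fun d _ => h1 d)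
        _ = (Fintype.card G) * Real.exp (lam ^ 2 * C ^ 2) *
          ∑ d, (Real.exp (lam * S d) + Real.exp (-(lam * S d))) := by rw [Finset.mul_sum]
        _ ≤ (Fintype.card G) * Real.exp (lam ^ 2 * C ^ 2) *
          (2 * (Fintype.card D) * Real.exp (lam ^ 2 * C ^ 2 * s.card)) := by
            apply mul_le_mul_of_nonneg_left hg
            positivity
        _ = _ := by
            rw [Finset.sum_const, Finset.card_univ, nsmul_eq_mul, Finset.card_insert_of_notMem ha']
            have : Real.exp (lam ^ 2 * C ^ 2 * ((s.card + 1 : ℕ) : ℝ)) =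
                Real.exp (lam ^ 2 * C ^ 2) * Real.exp (lam ^ 2 * C ^ 2 * s.card) := by
              rw [← Real.exp_add]; congr 1; push_cast; ring
            rw [this]
            ring
    obtain ⟨h, _, hh⟩ := Finset.exists_le_of_sum_le (Finset.univ_nonempty) havg
    exact ⟨Function.update g a h, hh⟩

/-- Consequence: one choice of `g` makes all the sums small. -/
lemma seq_choice {ι G D : Type*} [LinearOrder ι] [Fintype G] [Nonempty G] [Fintype D]
    (I : D → ι → (ι → G) → ℝ) (C lam t : ℝ) (hC : 0 ≤ C) (hlam : 0 < lam) (hlC : lam * C ≤ 1)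
    (dep : ∀ d i g g', (∀ k ≤ i, g k = g' k) → I d i g = I d i g')
    (mean : ∀ d i g, ∑ h : G, I d i (Function.update g i h) = 0)
    (bdd : ∀ d i g, |I d i g| ≤ C) (s : Finset ι)
    (hcard : 2 * (Fintype.card D) * Real.exp (lam ^ 2 * C ^ 2 * s.card) ≤ Real.exp (lam * t)) :
    ∃ g : ι → G, ∀ d, |∑ i ∈ s, I d i g| ≤ t := by
  obtain ⟨g, hg⟩ := seq_choice_exp I C lam hC hlam.le hlC dep mean bdd s
  refine ⟨g, fun d => ?_⟩
  have h1 : Real.exp (lam * ∑ i ∈ s, I d i g) + Real.exp (-(lam * ∑ i ∈ s, I d i g)) ≤
      Real.exp (lam * t) := by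
    refine le_trans ?_ (hg.trans hcard)
    exact Finset.single_le_sum (f := fun d => Real.exp (lam * ∑ i ∈ s, I d i g) +
      Real.exp (-(lam * ∑ i ∈ s, I d i g))) (fun d _ => by positivity) (Finset.mem_univ d)
  have h2 : Real.exp (lam * ∑ i ∈ s, I d i g) ≤ Real.exp (lam * t) := by
    linarith [Real.exp_pos (-(lam * ∑ i ∈ s, I d i g))]
  have h3 : Real.exp (-(lam * ∑ i ∈ s, I d i g)) ≤ Real.exp (lam * t) := by
    linarith [Real.exp_pos (lam * ∑ i ∈ s, I d i g)]
  rw [Real.exp_le_exp] at h2 h3
  rw [abs_le]
  constructor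
  · have : lam * (-t) ≤ lam * ∑ i ∈ s, I d i g := by linarith
    exact le_of_mul_le_mul_left this hlam
  · exact le_of_mul_le_mul_left h2 hlam

end Pool.Agent.H470R2
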