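import Pool.Agent.H470R2.Struct
import Pool.Agent.H470R2.SeqChoice

set_option autoImplicit false

namespace Pool.Agent.H470R2

open Finset
open scoped Classical

variable {p : ℕ} [hp : Fact p.Prime]

/-- number of units, as a real -/
lemma card_units_real : (Fintype.card (ZMod p)ˣ : ℝ) = (p : ℝ) - 1 := by
  rw [ZMod.card_units p]
  have := hp.out.one_lt
  push_cast [Nat.cast_sub this.le]
  ring

lemma card_units_pos : (0 : ℝ) < (Fintype.card (ZMod p)ˣ : ℝ) := by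
  exact_mod_cast Fintype.card_pos

/-- Averaging over nonzero slopes. -/
lemma sum_units (φ : ZMod p → ℝ) (hφ : ∑ t, φ t = 0) (c δ : ZMod p) (hδ : δ ≠ 0) :
    ∑ γ : (ZMod p)ˣ, φ (c + δ * γ) = - φ c := by
  have h1 : ∑ γ : (ZMod p)ˣ, φ (c + δ * γ) = ∑ t ∈ univ.filter (fun t : ZMod p => t ≠ c), φ t := by
    refine Finset.sum_bij' (fun γ _ => c + δ * (γ : ZMod p))
      (fun t ht => Units.mk0 ((t - c) / δ)
        (by
          simp only [mem_filter, mem_univ, true_and] at ht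
          exact div_ne_zero (sub_ne_zero.2 ht) hδ)) ?_ ?_ ?_ ?_ ?_
    · intro γ _
      simp only [mem_filter, mem_univ, true_and, ne_eq, add_eq_left]
      exact mul_ne_zero hδ γ.ne_zero
    · intro _ _; exact mem_univ _
    · intro γ _
      ext
      simp only [Units.val_mk0]
      field_simp
      ring
    · intro t ht
      simp only [Units.val_mk0]
      field_simp
      ring
    · intro _ _; rfl
  have h2 : ∑ t, φ t = φ c + ∑ t ∈ univ.filter (fun t : ZMod p => t ≠ c), φ t := by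
    rw [Finset.filter_ne' univ c, Finset.add_sum_erase _ _ (mem_univ c)]
  rw [h1]
  linarith

/-- `D` as a function of the free entry `g b j`. -/
noncomputable def D0 (g : ℕ → ℕ → (ZMod p)ˣ) (m : ℕ) (N x η : ℕ → ZMod p)
    (φ : ZMod p → ℝ) (b j : ℕ) (γ : (ZMod p)ˣ) : ℝ :=
  ∑ δ ∈ A3 N j, ((∑ τ ∈ T1 g x b j,
      φ (HH g (fun i => x i - N i) η b j + τ * g b (j-1) + δ * γ)) +
    if EE g m N x η b j δ then φ (HH g (fun i => x i - N i) η b j + δ * γ) else 0)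

noncomputable def P1 (g : ℕ → ℕ → (ZMod p)ˣ) (m : ℕ) (N x η : ℕ → ZMod p)
    (φ : ZMod p → ℝ) (b j : ℕ) : ℝ :=
  D0 g m N x η φ b j (g b j) - (∑ γ, D0 g m N x η φ b j γ) / (Fintype.card (ZMod p)ˣ)

/-- The part of `HH g _ _ b j` not depending on `g b (j-1)`. -/
noncomputable def Hs (g : ℕ → ℕ → (ZMod p)ˣ) (ξ η : ℕ → ZMod p) (b j : ℕ) : ZMod p :=
  (∑ i ∈ range (j-1), uu g b i * hh g ξ η b j i)
    - (∑ i ∈ range (j-1), uu g b i * vv g b (j-1) i) * hh g ξ η b j (j-1) - η b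

noncomputable def QQ (g : ℕ → ℕ → (ZMod p)ˣ) (N x η : ℕ → ZMod p)
    (φ : ZMod p → ℝ) (b j : ℕ) (γ : (ZMod p)ˣ) : ℝ :=
  ∑ τ ∈ T1 g x b j, φ (Hs g (fun i => x i - N i) η b j +
    (hh g (fun i => x i - N i) η b j (j-1) + τ) * γ)

noncomputable def P2 (g : ℕ → ℕ → (ZMod p)ˣ) (N x η : ℕ → ZMod p)
    (φ : ZMod p → ℝ) (b j : ℕ) : ℝ :=
  -((A3 N j).card / (Fintype.card (ZMod p)ˣ) : ℝ) *
    (QQ g N x η φ b j (g b (j-1)) - (∑ γ, QQ g N x η φ b j γ) / (Fintype.card (ZMod p)ˣ))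

lemma HH_eq (g : ℕ → ℕ → (ZMod p)ˣ) (ξ η : ℕ → ZMod p) {b j : ℕ} (hbj : b < j) :
    HH g ξ η b j = Hs g ξ η b j + hh g ξ η b j (j-1) * g b (j-1) := by
  unfold HH Hs
  obtain ⟨j, rfl⟩ : ∃ k, j = k + 1 := ⟨j - 1, by omega⟩
  simp only [Nat.add_sub_cancel]
  rw [Finset.sum_range_succ, uu_of_ge g (show b ≤ j by omega)]
  ring

lemma QQ_eq (g : ℕ → ℕ → (ZMod p)ˣ) (N x η : ℕ → ZMod p) (φ : ZMod p → ℝ) (b j : ℕ) :
    QQ g N x η φ b j (g b (j-1)) = ∑ τ ∈ T1 g x b j,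
      φ (HH g (fun i => x i - N i) η b j + τ * g b (j-1)) := by
  unfold QQ
  rcases Nat.lt_or_ge b j with h | h
  · apply Finset.sum_congr rfl
    intro τ _
    rw [HH_eq g _ η h]
    congr 1
    ring
  · unfold T1
    rw [if_neg (by omega)]
    simp

lemma A3_zero_notMem (N : ℕ → ZMod p) (j : ℕ) : (0 : ZMod p) ∉ A3 N j := by
  simp [A3]

lemma card_filter_val_lt (c a : ZMod p) (ha : a ≠ 0) :
    (univ.filter (fun τ : ZMod p => (c + τ * a).val < c.val)).card = c.val := by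
  have h1 : (univ.filter (fun τ : ZMod p => (c + τ * a).val < c.val)).card
      = (Finset.range c.val).card := by
    refine Finset.card_bij' (fun τ _ => (c + τ * a).val) (fun n _ => ((n : ZMod p) - c) * a⁻¹)
      ?_ ?_ ?_ ?_
    · intro τ hτ
      simpa using hτ
    · intro n hn
      simp only [mem_filter, mem_univ, true_and]
      have hn' : n < c.val := by simpa using hn
      have : c + ((n : ZMod p) - c) * a⁻¹ * a = n := by
        field_simp; ring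
      rw [this, ZMod.val_cast_of_lt (hn'.trans (ZMod.val_lt c))]
      exact hn'
    · intro τ _
      rw [ZMod.natCast_zmod_val]
      field_simp
      ring
    · intro n hn
      have hn' : n < c.val := by simpa using hn
      have : c + ((n : ZMod p) - c) * a⁻¹ * a = n := by
        field_simp; ring
      rw [this, ZMod.val_cast_of_lt (hn'.trans (ZMod.val_lt c))]
  rw [h1, Finset.card_range]

lemma val_le_card_units (c : ZMod p) : (c.val : ℝ) ≤ Fintype.card (ZMod p)ˣ := by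
  rw [card_units_real]
  have := ZMod.val_lt c
  have h : c.val + 1 ≤ p := this
  have : (c.val : ℝ) + 1 ≤ p := by exact_mod_cast h
  linarith

lemma card_T1_le (g : ℕ → ℕ → (ZMod p)ˣ) (x : ℕ → ZMod p) (b j : ℕ) :
    ((T1 g x b j).card : ℝ) ≤ Fintype.card (ZMod p)ˣ := by
  unfold T1
  split_ifs with h
  · rw [card_filter_val_lt _ _ (vv_first_ne_zero g (by omega))]
    exact val_le_card_units _
  · simp

lemma card_A3_le (N : ℕ → ZMod p) (j : ℕ) :
    ((A3 N j).card : ℝ) ≤ Fintype.card (ZMod p)ˣ := by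
  unfold A3
  have := card_filter_val_lt (N j) 1 one_ne_zero
  simp only [mul_one] at this
  rw [this]
  exact val_le_card_units _

/-- The remainder. -/
noncomputable def RR (g : ℕ → ℕ → (ZMod p)ˣ) (m : ℕ) (N x η : ℕ → ZMod p)
    (φ : ZMod p → ℝ) (b j : ℕ) : ℝ :=
  -((A3 N j).card / (Fintype.card (ZMod p)ˣ) : ℝ) *
      ((∑ γ, QQ g N x η φ b j γ) / (Fintype.card (ZMod p)ˣ)) -
    (((A3 N j).filter (fun δ => EE g m N x η b j δ)).card / (Fintype.card (ZMod p)ˣ) : ℝ) *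
      φ (HH g (fun i => x i - N i) η b j)

lemma sum_D0 (g : ℕ → ℕ → (ZMod p)ˣ) (m : ℕ) (N x η : ℕ → ZMod p)
    (φ : ZMod p → ℝ) (hφ : ∑ t, φ t = 0) (b j : ℕ) :
    ∑ γ, D0 g m N x η φ b j γ =
      -((A3 N j).card * ∑ τ ∈ T1 g x b j,
          φ (HH g (fun i => x i - N i) η b j + τ * g b (j-1))) -
      ((A3 N j).filter (fun δ => EE g m N x η b j δ)).card *
        φ (HH g (fun i => x i - N i) η b j) := by
  unfold D0
  rw [Finset.sum_comm]
  have h1 : ∀ δ ∈ A3 N j, ∑ γ : (ZMod p)ˣ, ((∑ τ ∈ T1 g x b j,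
      φ (HH g (fun i => x i - N i) η b j + τ * g b (j-1) + δ * γ)) +
    if EE g m N x η b j δ then φ (HH g (fun i => x i - N i) η b j + δ * γ) else 0) =
      -(∑ τ ∈ T1 g x b j,
          φ (HH g (fun i => x i - N i) η b j + τ * g b (j-1))) +
      (if EE g m N x η b j δ then - φ (HH g (fun i => x i - N i) η b j) else 0) := by
    intro δ hδ
    have hδ0 : δ ≠ 0 := by rintro rfl; exact A3_zero_notMem N j hδ
    rw [Finset.sum_add_distrib, Finset.sum_comm]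
    congr 1
    · rw [← Finset.sum_neg_distrib]
      apply Finset.sum_congr rfl
      intro τ _
      exact sum_units φ hφ _ δ hδ0
    · split_ifs with h
      · exact sum_units φ hφ _ δ hδ0
      · simp
  rw [Finset.sum_congr rfl h1, Finset.sum_add_distrib, Finset.sum_const, nsmul_eq_mul,
    ← Finset.sum_filter, Finset.sum_const, nsmul_eq_mul]
  ring

lemma Dexp_eq (g : ℕ → ℕ → (ZMod p)ˣ) (m : ℕ) (N x η : ℕ → ZMod p)
    (φ : ZMod p → ℝ) (hφ : ∑ t, φ t = 0) (b j : ℕ) :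
    Dexp g m N x η φ b j = P1 g m N x η φ b j + P2 g N x η φ b j + RR g m N x η φ b j := by
  have h0 : Dexp g m N x η φ b j = D0 g m N x η φ b j (g b j) := rfl
  rw [h0]
  unfold P1 P2 RR
  rw [sum_D0 g m N x η φ hφ, QQ_eq]
  ring

lemma sum_QQ_abs (g : ℕ → ℕ → (ZMod p)ˣ) (N x η : ℕ → ZMod p)
    (φ : ZMod p → ℝ) (hφ : ∑ t, φ t = 0) (hφ1 : ∀ t, |φ t| ≤ 1) (b j : ℕ) :
    |∑ γ, QQ g N x η φ b j γ| ≤ Fintype.card (ZMod p)ˣ := by
  unfold QQ
  rw [Finset.sum_comm]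
  set H := Hs g (fun i => x i - N i) η b j with hH
  set h := hh g (fun i => x i - N i) η b j (j-1) with hh'
  have h1 : ∀ τ ∈ T1 g x b j, ∑ γ : (ZMod p)ˣ, φ (H + (h + τ) * γ) =
      (if τ = -h then ((Fintype.card (ZMod p)ˣ : ℝ) + 1) else 0) * φ H - φ H := by
    intro τ _
    split_ifs with h2
    · rw [h2]
      simp
      ring
    · rw [sum_units φ hφ _ _ (by intro h3; exact h2 (by linear_combination h3))]
      ring
  rw [Finset.sum_congr rfl h1, Finset.sum_sub_distrib, ← Finset.sum_mul, Finset.sum_const,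
    nsmul_eq_mul, ← sub_mul, abs_mul]
  have h2 : |∑ τ ∈ T1 g x b j, (if τ = -h then ((Fintype.card (ZMod p)ˣ : ℝ) + 1) else 0) -
      ((T1 g x b j).card : ℝ)| ≤ Fintype.card (ZMod p)ˣ := by
    rw [Finset.sum_ite_eq']
    have h3 := card_T1_le g x b j
    have h4 : (0 : ℝ) ≤ ((T1 g x b j).card : ℝ) := Nat.cast_nonneg _
    split_ifs with h5
    · have h6 : (1 : ℝ) ≤ ((T1 g x b j).card : ℝ) := by
        exact_mod_cast Finset.card_pos.2 ⟨_, h5⟩
      rw [abs_le]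
      constructor <;> linarith
    · rw [abs_le]
      constructor <;> linarith
  calc _ ≤ (Fintype.card (ZMod p)ˣ : ℝ) * 1 :=
        mul_le_mul h2 (hφ1 _) (abs_nonneg _) (Nat.cast_nonneg _)
    _ = _ := mul_one _

lemma RR_abs (g : ℕ → ℕ → (ZMod p)ˣ) (m : ℕ) (N x η : ℕ → ZMod p)
    (φ : ZMod p → ℝ) (hφ : ∑ t, φ t = 0) (hφ1 : ∀ t, |φ t| ≤ 1) (b j : ℕ) :
    |RR g m N x η φ b j| ≤ 2 := by
  have hq := card_units_pos (p := p)
  have hA := card_A3_le N j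
  have hA2 : (((A3 N j).filter (fun δ => EE g m N x η b j δ)).card : ℝ) ≤
      Fintype.card (ZMod p)ˣ := by
    refine le_trans ?_ hA
    exact_mod_cast Finset.card_filter_le _ _
  have hQ := sum_QQ_abs g N x η φ hφ hφ1 b j
  unfold RR
  have e1 : |((A3 N j).card / (Fintype.card (ZMod p)ˣ) : ℝ)| ≤ 1 := by
    rw [abs_of_nonneg (by positivity)]
    exact (div_le_one hq).2 hA
  have e2 : |(((A3 N j).filter (fun δ => EE g m N x η b j δ)).card /
      (Fintype.card (ZMod p)ˣ) : ℝ)| ≤ 1 := by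
    rw [abs_of_nonneg (by positivity)]
    exact (div_le_one hq).2 hA2
  have e3 : |(∑ γ, QQ g N x η φ b j γ) / (Fintype.card (ZMod p)ˣ : ℝ)| ≤ 1 := by
    rw [abs_div, abs_of_pos hq]
    exact (div_le_one hq).2 hQ
  calc _ ≤ |-((A3 N j).card / (Fintype.card (ZMod p)ˣ) : ℝ) *
      ((∑ γ, QQ g N x η φ b j γ) / (Fintype.card (ZMod p)ˣ))| +
      |(((A3 N j).filter (fun δ => EE g m N x η b j δ)).card / (Fintype.card (ZMod p)ˣ) : ℝ) *
      φ (HH g (fun i => x i - N i) η b j)| := abs_sub _ _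
    _ ≤ 1 * 1 + 1 * 1 := by
      rw [abs_mul, abs_neg, abs_mul]
      gcongr
      exact hφ1 _
    _ = 2 := by norm_num

/-! ### Bounds -/

lemma D0_abs (g : ℕ → ℕ → (ZMod p)ˣ) (m : ℕ) (N x η : ℕ → ZMod p)
    (φ : ZMod p → ℝ) (hφ1 : ∀ t, |φ t| ≤ 1) (b j : ℕ) (γ : (ZMod p)ˣ) :
    |D0 g m N x η φ b j γ| ≤ (p : ℝ) ^ 2 := by
  have hA := card_A3_le N j
  have hT := card_T1_le g x b j
  rw [card_units_real] at hA hT
  have hp1 : (1 : ℝ) ≤ p := by exact_mod_cast hp.out.one_lt.le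
  unfold D0
  calc _ ≤ ∑ δ ∈ A3 N j, |(∑ τ ∈ T1 g x b j,
      φ (HH g (fun i => x i - N i) η b j + τ * g b (j-1) + δ * γ)) +
    if EE g m N x η b j δ then φ (HH g (fun i => x i - N i) η b j + δ * γ) else 0| :=
        Finset.abs_sum_le_sum_abs _ _
    _ ≤ ∑ δ ∈ A3 N j, (((T1 g x b j).card : ℝ) + 1) := by
        apply Finset.sum_le_sum
        intro δ _
        refine (abs_add_le _ _).trans ?_
        apply add_le_add
        · refine (Finset.abs_sum_le_sum_abs _ _).trans ?_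
          refine (Finset.sum_le_sum (fun τ _ => hφ1 _)).trans ?_
          simp
        · split_ifs
          · exact hφ1 _
          · simp
    _ = ((A3 N j).card : ℝ) * (((T1 g x b j).card : ℝ) + 1) := by
        rw [Finset.sum_const, nsmul_eq_mul]
    _ ≤ (p - 1) * ((p - 1) + 1) := by
        apply mul_le_mul hA (by linarith) (by positivity) (by linarith)
    _ ≤ (p : ℝ) ^ 2 := by nlinarith

lemma P1_abs (g : ℕ → ℕ → (ZMod p)ˣ) (m : ℕ) (N x η : ℕ → ZMod p)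
    (φ : ZMod p → ℝ) (hφ1 : ∀ t, |φ t| ≤ 1) (b j : ℕ) :
    |P1 g m N x η φ b j| ≤ 2 * (p : ℝ) ^ 2 := by
  have hq := card_units_pos (p := p)
  unfold P1
  have e1 : |(∑ γ, D0 g m N x η φ b j γ) / (Fintype.card (ZMod p)ˣ : ℝ)| ≤ (p : ℝ) ^ 2 := by
    rw [abs_div, abs_of_pos hq, div_le_iff₀ hq]
    refine (Finset.abs_sum_le_sum_abs _ _).trans ?_
    refine (Finset.sum_le_sum (fun γ _ => D0_abs g m N x η φ hφ1 b j γ)).trans ?_
    rw [Finset.sum_const, Finset.card_univ, nsmul_eq_mul, mul_comm]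
  calc _ ≤ |D0 g m N x η φ b j (g b j)| +
      |(∑ γ, D0 g m N x η φ b j γ) / (Fintype.card (ZMod p)ˣ : ℝ)| := abs_sub _ _
    _ ≤ (p : ℝ) ^ 2 + (p : ℝ) ^ 2 := add_le_add (D0_abs g m N x η φ hφ1 b j _) e1
    _ = _ := by ring

lemma QQ_abs (g : ℕ → ℕ → (ZMod p)ˣ) (N x η : ℕ → ZMod p)
    (φ : ZMod p → ℝ) (hφ1 : ∀ t, |φ t| ≤ 1) (b j : ℕ) (γ : (ZMod p)ˣ) :
    |QQ g N x η φ b j γ| ≤ (p : ℝ) ^ 2 := by
  have hT := card_T1_le g x b j
  rw [card_units_real] at hT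
  have hp1 : (1 : ℝ) ≤ p := by exact_mod_cast hp.out.one_lt.le
  unfold QQ
  refine (Finset.abs_sum_le_sum_abs _ _).trans ?_
  refine (Finset.sum_le_sum (fun τ _ => hφ1 _)).trans ?_
  simp only [Finset.sum_const, nsmul_eq_mul, mul_one]
  nlinarith

lemma P2_abs (g : ℕ → ℕ → (ZMod p)ˣ) (N x η : ℕ → ZMod p)
    (φ : ZMod p → ℝ) (hφ : ∑ t, φ t = 0) (hφ1 : ∀ t, |φ t| ≤ 1) (b j : ℕ) :
    |P2 g N x η φ b j| ≤ 2 * (p : ℝ) ^ 2 := by
  have hq := card_units_pos (p := p)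
  have hA := card_A3_le N j
  have hp1 : (1 : ℝ) ≤ p := by exact_mod_cast hp.out.one_lt.le
  unfold P2
  have e1 : |-((A3 N j).card / (Fintype.card (ZMod p)ˣ) : ℝ)| ≤ 1 := by
    rw [abs_neg, abs_of_nonneg (by positivity)]
    exact (div_le_one hq).2 hA
  have e3 : |(∑ γ, QQ g N x η φ b j γ) / (Fintype.card (ZMod p)ˣ : ℝ)| ≤ 1 := by
    rw [abs_div, abs_of_pos hq]
    exact (div_le_one hq).2 (sum_QQ_abs g N x η φ hφ hφ1 b j)
  rw [abs_mul]
  calc _ ≤ 1 * (|QQ g N x η φ b j (g b (j-1))| +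
      |(∑ γ, QQ g N x η φ b j γ) / (Fintype.card (ZMod p)ˣ : ℝ)|) := by
        apply mul_le_mul e1 (abs_sub _ _) (abs_nonneg _) zero_le_one
    _ ≤ 1 * ((p : ℝ) ^ 2 + 1) := by
        have := QQ_abs g N x η φ hφ1 b j (g b (j-1))
        linarith
    _ ≤ _ := by nlinarith

/-! ### Dependence -/

lemma HH_congr (g g' : ℕ → ℕ → (ZMod p)ˣ) (ξ η : ℕ → ZMod p) (b j : ℕ)
    (h : ∀ b' < b, ∀ j, g b' j = g' b' j) (h' : ∀ i < j, g b i = g' b i) :
    HH g ξ η b j = HH g' ξ η b j := by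
  unfold HH
  rw [hh_congr g g' ξ η b h j]
  congr 1
  apply Finset.sum_congr rfl
  intro i hi
  have hi' : i < j := by simpa using hi
  rw [uu_congr g g' b h i (fun i' hi'' => h' i' (by omega))]

lemma T1_congr (g g' : ℕ → ℕ → (ZMod p)ˣ) (x : ℕ → ZMod p) (b j : ℕ)
    (h : ∀ b' < b, ∀ j, g b' j = g' b' j) : T1 g x b j = T1 g' x b j := by
  unfold T1
  rw [vv_congr g g' b h (j-1)]

lemma EE_congr (g g' : ℕ → ℕ → (ZMod p)ˣ) (m : ℕ) (N x η : ℕ → ZMod p) (b j : ℕ) (δ : ZMod p)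
    (h : ∀ b' < b, ∀ j, g b' j = g' b' j) : EE g m N x η b j δ ↔ EE g' m N x η b j δ := by
  unfold EE wmap
  rw [vv_congr g g' b h (j-1), vv_congr g g' b h j, hh_congr g g' _ η b h j]

/-- `D0` depends only on the entries before `(b,j)`. -/
lemma D0_congr (g g' : ℕ → ℕ → (ZMod p)ˣ) (m : ℕ) (N x η : ℕ → ZMod p)
    (φ : ZMod p → ℝ) (b j : ℕ)
    (h : ∀ b' < b, ∀ j, g b' j = g' b' j) (h' : ∀ i < j, g b i = g' b i) (γ : (ZMod p)ˣ) :
    D0 g m N x η φ b j γ = D0 g' m N x η φ b j γ := by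
  unfold D0
  rw [HH_congr g g' _ η b j h h', T1_congr g g' x b j h]
  apply Finset.sum_congr rfl
  intro δ _
  congr 1
  · rcases Nat.lt_or_ge b j with hbj | hbj
    · rw [h' (j-1) (by omega)]
    · unfold T1
      rw [if_neg (by omega)]
      simp
  · by_cases hE : EE g m N x η b j δ
    · rw [if_pos hE, if_pos ((EE_congr g g' m N x η b j δ h).1 hE)]
    · rw [if_neg hE, if_neg (fun h2 => hE ((EE_congr g g' m N x η b j δ h).2 h2))]

lemma Hs_congr (g g' : ℕ → ℕ → (ZMod p)ˣ) (ξ η : ℕ → ZMod p) (b j : ℕ)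
    (h : ∀ b' < b, ∀ j, g b' j = g' b' j) (h' : ∀ i < j - 1, g b i = g' b i) :
    Hs g ξ η b j = Hs g' ξ η b j := by
  unfold Hs
  rw [hh_congr g g' ξ η b h j, vv_congr g g' b h (j-1)]
  congr 2
  · apply Finset.sum_congr rfl
    intro i hi
    have hi' : i < j - 1 := by simpa using hi
    rw [uu_congr g g' b h i (fun i' hi'' => h' i' (by omega))]
  · congr 1
    apply Finset.sum_congr rfl
    intro i hi
    have hi' : i < j - 1 := by simpa using hi
    rw [uu_congr g g' b h i (fun i' hi'' => h' i' (by omega))]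

lemma QQ_congr (g g' : ℕ → ℕ → (ZMod p)ˣ) (N x η : ℕ → ZMod p)
    (φ : ZMod p → ℝ) (b j : ℕ)
    (h : ∀ b' < b, ∀ j, g b' j = g' b' j) (h' : ∀ i < j - 1, g b i = g' b i) (γ : (ZMod p)ˣ) :
    QQ g N x η φ b j γ = QQ g' N x η φ b j γ := by
  unfold QQ
  rw [Hs_congr g g' _ η b j h h', T1_congr g g' x b j h, hh_congr g g' _ η b h j]

end Pool.Agent.H470R2
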