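import Pool.Agent.H470R2.Avg

set_option autoImplicit false

namespace Pool.Agent.H470R2

open Finset
open scoped Classical

variable {p : ℕ} [hp : Fact p.Prime]

/-- functions on the lexicographic product, curried -/
def GG (g : ℕ ×ₗ ℕ → (ZMod p)ˣ) (b j : ℕ) : (ZMod p)ˣ := g (toLex (b, j))

lemma GG_update_of_lt (g : ℕ ×ₗ ℕ → (ZMod p)ˣ) (i : ℕ ×ₗ ℕ) (γ : (ZMod p)ˣ) :
    ∀ b' < (ofLex i).1, ∀ j, GG (Function.update g i γ) b' j = GG g b' j := by
  intro b' hb' j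
  unfold GG
  rw [Function.update_of_ne]
  rintro rfl
  exact lt_irrefl _ hb'

lemma GG_update_of_lt' (g : ℕ ×ₗ ℕ → (ZMod p)ˣ) (i : ℕ ×ₗ ℕ) (γ : (ZMod p)ˣ) :
    ∀ j < (ofLex i).2, GG (Function.update g i γ) (ofLex i).1 j = GG g (ofLex i).1 j := by
  intro j hj
  unfold GG
  rw [Function.update_of_ne]
  intro h
  have : (ofLex i).2 = j := by rw [← h]; rfl
  omega

lemma GG_update_self (g : ℕ ×ₗ ℕ → (ZMod p)ˣ) (i : ℕ ×ₗ ℕ) (γ : (ZMod p)ˣ) :
    GG (Function.update g i γ) (ofLex i).1 (ofLex i).2 = γ := by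
  unfold GG
  have : (toLex ((ofLex i).1, (ofLex i).2) : ℕ ×ₗ ℕ) = i := rfl
  rw [this, Function.update_self]

lemma GG_agree (g g' : ℕ ×ₗ ℕ → (ZMod p)ˣ) (i : ℕ ×ₗ ℕ) (h : ∀ k ≤ i, g k = g' k) :
    (∀ b' < (ofLex i).1, ∀ j, GG g b' j = GG g' b' j) ∧
    (∀ j ≤ (ofLex i).2, GG g (ofLex i).1 j = GG g' (ofLex i).1 j) := by
  constructor
  · intro b' hb' j
    apply h
    rw [Prod.Lex.le_iff]
    left
    exact hb'
  · intro j hj
    apply h
    rw [Prod.Lex.le_iff]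
    right
    exact ⟨rfl, hj⟩

/-- The increments. -/
noncomputable def II {D : Type*} (m : ℕ) (N x η : D → ℕ → ZMod p) (φ : D → ℕ → ZMod p → ℝ) :
    (D ⊕ D) → (ℕ ×ₗ ℕ) → ((ℕ ×ₗ ℕ) → (ZMod p)ˣ) → ℝ
  | Sum.inl d, i, g => P1 (GG g) m (N d) (x d) (η d) (φ d (ofLex i).1) (ofLex i).1 (ofLex i).2
  | Sum.inr d, i, g => if (ofLex i).2 + 1 < m then
      P2 (GG g) (N d) (x d) (η d) (φ d (ofLex i).1) (ofLex i).1 ((ofLex i).2 + 1) else 0

lemma II_dep {D : Type*} (m : ℕ) (N x η : D → ℕ → ZMod p) (φ : D → ℕ → ZMod p → ℝ)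
    (d : D ⊕ D) (i : ℕ ×ₗ ℕ) (g g' : ℕ ×ₗ ℕ → (ZMod p)ˣ) (h : ∀ k ≤ i, g k = g' k) :
    II m N x η φ d i g = II m N x η φ d i g' := by
  obtain ⟨h1, h2⟩ := GG_agree g g' i h
  cases d with
  | inl d =>
    simp only [II, P1]
    rw [D0_congr (GG g) (GG g') m _ _ _ _ _ _ h1 (fun j hj => h2 j hj.le), h2 _ le_rfl]
    congr 2
    apply Finset.sum_congr rfl
    intro γ _
    rw [D0_congr (GG g) (GG g') m _ _ _ _ _ _ h1 (fun j hj => h2 j hj.le)]
  | inr d =>
    simp only [II, P2]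
    split_ifs with hm
    · simp only [Nat.add_sub_cancel]
      rw [QQ_congr (GG g) (GG g') _ _ _ _ _ _ h1 (fun j hj => h2 j (by omega)), h2 _ le_rfl]
      congr 3
      apply Finset.sum_congr rfl
      intro γ _
      rw [QQ_congr (GG g) (GG g') _ _ _ _ _ _ h1 (fun j hj => h2 j (by omega))]
    · rfl

lemma II_mean {D : Type*} (m : ℕ) (N x η : D → ℕ → ZMod p) (φ : D → ℕ → ZMod p → ℝ)
    (d : D ⊕ D) (i : ℕ ×ₗ ℕ) (g : ℕ ×ₗ ℕ → (ZMod p)ˣ) :
    ∑ γ : (ZMod p)ˣ, II m N x η φ d i (Function.update g i γ) = 0 := by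
  have hq := card_units_pos (p := p)
  cases d with
  | inl d =>
    simp only [II, P1]
    have e1 : ∀ γ γ' : (ZMod p)ˣ, D0 (GG (Function.update g i γ)) m (N d) (x d) (η d)
        (φ d (ofLex i).1) (ofLex i).1 (ofLex i).2 γ' = D0 (GG g) m (N d) (x d) (η d)
        (φ d (ofLex i).1) (ofLex i).1 (ofLex i).2 γ' := by
      intro γ γ'
      exact D0_congr _ _ m _ _ _ _ _ _ (GG_update_of_lt g i γ) (GG_update_of_lt' g i γ) γ'
    simp only [e1, GG_update_self]
    rw [Finset.sum_sub_distrib, Finset.sum_const, Finset.card_univ, nsmul_eq_mul]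
    field_simp
    ring
  | inr d =>
    simp only [II, P2]
    split_ifs with hm
    · simp only [Nat.add_sub_cancel]
      have e1 : ∀ γ γ' : (ZMod p)ˣ, QQ (GG (Function.update g i γ)) (N d) (x d) (η d)
          (φ d (ofLex i).1) (ofLex i).1 ((ofLex i).2 + 1) γ' = QQ (GG g) (N d) (x d) (η d)
          (φ d (ofLex i).1) (ofLex i).1 ((ofLex i).2 + 1) γ' := by
        intro γ γ'
        exact QQ_congr _ _ _ _ _ _ _ _ (GG_update_of_lt g i γ)
          (fun j hj => GG_update_of_lt' g i γ j (by omega)) γ'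
      simp only [e1, GG_update_self]
      rw [← Finset.mul_sum, Finset.sum_sub_distrib, Finset.sum_const, Finset.card_univ,
        nsmul_eq_mul]
      field_simp
      ring
    · simp

lemma II_bdd {D : Type*} (m : ℕ) (N x η : D → ℕ → ZMod p) (φ : D → ℕ → ZMod p → ℝ)
    (hφ : ∀ d b, ∑ t, φ d b t = 0) (hφ1 : ∀ d b t, |φ d b t| ≤ 1)
    (d : D ⊕ D) (i : ℕ ×ₗ ℕ) (g : ℕ ×ₗ ℕ → (ZMod p)ˣ) :
    |II m N x η φ d i g| ≤ 2 * (p : ℝ) ^ 2 := by
  cases d with
  | inl d => exact P1_abs _ _ _ _ _ _ (hφ1 d _) _ _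
  | inr d =>
    simp only [II]
    split_ifs with hm
    · exact P2_abs _ _ _ _ _ (hφ d _) (hφ1 d _) _ _
    · simp

/-- the index set -/
def idx (m : ℕ) : Finset (ℕ ×ₗ ℕ) :=
  ((range m ×ˢ range m).filter (fun q => q.1 ≤ q.2)).map toLex.toEmbedding

lemma card_idx (m : ℕ) : ((idx m).card : ℝ) ≤ (m : ℝ) ^ 2 := by
  unfold idx
  rw [Finset.card_map]
  have := Finset.card_filter_le (range m ×ˢ range m) (fun q => q.1 ≤ q.2)
  rw [Finset.card_product, Finset.card_range] at this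
  rw [sq]
  exact_mod_cast this

lemma sum_idx (m : ℕ) (f : ℕ → ℕ → ℝ) :
    ∑ i ∈ idx m, f (ofLex i).1 (ofLex i).2 =
      ∑ b ∈ range m, ∑ j ∈ range m, if b ≤ j then f b j else 0 := by
  unfold idx
  rw [Finset.sum_map, Finset.sum_filter, Finset.sum_product]
  rfl

lemma P2_of_ge (g : ℕ → ℕ → (ZMod p)ˣ) (N x η : ℕ → ZMod p)
    (φ : ZMod p → ℝ) (b j : ℕ) (h : j ≤ b) : P2 g N x η φ b j = 0 := by
  unfold P2 QQ T1
  rw [if_neg (by omega)]
  simp

lemma shift_sum (m b : ℕ) (P : ℕ → ℝ) (hP : ∀ j ≤ b, P j = 0) :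
    ∑ j ∈ range m, (if b ≤ j then P j else 0) =
      ∑ j ∈ range m, (if b ≤ j then (if j + 1 < m then P (j+1) else 0) else 0) := by
  cases m with
  | zero => simp
  | succ m =>
    rw [Finset.sum_range_succ', Finset.sum_range_succ]
    have h0 : (if b ≤ 0 then P 0 else 0) = 0 := by
      split_ifs with h
      · exact hP 0 (by omega)
      · rfl
    rw [h0, add_zero]
    simp only [lt_irrefl, if_false, ite_self, add_zero]
    apply Finset.sum_congr rfl
    intro j hj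
    have hj' : j < m := by simpa using hj
    rw [if_pos (show j + 1 < m + 1 by omega)]
    rcases Nat.lt_or_ge j b with h | h
    · rw [if_neg (show ¬ b ≤ j by omega)]
      split_ifs with h2
      · exact hP _ (by omega)
      · rfl
    · rw [if_pos h, if_pos (by omega)]

theorem avg_main {D : Type*} [Fintype D] (m : ℕ) (N x η : D → ℕ → ZMod p)
    (φ : D → ℕ → ZMod p → ℝ)
    (hφ : ∀ d b, ∑ t, φ d b t = 0) (hφ1 : ∀ d b t, |φ d b t| ≤ 1) (lam t : ℝ)
    (hlam : 0 < lam) (hlC : lam * (2 * (p : ℝ) ^ 2) ≤ 1)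
    (hcard : 4 * (Fintype.card D) * Real.exp (lam ^ 2 * (2 * (p : ℝ) ^ 2) ^ 2 * (m : ℝ) ^ 2) ≤
      Real.exp (lam * t)) :
    ∃ g : ℕ → ℕ → (ZMod p)ˣ, ∀ d, |∑ b ∈ range m, ∑ j ∈ range m,
      if b ≤ j then Dexp g m (N d) (x d) (η d) (φ d b) b j else 0| ≤ 2 * t + 2 * (m : ℝ) ^ 2 := by
  have hp0 : (0 : ℝ) ≤ 2 * (p : ℝ) ^ 2 := by positivity
  obtain ⟨g, hg⟩ := seq_choice (II m N x η φ) (2 * (p : ℝ) ^ 2) lam t hp0 hlam hlC
    (II_dep m N x η φ) (II_mean m N x η φ) (II_bdd m N x η φ hφ hφ1) (idx m)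
    (by
      refine le_trans ?_ hcard
      rw [Fintype.card_sum]
      push_cast
      have h1 : Real.exp (lam ^ 2 * (2 * (p : ℝ) ^ 2) ^ 2 * ((idx m).card : ℝ)) ≤
          Real.exp (lam ^ 2 * (2 * (p : ℝ) ^ 2) ^ 2 * (m : ℝ) ^ 2) := by
        apply Real.exp_le_exp.2
        exact mul_le_mul_of_nonneg_left (card_idx m) (by positivity)
      calc _ = 4 * (Fintype.card D : ℝ) *
            Real.exp (lam ^ 2 * (2 * (p : ℝ) ^ 2) ^ 2 * ((idx m).card : ℝ)) := by ring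
        _ ≤ _ := mul_le_mul_of_nonneg_left h1 (by positivity))
  refine ⟨GG g, fun d => ?_⟩
  have e1 : |∑ b ∈ range m, ∑ j ∈ range m, if b ≤ j then
      P1 (GG g) m (N d) (x d) (η d) (φ d b) b j else 0| ≤ t := by
    have := hg (Sum.inl d)
    simp only [II] at this
    rw [sum_idx m (fun b j => P1 (GG g) m (N d) (x d) (η d) (φ d b) b j)] at this
    exact this
  have e2 : |∑ b ∈ range m, ∑ j ∈ range m, if b ≤ j then
      P2 (GG g) (N d) (x d) (η d) (φ d b) b j else 0| ≤ t := by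
    have := hg (Sum.inr d)
    simp only [II] at this
    rw [sum_idx m (fun b j => if j + 1 < m then
      P2 (GG g) (N d) (x d) (η d) (φ d b) b (j + 1) else 0)] at this
    have h2 : ∀ b ∈ range m, (∑ j ∈ range m, if b ≤ j then
      P2 (GG g) (N d) (x d) (η d) (φ d b) b j else 0) = ∑ j ∈ range m, if b ≤ j then
        (if j + 1 < m then P2 (GG g) (N d) (x d) (η d) (φ d b) b (j + 1) else 0) else 0 := by
      intro b _
      exact shift_sum m b (fun j => P2 (GG g) (N d) (x d) (η d) (φ d b) b j)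
        (fun j hj => P2_of_ge _ _ _ _ _ _ _ hj)
    rw [Finset.sum_congr rfl h2]
    exact this
  have e3 : |∑ b ∈ range m, ∑ j ∈ range m, if b ≤ j then
      RR (GG g) m (N d) (x d) (η d) (φ d b) b j else 0| ≤ 2 * (m : ℝ) ^ 2 := by
    refine (Finset.abs_sum_le_sum_abs _ _).trans ?_
    calc _ ≤ ∑ b ∈ range m, ∑ j ∈ range m, (2 : ℝ) := by
          apply Finset.sum_le_sum
          intro b _
          refine (Finset.abs_sum_le_sum_abs _ _).trans ?_
          apply Finset.sum_le_sum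
          intro j _
          split_ifs
          · exact RR_abs _ _ _ _ _ _ (hφ d b) (hφ1 d b) _ _
          · simp
      _ = 2 * (m : ℝ) ^ 2 := by simp; ring
  have e4 : ∑ b ∈ range m, ∑ j ∈ range m,
      (if b ≤ j then Dexp (GG g) m (N d) (x d) (η d) (φ d b) b j else 0) =
      (∑ b ∈ range m, ∑ j ∈ range m, if b ≤ j then
        P1 (GG g) m (N d) (x d) (η d) (φ d b) b j else 0) +
      (∑ b ∈ range m, ∑ j ∈ range m, if b ≤ j then
        P2 (GG g) (N d) (x d) (η d) (φ d b) b j else 0) +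
      (∑ b ∈ range m, ∑ j ∈ range m, if b ≤ j then
        RR (GG g) m (N d) (x d) (η d) (φ d b) b j else 0) := by
    rw [← Finset.sum_add_distrib, ← Finset.sum_add_distrib]
    apply Finset.sum_congr rfl
    intro b _
    rw [← Finset.sum_add_distrib, ← Finset.sum_add_distrib]
    apply Finset.sum_congr rfl
    intro j _
    split_ifs
    · exact Dexp_eq _ _ _ _ _ _ (hφ d b) _ _
    · simp
  rw [e4]
  have := abs_add_le (∑ b ∈ range m, ∑ j ∈ range m, (if b ≤ j then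
        P1 (GG g) m (N d) (x d) (η d) (φ d b) b j else 0) +
      ∑ b ∈ range m, ∑ j ∈ range m, if b ≤ j then
        P2 (GG g) (N d) (x d) (η d) (φ d b) b j else 0)
      (∑ b ∈ range m, ∑ j ∈ range m, if b ≤ j then
        RR (GG g) m (N d) (x d) (η d) (φ d b) b j else 0)
  have := abs_add_le (∑ b ∈ range m, ∑ j ∈ range m, (if b ≤ j then
        P1 (GG g) m (N d) (x d) (η d) (φ d b) b j else 0))
      (∑ b ∈ range m, ∑ j ∈ range m, if b ≤ j then
        P2 (GG g) (N d) (x d) (η d) (φ d b) b j else 0)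
  linarith

end Pool.Agent.H470R2
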