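import Pool.Agent.H470R2.Asym

set_option autoImplicit false
set_option linter.unusedSectionVars false

namespace Pool.Agent.H470R2

open Finset

/-- one coordinate: from anchored to half-open intervals -/
lemma ico_of_star (M : ℕ) (Z : ℕ → ℝ) (Q : ℕ → Prop) [DecidablePred Q] (c B : ℝ)
    (h : ∀ x : ℝ, 0 ≤ x → x ≤ 1 →
      |(((range M).filter (fun n => Z n < x ∧ Q n)).card : ℝ) - x * c| ≤ B)
    {a b : ℝ} (ha : 0 ≤ a) (hab : a ≤ b) (hb : b ≤ 1) :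
    |(((range M).filter (fun n => (a ≤ Z n ∧ Z n < b) ∧ Q n)).card : ℝ) - (b - a) * c| ≤ 2 * B := by
  have h1 := h a ha (hab.trans hb)
  have h2 := h b (ha.trans hab) hb
  have h3 : (range M).filter (fun n => Z n < b ∧ Q n) =
      (range M).filter (fun n => (a ≤ Z n ∧ Z n < b) ∧ Q n) ∪
      (range M).filter (fun n => Z n < a ∧ Q n) := by
    ext n
    simp only [mem_filter, mem_union, mem_range]
    constructor
    · rintro ⟨h4, h5, h6⟩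
      rcases le_or_gt a (Z n) with h7 | h7
      · exact Or.inl ⟨h4, ⟨h7, h5⟩, h6⟩
      · exact Or.inr ⟨h4, h7, h6⟩
    · rintro (⟨h4, ⟨h5, h6⟩, h7⟩ | ⟨h4, h5, h6⟩)
      · exact ⟨h4, h6, h7⟩
      · exact ⟨h4, lt_of_lt_of_le h5 hab, h6⟩
  have h4 : Disjoint ((range M).filter (fun n => (a ≤ Z n ∧ Z n < b) ∧ Q n))
      ((range M).filter (fun n => Z n < a ∧ Q n)) := by
    rw [Finset.disjoint_left]
    intro n hn hn'
    simp only [mem_filter] at hn hn'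
    exact absurd hn'.2.1 (not_lt.2 hn.2.1.1)
  have h5 := congrArg Finset.card h3
  rw [Finset.card_union_of_disjoint h4] at h5
  have h6 : (((range M).filter (fun n => Z n < b ∧ Q n)).card : ℝ) =
      ((range M).filter (fun n => (a ≤ Z n ∧ Z n < b) ∧ Q n)).card +
      ((range M).filter (fun n => Z n < a ∧ Q n)).card := by exact_mod_cast h5
  rw [h6] at h2
  rw [abs_le] at h1 h2 ⊢
  constructor <;> linarith [h1.1, h1.2, h2.1, h2.2]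

/-- From initial segments of a planar sequence to a three dimensional point set. -/
lemma cube_star {X Y : ℕ → ℝ} {M : ℕ} {B : ℝ} (hM : 1 ≤ M)
    (hb : ∀ N ≤ M, StarBound X Y N B) {x₀ x₁ x₂ : ℝ} (h₀ : 0 ≤ x₀) (h₀' : x₀ ≤ 1)
    (h₁ : 0 ≤ x₁) (h₁' : x₁ ≤ 1) (h₂ : 0 ≤ x₂) (h₂' : x₂ ≤ 1) :
    |(((range M).filter (fun n : ℕ => (n:ℝ) / M < x₀ ∧ X n < x₁ ∧ Y n < x₂)).card : ℝ) -
      M * x₀ * x₁ * x₂| ≤ B + 1 := by
  have hM0 : (0:ℝ) < M := by exact_mod_cast hM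
  set N := ⌈M * x₀⌉₊ with hN
  have hNM : N ≤ M := by
    rw [hN]
    apply Nat.ceil_le.2
    calc (M:ℝ) * x₀ ≤ M * 1 := by gcongr
      _ = M := mul_one _
  have h1 := hb N hNM x₁ x₂ h₁ h₁' h₂ h₂'
  have h2 : (range M).filter (fun n : ℕ => (n:ℝ) / M < x₀ ∧ X n < x₁ ∧ Y n < x₂) =
      (range N).filter (fun n => X n < x₁ ∧ Y n < x₂) := by
    ext n
    simp only [mem_filter, mem_range]
    rw [hN, Nat.lt_ceil, div_lt_iff₀ hM0]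
    constructor
    · rintro ⟨_, h3, h4⟩
      exact ⟨by linarith, h4⟩
    · rintro ⟨h3, h4⟩
      refine ⟨?_, by linarith, h4⟩
      have : (n:ℝ) < M := by
        calc (n:ℝ) < M * x₀ := h3
          _ ≤ M * 1 := by gcongr
          _ = M := mul_one _
      exact_mod_cast this
  rw [h2]
  have h3 : (M:ℝ) * x₀ ≤ N := Nat.le_ceil _
  have h4 : (N:ℝ) < M * x₀ + 1 := Nat.ceil_lt_add_one (by positivity)
  have h5 : |(N:ℝ) * x₁ * x₂ - M * x₀ * x₁ * x₂| ≤ 1 := by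
    have e : (N:ℝ) * x₁ * x₂ - M * x₀ * x₁ * x₂ = (N - M * x₀) * (x₁ * x₂) := by ring
    rw [e, abs_mul, abs_of_nonneg (by linarith : (0:ℝ) ≤ N - M * x₀),
      abs_of_nonneg (by positivity)]
    calc _ ≤ (1:ℝ) * (1 * 1) := by
          apply mul_le_mul (by linarith) _ (by positivity) zero_le_one
          gcongr
      _ = 1 := by norm_num
  rw [abs_le] at h1 h5 ⊢
  constructor <;> linarith [h1.1, h1.2, h5.1, h5.2]

/-- Half-open boxes in three dimensions. -/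
lemma cube_box {X Y : ℕ → ℝ} {M : ℕ} {B : ℝ} (hM : 1 ≤ M)
    (hb : ∀ N ≤ M, StarBound X Y N B) {a₀ a₁ a₂ b₀ b₁ b₂ : ℝ}
    (ha₀ : 0 ≤ a₀) (hab₀ : a₀ ≤ b₀) (hb₀ : b₀ ≤ 1)
    (ha₁ : 0 ≤ a₁) (hab₁ : a₁ ≤ b₁) (hb₁ : b₁ ≤ 1)
    (ha₂ : 0 ≤ a₂) (hab₂ : a₂ ≤ b₂) (hb₂ : b₂ ≤ 1) :
    |(((range M).filter (fun n : ℕ => (a₀ ≤ (n:ℝ) / M ∧ (n:ℝ) / M < b₀) ∧ (a₁ ≤ X n ∧ X n < b₁) ∧
        (a₂ ≤ Y n ∧ Y n < b₂))).card : ℝ) -
      M * (b₀ - a₀) * (b₁ - a₁) * (b₂ - a₂)| ≤ 8 * (B + 1) := by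
  have s0 : ∀ x₀ x₁ x₂ : ℝ, 0 ≤ x₀ → x₀ ≤ 1 → 0 ≤ x₁ → x₁ ≤ 1 → 0 ≤ x₂ → x₂ ≤ 1 →
      |(((range M).filter (fun n : ℕ => Y n < x₂ ∧ ((n:ℝ) / M < x₀ ∧ X n < x₁))).card : ℝ) -
      x₂ * (M * x₀ * x₁)| ≤ B + 1 := by
    intro x₀ x₁ x₂ h1 h2 h3 h4 h5 h6
    have := cube_star hM hb h1 h2 h3 h4 h5 h6
    have e1 : (range M).filter (fun n : ℕ => Y n < x₂ ∧ ((n:ℝ) / M < x₀ ∧ X n < x₁)) =
        (range M).filter (fun n : ℕ => (n:ℝ) / M < x₀ ∧ X n < x₁ ∧ Y n < x₂) := by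
      apply Finset.filter_congr; intro n _; tauto
    rw [e1]
    have e2 : x₂ * (M * x₀ * x₁) = M * x₀ * x₁ * x₂ := by ring
    rw [e2]; exact this
  have s1 : ∀ x₀ x₁ : ℝ, 0 ≤ x₀ → x₀ ≤ 1 → 0 ≤ x₁ → x₁ ≤ 1 →
      |(((range M).filter (fun n : ℕ => X n < x₁ ∧ ((n:ℝ) / M < x₀ ∧ (a₂ ≤ Y n ∧ Y n < b₂)))).card : ℝ) -
      x₁ * (M * x₀ * (b₂ - a₂))| ≤ 2 * (B + 1) := by
    intro x₀ x₁ h1 h2 h3 h4
    have := ico_of_star M Y (fun n : ℕ => (n:ℝ) / M < x₀ ∧ X n < x₁) (M * x₀ * x₁) (B + 1)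
      (fun x₂ h5 h6 => s0 x₀ x₁ x₂ h1 h2 h3 h4 h5 h6) ha₂ hab₂ hb₂
    have e1 : (range M).filter (fun n : ℕ => (a₂ ≤ Y n ∧ Y n < b₂) ∧ ((n:ℝ) / M < x₀ ∧ X n < x₁)) =
        (range M).filter (fun n : ℕ => X n < x₁ ∧ ((n:ℝ) / M < x₀ ∧ (a₂ ≤ Y n ∧ Y n < b₂))) := by
      apply Finset.filter_congr; intro n _; tauto
    rw [e1] at this
    have e2 : x₁ * (M * x₀ * (b₂ - a₂)) = (b₂ - a₂) * (M * x₀ * x₁) := by ring
    rw [e2]; exact this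
  have s2 : ∀ x₀ : ℝ, 0 ≤ x₀ → x₀ ≤ 1 →
      |(((range M).filter (fun n : ℕ => (n:ℝ) / M < x₀ ∧ ((a₁ ≤ X n ∧ X n < b₁) ∧
        (a₂ ≤ Y n ∧ Y n < b₂)))).card : ℝ) -
      x₀ * (M * (b₁ - a₁) * (b₂ - a₂))| ≤ 2 * (2 * (B + 1)) := by
    intro x₀ h1 h2
    have := ico_of_star M X (fun n : ℕ => (n:ℝ) / M < x₀ ∧ (a₂ ≤ Y n ∧ Y n < b₂))
      (M * x₀ * (b₂ - a₂)) (2 * (B + 1)) (fun x₁ h3 h4 => s1 x₀ x₁ h1 h2 h3 h4) ha₁ hab₁ hb₁
    have e1 : (range M).filter (fun n : ℕ => (a₁ ≤ X n ∧ X n < b₁) ∧ ((n:ℝ) / M < x₀ ∧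
        (a₂ ≤ Y n ∧ Y n < b₂))) =
        (range M).filter (fun n : ℕ => (n:ℝ) / M < x₀ ∧ ((a₁ ≤ X n ∧ X n < b₁) ∧
        (a₂ ≤ Y n ∧ Y n < b₂))) := by
      apply Finset.filter_congr; intro n _; tauto
    rw [e1] at this
    have e2 : x₀ * (M * (b₁ - a₁) * (b₂ - a₂)) = (b₁ - a₁) * (M * x₀ * (b₂ - a₂)) := by ring
    rw [e2]; exact this
  have := ico_of_star M (fun n : ℕ => (n:ℝ) / M) (fun n => (a₁ ≤ X n ∧ X n < b₁) ∧
        (a₂ ≤ Y n ∧ Y n < b₂)) (M * (b₁ - a₁) * (b₂ - a₂)) (2 * (2 * (B + 1)))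
        (fun x₀ h1 h2 => s2 x₀ h1 h2) ha₀ hab₀ hb₀
  have e2 : (b₀ - a₀) * (M * (b₁ - a₁) * (b₂ - a₂)) = M * (b₀ - a₀) * (b₁ - a₁) * (b₂ - a₂) := by
    ring
  rw [e2] at this
  refine this.trans (le_of_eq (by ring))

/-- `M` can be chosen with the discrepancy bound below any multiple of `(log M)^2`. -/
lemma exists_good_M (C ε : ℝ) (hε : 0 < ε) (M₀ : ℕ) :
    ∃ M : ℕ, M₀ ≤ M ∧ 3 ≤ M ∧
      C * ((Real.log M) ^ 2 / (Real.log (Real.log M)) ^ 2) + 1 < ε * (Real.log M) ^ 2 := by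
  have h1 : Filter.Tendsto (fun M : ℕ => Real.log (M:ℝ)) Filter.atTop Filter.atTop :=
    Real.tendsto_log_atTop.comp tendsto_natCast_atTop_atTop
  have h2 : Filter.Tendsto (fun M : ℕ => Real.log (Real.log (M:ℝ))) Filter.atTop Filter.atTop :=
    Real.tendsto_log_atTop.comp h1
  have h3 : Filter.Tendsto (fun M : ℕ => C / (Real.log (Real.log (M:ℝ))) ^ 2) Filter.atTop
      (nhds 0) := by
    apply Filter.Tendsto.div_atTop tendsto_const_nhds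
    exact (Filter.tendsto_pow_atTop (by norm_num)).comp h2
  have h4 : Filter.Tendsto (fun M : ℕ => 1 / (Real.log (M:ℝ)) ^ 2) Filter.atTop
      (nhds 0) := by
    apply Filter.Tendsto.div_atTop tendsto_const_nhds
    exact (Filter.tendsto_pow_atTop (by norm_num)).comp h1
  have e3 := (h3.eventually (gt_mem_nhds (show (0:ℝ) < ε / 2 by linarith)))
  have e4 := (h4.eventually (gt_mem_nhds (show (0:ℝ) < ε / 2 by linarith)))
  have e5 := h1.eventually (Filter.eventually_gt_atTop 1)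
  obtain ⟨M, hM⟩ := (e3.and (e4.and (e5.and ((Filter.eventually_ge_atTop M₀).and
    (Filter.eventually_ge_atTop 3))))).exists
  obtain ⟨a1, a2, a3, a4, a5⟩ := hM
  refine ⟨M, a4, a5, ?_⟩
  have hpos : 0 < (Real.log (M:ℝ)) ^ 2 := by positivity
  have b1 : C * ((Real.log M) ^ 2 / (Real.log (Real.log M)) ^ 2) =
      (C / (Real.log (Real.log M)) ^ 2) * (Real.log M) ^ 2 := by ring
  have b2 : (1:ℝ) = (1 / (Real.log (M:ℝ)) ^ 2) * (Real.log M) ^ 2 := by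
    field_simp
  rw [b1]
  calc (C / (Real.log (Real.log M)) ^ 2) * (Real.log M) ^ 2 + 1
      = (C / (Real.log (Real.log M)) ^ 2) * (Real.log M) ^ 2 +
        (1 / (Real.log (M:ℝ)) ^ 2) * (Real.log M) ^ 2 := by rw [← b2]
    _ < (ε / 2) * (Real.log M) ^ 2 + (ε / 2) * (Real.log M) ^ 2 := by
        apply add_lt_add
        · exact mul_lt_mul_of_pos_right a1 hpos
        · exact mul_lt_mul_of_pos_right a2 hpos
    _ = ε * (Real.log M) ^ 2 := by ring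

end Pool.Agent.H470R2
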