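import Pool.Agent.H470R2.AvgMain

set_option autoImplicit false
set_option linter.unusedSectionVars false

namespace Pool.Agent.H470R2

open Finset
open scoped Classical

variable {p : ℕ} [hp : Fact p.Prime]

/-- tails of the expansion -/
noncomputable def rhoAux (t : ℕ → ZMod p) : ℕ → ℕ → ℝ
  | 0, _ => 0
  | n + 1, b => ((t b).val + rhoAux t n (b+1)) / p

noncomputable def rho (m : ℕ) (t : ℕ → ZMod p) (b : ℕ) : ℝ := rhoAux t (m - b) b

lemma rhoAux_nonneg (t : ℕ → ZMod p) : ∀ n b, 0 ≤ rhoAux t n b := by
  intro n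
  induction n with
  | zero => intro b; simp [rhoAux]
  | succ n ih => intro b; simp only [rhoAux]; have := ih (b+1); positivity

lemma rhoAux_le_one (t : ℕ → ZMod p) : ∀ n b, rhoAux t n b ≤ 1 := by
  intro n
  induction n with
  | zero => intro b; simp [rhoAux]
  | succ n ih =>
    intro b
    simp only [rhoAux]
    have h1 := ih (b+1)
    have h2 : ((t b).val : ℝ) + 1 ≤ p := by exact_mod_cast ZMod.val_lt (t b)
    have h3 : (0:ℝ) < p := by exact_mod_cast hp.out.pos
    rw [div_le_one h3]
    linarith

lemma rho_nonneg (m : ℕ) (t : ℕ → ZMod p) (b : ℕ) : 0 ≤ rho m t b := rhoAux_nonneg _ _ _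
lemma rho_le_one (m : ℕ) (t : ℕ → ZMod p) (b : ℕ) : rho m t b ≤ 1 := rhoAux_le_one _ _ _

lemma rho_succ (m : ℕ) (t : ℕ → ZMod p) {b : ℕ} (hb : b < m) :
    rho m t b = ((t b).val + rho m t (b+1)) / p := by
  unfold rho
  have : m - b = (m - (b+1)) + 1 := by omega
  rw [this]
  simp only [rhoAux]

lemma rhoAux_eq_sum (t : ℕ → ZMod p) : ∀ n b,
    rhoAux t n b = ∑ i ∈ range n, ((t (b+i)).val : ℝ) / (p : ℝ) ^ (i+1) := by
  intro n
  induction n with
  | zero => intro b; simp [rhoAux]
  | succ n ih =>
    intro b
    simp only [rhoAux]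
    rw [ih (b+1), Finset.sum_range_succ', add_div, Finset.sum_div, add_comm]
    have h3 : (p:ℝ) ≠ 0 := by exact_mod_cast hp.out.ne_zero
    congr 1
    · apply Finset.sum_congr rfl
      intro i _
      rw [show b + 1 + i = b + (i + 1) by ring, div_div, ← pow_succ]
    · simp

/-- `rho m t 0` is the real number with digits `t`. -/
lemma rho_zero (m : ℕ) (t : ℕ → ZMod p) :
    rho m t 0 = ∑ i ∈ range m, ((t i).val : ℝ) / (p : ℝ) ^ (i+1) := by
  unfold rho
  rw [rhoAux_eq_sum]
  simp

/-- The mean-zero function at level `b`. -/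
noncomputable def phi (m : ℕ) (t : ℕ → ZMod p) (b : ℕ) (s : ZMod p) : ℝ :=
  (if s.val < (t b).val then 1 else 0) + (if s = t b then rho m t (b+1) else 0) - rho m t b

lemma phi_abs (m : ℕ) (t : ℕ → ZMod p) (b : ℕ) (s : ZMod p) : |phi m t b s| ≤ 1 := by
  unfold phi
  have h1 := rho_nonneg m t b
  have h2 := rho_le_one m t b
  have h3 := rho_nonneg m t (b+1)
  have h4 := rho_le_one m t (b+1)
  rw [abs_le]
  split_ifs with h5 h6 h6
  · rw [h6] at h5; exact absurd h5 (lt_irrefl _)
  · constructor <;> linarith
  · constructor <;> linarith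
  · constructor <;> linarith

lemma sum_phi (m : ℕ) (t : ℕ → ZMod p) {b : ℕ} (hb : b < m) : ∑ s, phi m t b s = 0 := by
  unfold phi
  rw [Finset.sum_sub_distrib, Finset.sum_add_distrib, Finset.sum_const, Finset.card_univ,
    ZMod.card, nsmul_eq_mul, Finset.sum_ite_eq' univ (t b), if_pos (mem_univ _)]
  have h1 : ∑ s : ZMod p, (if s.val < (t b).val then (1:ℝ) else 0) = (t b).val := by
    rw [← Finset.sum_filter, Finset.sum_const, nsmul_eq_mul, mul_one]
    have := card_filter_val_lt (t b) 1 one_ne_zero
    simp only [mul_one] at this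
    have h2 : (univ.filter (fun s : ZMod p => s.val < (t b).val)).card =
        (univ.filter (fun τ : ZMod p => (t b + τ).val < (t b).val)).card := by
      refine Finset.card_bij' (fun s _ => s - t b) (fun τ _ => t b + τ) ?_ ?_ ?_ ?_
      · intro s hs
        simpa using hs
      · intro s hs
        simpa using hs
      · intro s _; ring
      · intro s _; ring
    rw [h2, this]
  rw [h1, rho_succ m t hb]
  have h3 : (p:ℝ) ≠ 0 := by exact_mod_cast hp.out.ne_zero
  field_simp
  ring

/-- agreement of the first `b` digits -/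
def pre {α : Type*} (Z : ℕ → α → ZMod p) (t : ℕ → ZMod p) (b : ℕ) (w : α) : Prop :=
  ∀ i < b, Z i w = t i

def ltZ {α : Type*} (m : ℕ) (Z : ℕ → α → ZMod p) (t : ℕ → ZMod p) (w : α) : Prop :=
  ∃ b < m, pre Z t b w ∧ (Z b w).val < (t b).val

lemma telescope_point {α : Type*} (m : ℕ) (Z : ℕ → α → ZMod p) (t : ℕ → ZMod p) (w : α) :
    ∀ B ≤ m, (if ltZ m Z t w then (1:ℝ) else 0) = rho m t 0 +
      (∑ b ∈ range B, if pre Z t b w then phi m t b (Z b w) else 0) +
      (if pre Z t B w then (if ltZ m Z t w then (1:ℝ) else 0) - rho m t B else 0) := by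
  intro B
  induction B with
  | zero =>
    intro _
    have : pre Z t 0 w := by intro i hi; omega
    rw [if_pos this]; simp
  | succ B ih =>
    intro hB
    have hih := ih (by omega)
    rw [Finset.sum_range_succ]
    have key : (if pre Z t B w then (if ltZ m Z t w then (1:ℝ) else 0) - rho m t B else 0) =
        (if pre Z t B w then phi m t B (Z B w) else 0) +
        (if pre Z t (B+1) w then (if ltZ m Z t w then (1:ℝ) else 0) - rho m t (B+1) else 0) := by
      by_cases h : pre Z t B w
      · by_cases h2 : Z B w = t B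
        · have h3 : pre Z t (B+1) w := by
            intro i hi
            rcases Nat.lt_or_ge i B with h4 | h4
            · exact h i h4
            · have : i = B := by omega
              rw [this]; exact h2
          rw [if_pos h, if_pos h, if_pos h3]
          unfold phi
          rw [h2]
          simp
        · have h3 : ¬ pre Z t (B+1) w := fun h4 => h2 (h4 B (by omega))
          rw [if_pos h, if_pos h, if_neg h3]
          unfold phi
          rw [if_neg h2]
          have h5 : ltZ m Z t w ↔ (Z B w).val < (t B).val := by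
            constructor
            · rintro ⟨b, hb, h6, h7⟩
              rcases Nat.lt_trichotomy b B with h8 | h8 | h8
              · rw [h b h8] at h7; exact absurd h7 (lt_irrefl _)
              · rw [h8] at h7; exact h7
              · exact absurd (h6 B h8) h2
            · intro h6
              exact ⟨B, by omega, h, h6⟩
          by_cases h6 : ltZ m Z t w
          · rw [if_pos h6, if_pos (h5.1 h6)]; ring
          · rw [if_neg h6, if_neg (fun h7 => h6 (h5.2 h7))]; ring
      · have h3 : ¬ pre Z t (B+1) w := fun h4 => h (fun i hi => h4 i (by omega))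
        rw [if_neg h, if_neg h, if_neg h3]; ring
    rw [key] at hih
    linarith

lemma telescope_sum {α : Type*} (m : ℕ) (Z : ℕ → α → ZMod p) (t : ℕ → ZMod p) (A : Finset α)
    (B : ℕ) (hB : B ≤ m) :
    ((A.filter (ltZ m Z t)).card : ℝ) = rho m t 0 * A.card +
      (∑ b ∈ range B, ∑ w ∈ A.filter (pre Z t b), phi m t b (Z b w)) +
      ∑ w ∈ A.filter (pre Z t B), ((if ltZ m Z t w then (1:ℝ) else 0) - rho m t B) := by
  have h1 : ((A.filter (ltZ m Z t)).card : ℝ) = ∑ w ∈ A, (if ltZ m Z t w then (1:ℝ) else 0) := by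
    rw [← Finset.sum_filter, Finset.sum_const, nsmul_eq_mul, mul_one]
  rw [h1, Finset.sum_congr rfl (fun w _ => telescope_point m Z t w B hB),
    Finset.sum_add_distrib, Finset.sum_add_distrib, Finset.sum_const, nsmul_eq_mul,
    Finset.sum_comm]
  simp only [← Finset.sum_filter]
  ring

end Pool.Agent.H470R2
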