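import Pool.Agent.H470R2.Grid

set_option autoImplicit false
set_option linter.unusedSectionVars false

namespace Pool.Agent.H470R2

open Finset
open scoped Classical

variable {p : ℕ} [hp : Fact p.Prime]

/-- base-`p` digits of `n` -/
def dg (p n i : ℕ) : ZMod p := ((n / p ^ i : ℕ) : ZMod p)

lemma val_dg (n i : ℕ) : (dg p n i).val = (n / p ^ i) % p := by
  unfold dg; rw [ZMod.val_natCast]

lemma dg_eq_zero {n m i : ℕ} (hn : n < p ^ m) (hi : m ≤ i) : dg p n i = 0 := by
  unfold dg
  rw [Nat.div_eq_of_lt (hn.trans_le (Nat.pow_le_pow_right hp.out.pos hi))]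
  simp

def Tn (m : ℕ) (w : ℕ → ZMod p) : ℕ := ∑ i ∈ range m, (w i).val * p ^ i

lemma Tn_dg_mod (n : ℕ) : ∀ m, Tn m (dg p n) = n % p ^ m := by
  intro m
  induction m with
  | zero => simp [Tn, Nat.mod_one]
  | succ m ih =>
    unfold Tn at ih ⊢
    rw [Finset.sum_range_succ, ih, val_dg, Nat.mod_pow_succ]
    ring

lemma Tn_dg {n m : ℕ} (hn : n < p ^ m) : Tn m (dg p n) = n := by
  rw [Tn_dg_mod, Nat.mod_eq_of_lt hn]

lemma Tn_lt (w : ℕ → ZMod p) : ∀ m, Tn m w < p ^ m := by
  intro m
  induction m with
  | zero => simp [Tn]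
  | succ m ih =>
    have h0 : Tn (m+1) w = Tn m w + (w m).val * p ^ m := by
      unfold Tn; rw [Finset.sum_range_succ]
    rw [h0]
    have h1 : (w m).val + 1 ≤ p := ZMod.val_lt (w m)
    calc Tn m w + (w m).val * p ^ m < p ^ m + (w m).val * p ^ m := by omega
      _ = ((w m).val + 1) * p ^ m := by ring
      _ ≤ p * p ^ m := Nat.mul_le_mul_right _ h1
      _ = p ^ (m+1) := by ring

lemma Tn_lt_of_top {m j : ℕ} (hj : j < m) (w N : ℕ → ZMod p)
    (h1 : ∀ i, j < i → i < m → w i = N i) (h2 : (w j).val < (N j).val) : Tn m w < Tn m N := by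
  have h3 : ∀ k, j + 1 ≤ k → k ≤ m → Tn k w < Tn k N := by
    intro k hk
    induction k, hk using Nat.le_induction with
    | base =>
      intro _
      have e1 : Tn (j+1) w = Tn j w + (w j).val * p ^ j := by
        unfold Tn; rw [Finset.sum_range_succ]
      have e2 : Tn (j+1) N = Tn j N + (N j).val * p ^ j := by
        unfold Tn; rw [Finset.sum_range_succ]
      rw [e1, e2]
      have h4 := Tn_lt w j
      calc Tn j w + (w j).val * p ^ j < p ^ j + (w j).val * p ^ j := by omega
        _ = ((w j).val + 1) * p ^ j := by ring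
        _ ≤ (N j).val * p ^ j := Nat.mul_le_mul_right _ h2
        _ ≤ Tn j N + (N j).val * p ^ j := by omega
    | succ k hk ih =>
      intro hkm
      have e1 : Tn (k+1) w = Tn k w + (w k).val * p ^ k := by
        unfold Tn; rw [Finset.sum_range_succ]
      have e2 : Tn (k+1) N = Tn k N + (N k).val * p ^ k := by
        unfold Tn; rw [Finset.sum_range_succ]
      rw [e1, e2, h1 k (by omega) (by omega)]
      have := ih (by omega)
      omega
  exact h3 m (by omega) le_rfl

lemma ltT_dg {m n N : ℕ} (hn : n < p ^ m) (hN : N < p ^ m) :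
    ltT m (dg p N) (fun i : Fin m => dg p n i) ↔ n < N := by
  have main : ∀ n N : ℕ, n < p ^ m → N < p ^ m → (∃ j < m, (∀ i, j < i → i < m → dg p n i = dg p N i) ∧
      (dg p n j).val < (dg p N j).val) → n < N := by
    rintro n N hn hN ⟨j, hj, h1, h2⟩
    have := Tn_lt_of_top hj (dg p n) (dg p N) h1 h2
    rwa [Tn_dg hn, Tn_dg hN] at this
  constructor
  · rintro ⟨j, hj, h⟩
    apply main n N hn hN
    refine ⟨j, hj, ?_, (h ⟨j, hj⟩).2 rfl⟩
    intro i hi him
    exact (h ⟨i, him⟩).1 hi
  · intro hlt
    -- top differing index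
    have hex : ∃ j, j < m ∧ dg p n j ≠ dg p N j := by
      by_contra hcon
      push Not at hcon
      have : Tn m (dg p n) = Tn m (dg p N) := by
        unfold Tn
        apply Finset.sum_congr rfl
        intro i hi
        rw [hcon i (by simpa using hi)]
      rw [Tn_dg hn, Tn_dg hN] at this
      omega
    obtain ⟨j, ⟨hj, hjne⟩, hmax⟩ : ∃ j, (j < m ∧ dg p n j ≠ dg p N j) ∧
        ∀ i, (i < m ∧ dg p n i ≠ dg p N i) → i ≤ j := by
      have hS : ((range m).filter (fun j => dg p n j ≠ dg p N j)).Nonempty := by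
        obtain ⟨j, hj, hjne⟩ := hex
        exact ⟨j, by simp [hj, hjne]⟩
      refine ⟨((range m).filter (fun j => dg p n j ≠ dg p N j)).max' hS, ?_, ?_⟩
      · have := Finset.max'_mem _ hS
        simpa using this
      · intro i hi
        apply Finset.le_max'
        simpa using hi
    have heq : ∀ i, j < i → i < m → dg p n i = dg p N i := by
      intro i hi him
      by_contra hne
      have := hmax i ⟨him, hne⟩
      omega
    rcases Nat.lt_trichotomy (dg p n j).val (dg p N j).val with h | h | h
    · refine ⟨j, hj, ?_⟩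
      intro i
      refine ⟨fun hi => heq i hi i.2, fun hi => ?_⟩
      show (dg p n i).val < (dg p N i).val
      rw [hi]; exact h
    · exact absurd (ZMod.val_injective p h) hjne
    · exfalso
      have := main N n hN hn ⟨j, hj, fun i hi him => (heq i hi him).symm, h⟩
      omega

lemma dg_bij (m : ℕ) : Function.Bijective
    (fun (n : Fin (p ^ m)) => (fun i : Fin m => dg p (n:ℕ) i)) := by
  rw [Fintype.bijective_iff_injective_and_card]
  constructor
  · intro n n' h
    have : Tn m (dg p (n:ℕ)) = Tn m (dg p (n':ℕ)) := by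
      unfold Tn
      apply Finset.sum_congr rfl
      intro i hi
      have := congrFun h ⟨i, by simpa using hi⟩
      simp only at this
      rw [this]
    rw [Tn_dg n.2, Tn_dg n'.2] at this
    exact Fin.ext this
  · simp [ZMod.card]

lemma card_filter_dg (m : ℕ) (Q : (Fin m → ZMod p) → Prop) [DecidablePred Q]
    [DecidablePred (fun n : ℕ => Q (fun i : Fin m => dg p n i))] :
    (univ.filter Q).card = ((range (p ^ m)).filter
      (fun n => Q (fun i : Fin m => dg p n i))).card := by
  symm
  apply Finset.card_bij (fun n _ => (fun i : Fin m => dg p n i))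
  · intro n hn
    simp only [mem_filter, mem_univ, true_and, mem_range] at hn ⊢
    exact hn.2
  · intro n hn n' hn' h
    simp only [mem_filter, mem_range] at hn hn'
    have := (dg_bij (p := p) m).1 (a₁ := ⟨n, hn.1⟩) (a₂ := ⟨n', hn'.1⟩) h
    exact congrArg Fin.val this
  · intro w hw
    obtain ⟨n, hn⟩ := (dg_bij (p := p) m).2 w
    simp only at hn
    refine ⟨n, ?_, hn⟩
    simp only [mem_filter, mem_univ, true_and, mem_range] at hw ⊢
    exact ⟨n.2, by rw [hn]; exact hw⟩

/-! ### Order on expansions -/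

lemma rhoAux_lt_one (t : ℕ → ZMod p) : ∀ n b, rhoAux t n b < 1 := by
  intro n
  induction n with
  | zero => intro b; simp [rhoAux]
  | succ n ih =>
    intro b
    simp only [rhoAux]
    have h1 := ih (b+1)
    have h2 : ((t b).val : ℝ) + 1 ≤ p := by exact_mod_cast ZMod.val_lt (t b)
    have h3 : (0:ℝ) < p := by exact_mod_cast hp.out.pos
    rw [div_lt_one h3]
    linarith

lemma rho_lt_one (m : ℕ) (t : ℕ → ZMod p) (b : ℕ) : rho m t b < 1 := rhoAux_lt_one _ _ _

lemma rho_lt_of_digits {m : ℕ} (s t : ℕ → ZMod p) {b : ℕ} (hb : b < m)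
    (h : ∀ i < b, s i = t i) (h' : (s b).val < (t b).val) : rho m s 0 < rho m t 0 := by
  have hp0 : (0:ℝ) < p := by exact_mod_cast hp.out.pos
  have key : ∀ k ≤ b, rho m s (b - k) < rho m t (b - k) := by
    intro k
    induction k with
    | zero =>
      intro _
      rw [Nat.sub_zero, rho_succ m s hb, rho_succ m t hb]
      apply div_lt_div_of_pos_right _ hp0
      have h1 := rho_lt_one m s (b+1)
      have h2 := rho_nonneg m t (b+1)
      have h3 : ((s b).val : ℝ) + 1 ≤ (t b).val := by exact_mod_cast h'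
      linarith
    | succ k ih =>
      intro hk
      have h1 := ih (by omega)
      rw [rho_succ m s (b := b - (k+1)) (by omega), rho_succ m t (b := b - (k+1)) (by omega),
        h (b - (k+1)) (by omega), show b - (k+1) + 1 = b - k by omega]
      apply div_lt_div_of_pos_right _ hp0
      linarith
  have := key b le_rfl
  simpa using this

lemma rho_congr {m : ℕ} (s t : ℕ → ZMod p) (h : ∀ i < m, s i = t i) : rho m s 0 = rho m t 0 := by
  rw [rho_zero, rho_zero]
  apply Finset.sum_congr rfl
  intro i hi
  rw [h i (by simpa using hi)]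

lemma rho_lt_iff {m : ℕ} (s t : ℕ → ZMod p) :
    rho m s 0 < rho m t 0 ↔ ∃ b < m, (∀ i < b, s i = t i) ∧ (s b).val < (t b).val := by
  constructor
  · intro hlt
    have hex : ∃ b, b < m ∧ s b ≠ t b := by
      by_contra hcon
      push Not at hcon
      rw [rho_congr s t hcon] at hlt
      exact lt_irrefl _ hlt
    have h1 := Nat.find_spec hex
    have h2 : ∀ i < Nat.find hex, s i = t i := by
      intro i hi
      have := Nat.find_min hex hi
      push Not at this
      exact this (by omega)
    refine ⟨Nat.find hex, h1.1, h2, ?_⟩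
    rcases Nat.lt_trichotomy (s (Nat.find hex)).val (t (Nat.find hex)).val with h | h | h
    · exact h
    · exact absurd (ZMod.val_injective p h) h1.2
    · exfalso
      have := rho_lt_of_digits t s h1.1 (fun i hi => (h2 i hi).symm) h
      linarith
  · rintro ⟨b, hb, h, h'⟩
    exact rho_lt_of_digits s t hb h h'

lemma rho_inj {m : ℕ} (s t : ℕ → ZMod p) (h : rho m s 0 = rho m t 0) : ∀ i < m, s i = t i := by
  by_contra hcon
  push Not at hcon
  obtain ⟨i, hi, hne⟩ := hcon
  have hex : ∃ b, b < m ∧ s b ≠ t b := ⟨i, hi, hne⟩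
  have h1 := Nat.find_spec hex
  have h2 : ∀ i < Nat.find hex, s i = t i := by
    intro i hi
    have := Nat.find_min hex hi
    push Not at this
    exact this (by omega)
  rcases Nat.lt_trichotomy (s (Nat.find hex)).val (t (Nat.find hex)).val with h3 | h3 | h3
  · have := rho_lt_of_digits s t h1.1 h2 h3
    linarith
  · exact absurd (ZMod.val_injective p h3) h1.2
  · have := rho_lt_of_digits t s h1.1 (fun i hi => (h2 i hi).symm) h3
    linarith

/-- `p^m * rho` is the integer with reversed digits. -/
lemma rho_eq_Tn (m : ℕ) (t : ℕ → ZMod p) :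
    rho m t 0 = (Tn m (fun i => t (m - 1 - i)) : ℝ) / (p : ℝ) ^ m := by
  have hp0 : (p:ℝ) ≠ 0 := by exact_mod_cast hp.out.ne_zero
  rw [rho_zero, ← Finset.sum_range_reflect]
  unfold Tn
  push_cast
  rw [Finset.sum_div]
  apply Finset.sum_congr rfl
  intro i hi
  have hi' : i < m := by simpa using hi
  have h1 : (p:ℝ) ^ m = (p:ℝ) ^ (m - 1 - i + 1) * (p:ℝ) ^ i := by
    rw [← pow_add]; congr 1; omega
  rw [h1]
  field_simp

/-- digits of `k/p^m` -/
def xd (p m k i : ℕ) : ZMod p := if i < m then dg p k (m - 1 - i) else 0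

lemma rho_xd {m k : ℕ} (hk : k < p ^ m) : rho m (xd p m k) 0 = (k : ℝ) / (p : ℝ) ^ m := by
  rw [rho_eq_Tn]
  congr 2
  have h2 : Tn m (fun i => xd p m k (m - 1 - i)) = Tn m (dg p k) := by
    unfold Tn
    apply Finset.sum_congr rfl
    intro i hi
    have hi' : i < m := by simpa using hi
    have : xd p m k (m - 1 - i) = dg p k i := by
      unfold xd
      rw [if_pos (by omega)]
      congr 1
      omega
    show (xd p m k (m - 1 - i)).val * p ^ i = _
    rw [this]
  rw [h2, Tn_dg hk]

end Pool.Agent.H470R2
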