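import Pool.Agent.H470R2.Digits

set_option autoImplicit false
set_option linter.unusedSectionVars false

namespace Pool.Agent.H470R2

open Finset
open scoped Classical

variable {p : ℕ} [hp : Fact p.Prime]

/-- extension by zero -/
def ext0 {m : ℕ} (w : Fin m → ZMod p) (i : ℕ) : ZMod p := if h : i < m then w ⟨i, h⟩ else 0

lemma ext0_res {m : ℕ} (z : ℕ → ZMod p) (hz : ∀ i, m ≤ i → z i = 0) :
    ext0 (fun i : Fin m => z i) = z := by
  funext i
  unfold ext0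
  split_ifs with h
  · rfl
  · exact (hz i (by omega)).symm

/-- First coordinate. -/
noncomputable def Xr (p m n : ℕ) : ℝ := rho m (dg p n) 0

/-- Second coordinate. -/
noncomputable def Yr (g : ℕ → ℕ → (ZMod p)ˣ) (m n : ℕ) : ℝ :=
  rho m (fun b => Yf g m b (fun i => dg p n i)) 0

lemma ltX_dg_iff {m : ℕ} (n : ℕ) (x : ℕ → ZMod p) :
    ltX m x (fun i : Fin m => dg p n i) ↔ Xr p m n < rho m x 0 := by
  unfold Xr
  rw [rho_lt_iff]
  constructor
  · rintro ⟨a, h1, h2⟩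
    exact ⟨a, a.2, fun i hi => h1 ⟨i, hi.trans a.2⟩ hi, h2⟩
  · rintro ⟨a, ha, h1, h2⟩
    exact ⟨⟨a, ha⟩, fun i hi => h1 i hi, h2⟩

lemma ltY_dg_iff (g : ℕ → ℕ → (ZMod p)ˣ) {m : ℕ} (n : ℕ) (y : ℕ → ZMod p) :
    ltZ m (fun b w => Yf g m b w) y (fun i : Fin m => dg p n i) ↔ Yr g m n < rho m y 0 := by
  unfold Yr
  rw [rho_lt_iff]
  rfl

/-- counting function with real corners -/
noncomputable def cnt (X Y : ℕ → ℝ) (N : ℕ) (x y : ℝ) : ℝ :=
  (((range N).filter (fun n => X n < x ∧ Y n < y)).card : ℝ)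

/-- The total sum occurring in the grid count -/
noncomputable def Dtot (g : ℕ → ℕ → (ZMod p)ˣ) (m : ℕ) (N x yv : ℕ → ZMod p) : ℝ :=
  ∑ b ∈ range m, ∑ j ∈ range m, if b ≤ j then Dexp g m N x (etaOf g m N yv)
        (fun s => phi m yv b (yv b + s)) b j else 0

/-- Grid corners, `N < p^m`. -/
lemma grid_nat (g : ℕ → ℕ → (ZMod p)ˣ) (m : ℕ) (B : ℝ)
    (hB : ∀ N k l : ℕ, N < p ^ m → k < p ^ m → l < p ^ m →
      |Dtot g m (dg p N) (xd p m k) (xd p m l)| ≤ B) {N k l : ℕ} (hN : N < p ^ m)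
    (hk : k < p ^ m) (hl : l < p ^ m) :
    |cnt (Xr p m) (Yr g m) N (k / (p:ℝ) ^ m) (l / (p:ℝ) ^ m) -
      N * (k / (p:ℝ) ^ m) * (l / (p:ℝ) ^ m)| ≤ B + m + p * m := by
  have h := grid_count g m (dg p N) (xd p m k) (xd p m l)
  have h1 := hB N k l hN hk hl
  unfold Dtot at h1
  rw [rho_xd hk, rho_xd hl] at h
  have e1 : (univ.filter (fun w : Fin m → ZMod p => ltT m (dg p N) w ∧ (ltX m (xd p m k) w ∧
        ltZ m (fun b w => Yf g m b w) (xd p m l) w))).card =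
      ((range N).filter (fun n => Xr p m n < k / (p:ℝ) ^ m ∧ Yr g m n < l / (p:ℝ) ^ m)).card := by
    rw [card_filter_dg]
    apply congrArg
    ext n
    simp only [mem_filter, mem_range]
    rw [ltX_dg_iff, ltY_dg_iff, rho_xd hk, rho_xd hl]
    constructor
    · rintro ⟨hn, h2, h3⟩
      exact ⟨(ltT_dg hn hN).1 h2, h3⟩
    · rintro ⟨hn, h3⟩
      exact ⟨hn.trans hN, (ltT_dg (hn.trans hN) hN).2 hn, h3⟩
  have e2 : (univ.filter (fun w : Fin m → ZMod p => ltT m (dg p N) w ∧ True)).card = N := by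
    rw [card_filter_dg]
    have : (range (p ^ m)).filter (fun n => ltT m (dg p N) (fun i : Fin m => dg p n i) ∧ True) =
        range N := by
      ext n
      simp only [mem_filter, mem_range, and_true]
      constructor
      · rintro ⟨hn, h2⟩
        exact (ltT_dg hn hN).1 h2
      · intro hn
        exact ⟨hn.trans hN, (ltT_dg (hn.trans hN) hN).2 hn⟩
    rw [this, card_range]
  rw [e1, e2] at h
  unfold cnt
  have e3 : (N:ℝ) * (k / (p:ℝ) ^ m) * (l / (p:ℝ) ^ m) =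
      (k / (p:ℝ) ^ m) * (l / (p:ℝ) ^ m) * N := by ring
  rw [e3]
  linarith

lemma pm_pos (m : ℕ) : (0:ℝ) < (p:ℝ) ^ m := by
  have : (0:ℝ) < p := by exact_mod_cast hp.out.pos
  positivity

/-- `Xr` takes values in the grid. -/
lemma Xr_grid (m n : ℕ) : ∃ k : ℕ, k < p ^ m ∧ Xr p m n = k / (p:ℝ) ^ m := by
  refine ⟨_, Tn_lt (fun i => dg p n (m - 1 - i)) m, ?_⟩
  unfold Xr
  rw [rho_eq_Tn]

lemma Yr_grid (g : ℕ → ℕ → (ZMod p)ˣ) (m n : ℕ) : ∃ k : ℕ, k < p ^ m ∧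
    Yr g m n = k / (p:ℝ) ^ m := by
  refine ⟨_, Tn_lt (fun i => Yf g m (m - 1 - i) (fun i => dg p n i)) m, ?_⟩
  unfold Yr
  rw [rho_eq_Tn]

lemma Xr_inj (m : ℕ) {n n' : ℕ} (hn : n < p ^ m) (hn' : n' < p ^ m) (h : Xr p m n = Xr p m n') :
    n = n' := by
  have h1 := rho_inj _ _ h
  have : (⟨n, hn⟩ : Fin (p ^ m)) = ⟨n', hn'⟩ := by
    apply (dg_bij (p := p) m).1
    funext i
    exact h1 i i.2
  exact congrArg Fin.val this

lemma Yr_inj (g : ℕ → ℕ → (ZMod p)ˣ) (m : ℕ) {n n' : ℕ} (hn : n < p ^ m) (hn' : n' < p ^ m)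
    (h : Yr g m n = Yr g m n') : n = n' := by
  have h1 := rho_inj _ _ h
  have : (⟨n, hn⟩ : Fin (p ^ m)) = ⟨n', hn'⟩ := by
    apply (dg_bij (p := p) m).1
    apply eq_of_window g m m 0 (by omega)
    · intro i hi; omega
    · intro i hi; have := i.2; omega
    · intro b hb
      exact h1 b hb
  exact congrArg Fin.val this

/-- Rounding a coordinate to the grid. -/
lemma round_coord (m : ℕ) (X : ℕ → ℝ) (hX : ∀ n, ∃ k : ℕ, k < p ^ m ∧ X n = k / (p:ℝ) ^ m)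
    (hinj : ∀ n n', n < p ^ m → n' < p ^ m → X n = X n' → n = n')
    (x : ℝ) (hx0 : 0 ≤ x) (hx1 : x ≤ 1) :
    ∃ k : ℕ, k < p ^ m ∧ |x - k / (p:ℝ) ^ m| ≤ 1 / (p:ℝ) ^ m ∧
      ∀ (N : ℕ) (Q : ℕ → Prop), N ≤ p ^ m →
        |(((range N).filter (fun n => X n < x ∧ Q n)).card : ℝ) -
          ((range N).filter (fun n => X n < k / (p:ℝ) ^ m ∧ Q n)).card| ≤ 1 := by
  have hP := pm_pos (p := p) m
  have hP' : 0 < p ^ m := Nat.pow_pos hp.out.pos
  set k : ℕ := min ⌊x * (p:ℝ) ^ m⌋₊ (p ^ m - 1) with hk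
  have hxp : 0 ≤ x * (p:ℝ) ^ m := by positivity
  have hfl : (⌊x * (p:ℝ) ^ m⌋₊ : ℝ) ≤ x * (p:ℝ) ^ m := Nat.floor_le hxp
  have hfl2 : x * (p:ℝ) ^ m < ⌊x * (p:ℝ) ^ m⌋₊ + 1 := Nat.lt_floor_add_one _
  have hk1 : (k:ℝ) ≤ x * (p:ℝ) ^ m := by
    refine le_trans ?_ hfl
    exact Nat.cast_le.2 (min_le_left _ _)
  have hk2 : x * (p:ℝ) ^ m ≤ k + 1 := by
    rcases le_total ⌊x * (p:ℝ) ^ m⌋₊ (p ^ m - 1) with h | h
    · rw [hk, min_eq_left h]; exact hfl2.le
    · rw [hk, min_eq_right h]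
      have h2 : ((p ^ m - 1 : ℕ) : ℝ) + 1 = (p:ℝ) ^ m := by
        have : (p ^ m - 1 : ℕ) + 1 = p ^ m := by omega
        exact_mod_cast this
      rw [h2]
      nlinarith
  have hkm : k < p ^ m := by
    have : k ≤ p ^ m - 1 := min_le_right _ _
    omega
  refine ⟨k, hkm, ?_, ?_⟩
  · have e : x - k / (p:ℝ) ^ m = (x * (p:ℝ) ^ m - k) / (p:ℝ) ^ m := by field_simp
    rw [e, abs_div, abs_of_pos hP]
    apply div_le_div_of_nonneg_right _ hP.le
    rw [abs_le]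
    constructor <;> linarith
  · intro N Q hN
    have hsub : (range N).filter (fun n => X n < k / (p:ℝ) ^ m ∧ Q n) ⊆
        (range N).filter (fun n => X n < x ∧ Q n) := by
      intro n hn
      simp only [mem_filter, mem_range] at hn ⊢
      refine ⟨hn.1, lt_of_lt_of_le hn.2.1 ?_, hn.2.2⟩
      rw [div_le_iff₀ hP]; exact hk1
    have hdiff : ((range N).filter (fun n => X n < x ∧ Q n) \
        (range N).filter (fun n => X n < k / (p:ℝ) ^ m ∧ Q n)).card ≤ 1 := by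
      rw [Finset.card_le_one]
      have hval : ∀ n ∈ (range N).filter (fun n => X n < x ∧ Q n) \
        (range N).filter (fun n => X n < k / (p:ℝ) ^ m ∧ Q n), X n = k / (p:ℝ) ^ m := by
        intro n hn
        simp only [mem_sdiff, mem_filter, mem_range] at hn
        obtain ⟨⟨h1, h2, h3⟩, h4⟩ := hn
        have h5 : k / (p:ℝ) ^ m ≤ X n := by
          by_contra hcon
          push Not at hcon
          exact h4 ⟨h1, hcon, h3⟩
        obtain ⟨c, hc, hXc⟩ := hX n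
        rw [hXc] at h5 h2 ⊢
        have h6 : (k:ℝ) ≤ c := by
          rw [div_le_div_iff_of_pos_right hP] at h5; exact h5
        have h7 : (c:ℝ) < x * (p:ℝ) ^ m := by
          rw [div_lt_iff₀ hP] at h2; exact h2
        have h8 : c ≤ k := by
          rw [hk]
          apply le_min
          · exact Nat.le_floor h7.le
          · omega
        have h9 : k ≤ c := by exact_mod_cast h6
        have : k = c := le_antisymm h9 h8
        rw [this]
      intro n hn n' hn'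
      have e1 := hval n hn
      have e2 := hval n' hn'
      simp only [mem_sdiff, mem_filter, mem_range] at hn hn'
      exact hinj n n' (by omega) (by omega) (e1.trans e2.symm)
    have h1 := Finset.card_sdiff_add_card_eq_card hsub
    have h2 : (((range N).filter (fun n => X n < x ∧ Q n)).card : ℝ) =
        ((range N).filter (fun n => X n < x ∧ Q n) \
        (range N).filter (fun n => X n < k / (p:ℝ) ^ m ∧ Q n)).card +
        ((range N).filter (fun n => X n < k / (p:ℝ) ^ m ∧ Q n)).card := by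
      exact_mod_cast h1.symm
    rw [h2]
    have h3 : (((range N).filter (fun n => X n < x ∧ Q n) \
        (range N).filter (fun n => X n < k / (p:ℝ) ^ m ∧ Q n)).card : ℝ) ≤ 1 := by
      exact_mod_cast hdiff
    rw [abs_le]
    constructor
    · have : (0:ℝ) ≤ (((range N).filter (fun n => X n < x ∧ Q n) \
        (range N).filter (fun n => X n < k / (p:ℝ) ^ m ∧ Q n)).card : ℝ) := Nat.cast_nonneg _
      linarith
    · linarith

/-- Real corners, `N ≤ p^m`. -/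
lemma grid_real (g : ℕ → ℕ → (ZMod p)ˣ) (m : ℕ) (B : ℝ)
    (hB : ∀ N k l : ℕ, N < p ^ m → k < p ^ m → l < p ^ m →
      |Dtot g m (dg p N) (xd p m k) (xd p m l)| ≤ B) {N : ℕ} (hN : N ≤ p ^ m)
    {x y : ℝ} (hx0 : 0 ≤ x) (hx1 : x ≤ 1) (hy0 : 0 ≤ y) (hy1 : y ≤ 1) :
    |cnt (Xr p m) (Yr g m) N x y - N * x * y| ≤ B + m + p * m + 5 := by
  have hP := pm_pos (p := p) m
  -- first for `N < p^m`
  have main : ∀ N : ℕ, N < p ^ m →
      |cnt (Xr p m) (Yr g m) N x y - N * x * y| ≤ B + m + p * m + 4 := by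
    intro N hN
    obtain ⟨k, hk, hk1, hk2⟩ := round_coord m (Xr p m) (Xr_grid m)
      (fun n n' hn hn' h => Xr_inj m hn hn' h) x hx0 hx1
    obtain ⟨l, hl, hl1, hl2⟩ := round_coord m (Yr g m) (Yr_grid g m)
      (fun n n' hn hn' h => Yr_inj g m hn hn' h) y hy0 hy1
    have h1 := grid_nat g m B hB hN hk hl
    have h2 := hk2 N (fun n => Yr g m n < y) hN.le
    have h3 := hl2 N (fun n => Xr p m n < k / (p:ℝ) ^ m) hN.le
    have e3 : ∀ z : ℝ, (range N).filter (fun n => Yr g m n < z ∧ Xr p m n < k / (p:ℝ) ^ m) =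
        (range N).filter (fun n => Xr p m n < k / (p:ℝ) ^ m ∧ Yr g m n < z) := by
      intro z
      apply Finset.filter_congr
      intro n _
      exact and_comm
    rw [e3, e3] at h3
    unfold cnt at h1 ⊢
    have hNP : (N:ℝ) ≤ (p:ℝ) ^ m := by exact_mod_cast hN.le
    have hk0 : (0:ℝ) ≤ k / (p:ℝ) ^ m := by positivity
    have hk3 : (k:ℝ) / (p:ℝ) ^ m ≤ 1 := by
      rw [div_le_one hP]; exact_mod_cast hk.le
    have h4 : |(N:ℝ) * (k / (p:ℝ) ^ m) * (l / (p:ℝ) ^ m) - N * x * y| ≤ 2 := by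
      have e : (N:ℝ) * (k / (p:ℝ) ^ m) * (l / (p:ℝ) ^ m) - N * x * y =
          -(N * (k / (p:ℝ) ^ m) * (y - l / (p:ℝ) ^ m)) + -(N * y * (x - k / (p:ℝ) ^ m)) := by ring
      rw [e]
      refine (abs_add_le _ _).trans ?_
      rw [abs_neg, abs_neg, abs_mul, abs_mul, abs_mul, abs_mul, abs_of_nonneg hk0,
        abs_of_nonneg hy0, abs_of_nonneg (Nat.cast_nonneg N)]
      have a1 : (N:ℝ) * (k / (p:ℝ) ^ m) * |y - l / (p:ℝ) ^ m| ≤ 1 := by
        calc _ ≤ (N:ℝ) * 1 * (1 / (p:ℝ) ^ m) := by gcongr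
          _ ≤ (p:ℝ) ^ m * 1 * (1 / (p:ℝ) ^ m) := by gcongr
          _ = 1 := by field_simp
      have a2 : (N:ℝ) * y * |x - k / (p:ℝ) ^ m| ≤ 1 := by
        calc _ ≤ (N:ℝ) * 1 * (1 / (p:ℝ) ^ m) := by gcongr
          _ ≤ (p:ℝ) ^ m * 1 * (1 / (p:ℝ) ^ m) := by gcongr
          _ = 1 := by field_simp
      linarith
    rw [abs_le] at h1 h2 h3 h4 ⊢
    constructor <;> linarith [h1.1, h1.2, h2.1, h2.2, h3.1, h3.2, h4.1, h4.2]
  rcases Nat.lt_or_ge N (p ^ m) with h | h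
  · have := main N h
    linarith
  · have hNe : N = p ^ m := le_antisymm hN h
    have hpos : 0 < p ^ m := Nat.pow_pos hp.out.pos
    obtain ⟨M, hM⟩ : ∃ M, N = M + 1 := ⟨N - 1, by omega⟩
    have h1 := main M (by omega)
    rw [hM]
    unfold cnt at h1 ⊢
    rw [Finset.range_add_one, Finset.filter_insert]
    have hxy : x * y ≤ 1 := by nlinarith
    have hxy0 : 0 ≤ x * y := by positivity
    rw [abs_le] at h1 ⊢
    push_cast
    split_ifs with h2
    · rw [Finset.card_insert_of_notMem (by simp)]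
      push_cast
      constructor <;> nlinarith [h1.1, h1.2]
    · constructor <;> nlinarith [h1.1, h1.2]

/-- exponential bookkeeping for the union bound -/
lemma card_bound {m : ℕ} (hm : 128 * p ^ 5 ≤ m) :
    4 * (Fintype.card ((Fin m → ZMod p) × (Fin m → ZMod p) × (Fin m → ZMod p) × (Fin m → ZMod p)) : ℝ)
      * Real.exp ((1 / (8 * (p:ℝ) ^ 4)) ^ 2 * (2 * (p : ℝ) ^ 2) ^ 2 * (m : ℝ) ^ 2) ≤
      Real.exp (1 / (8 * (p:ℝ) ^ 4) * (m : ℝ) ^ 2) := by
  have hp2 : (2:ℝ) ≤ p := by exact_mod_cast hp.out.two_le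
  have hp0 : (0:ℝ) < p := by linarith
  have hm' : 128 * (p:ℝ) ^ 5 ≤ m := by exact_mod_cast hm
  have h1 : Real.exp ((1 / (8 * (p:ℝ) ^ 4)) ^ 2 * (2 * (p : ℝ) ^ 2) ^ 2 * (m : ℝ) ^ 2) =
      Real.exp ((m:ℝ) ^ 2 / (16 * (p:ℝ) ^ 4)) := by
    congr 1
    field_simp
    ring
  have h2 : Real.exp (1 / (8 * (p:ℝ) ^ 4) * (m : ℝ) ^ 2) =
      Real.exp ((m:ℝ) ^ 2 / (16 * (p:ℝ) ^ 4)) * Real.exp ((m:ℝ) ^ 2 / (16 * (p:ℝ) ^ 4)) := by
    rw [← Real.exp_add]
    congr 1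
    field_simp
    ring
  rw [h1, h2]
  apply mul_le_mul_of_nonneg_right _ (Real.exp_pos _).le
  have h3 : (Fintype.card ((Fin m → ZMod p) × (Fin m → ZMod p) × (Fin m → ZMod p) ×
      (Fin m → ZMod p)) : ℝ) = ((p:ℝ) ^ m) ^ 4 := by
    simp only [Fintype.card_prod, Fintype.card_fun, ZMod.card, Fintype.card_fin]
    push_cast
    ring
  rw [h3]
  have hp5 : (1:ℝ) ≤ (p:ℝ) ^ 5 := one_le_pow₀ (by linarith)
  have hm1 : (1:ℝ) ≤ m := by linarith
  have h4 : (4:ℝ) ≤ Real.exp (4 * m) := by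
    have := Real.add_one_le_exp (4 * (m:ℝ))
    linarith
  have h5 : ((p:ℝ) ^ m) ^ 4 ≤ Real.exp (4 * m * p) := by
    have h6 : (p:ℝ) ≤ Real.exp p := by
      have := Real.add_one_le_exp (p:ℝ)
      linarith
    calc ((p:ℝ) ^ m) ^ 4 ≤ ((Real.exp p) ^ m) ^ 4 := by gcongr
      _ = Real.exp (4 * m * p) := by
        rw [← Real.exp_nat_mul, ← Real.exp_nat_mul]
        congr 1
        push_cast; ring
  calc 4 * ((p:ℝ) ^ m) ^ 4 ≤ Real.exp (4 * m) * Real.exp (4 * m * p) := by gcongr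
    _ = Real.exp (4 * m + 4 * m * p) := by rw [← Real.exp_add]
    _ ≤ _ := by
      apply Real.exp_le_exp.2
      rw [le_div_iff₀ (by positivity)]
      have h7 : 128 * (p:ℝ) ^ 5 * m ≤ (m:ℝ) ^ 2 := by nlinarith
      have h8 : (4 * (m:ℝ) + 4 * m * p) * (16 * (p:ℝ) ^ 4) ≤ 128 * (p:ℝ) ^ 5 * m := by
        have h9 : (4 * (m:ℝ) + 4 * m * p) ≤ 8 * m * p := by nlinarith
        calc (4 * (m:ℝ) + 4 * m * p) * (16 * (p:ℝ) ^ 4) ≤ (8 * m * p) * (16 * (p:ℝ) ^ 4) := by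
              gcongr
          _ = 128 * (p:ℝ) ^ 5 * m := by ring
      linarith

lemma etaOf_ge (g : ℕ → ℕ → (ZMod p)ˣ) (m : ℕ) (N yv : ℕ → ZMod p) (hyv : ∀ i, m ≤ i → yv i = 0)
    {b : ℕ} (hb : m ≤ b) : etaOf g m N yv b = 0 := by
  unfold etaOf Yf
  rw [hyv b hb, zero_sub, neg_eq_zero]
  apply Finset.sum_eq_zero
  intro i _
  rw [uu_of_lt g (lt_of_lt_of_le i.2 hb), zero_mul]

/-- **Finite theorem.** For a prime `p` and `m ≥ 128 p^5` there is a sequence of points of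
`[0,1)^2` all of whose initial segments of length `N ≤ p^m` have `N D_N^* ≤ 11 m^2`. -/
theorem finite_disc (p : ℕ) [hp : Fact p.Prime] (m : ℕ) (hm : 128 * p ^ 5 ≤ m) :
    ∃ X Y : ℕ → ℝ, (∀ n, 0 ≤ X n ∧ X n < 1 ∧ 0 ≤ Y n ∧ Y n < 1) ∧
      ∀ N ≤ p ^ m, ∀ x y : ℝ, 0 ≤ x → x ≤ 1 → 0 ≤ y → y ≤ 1 →
        |(((range N).filter (fun n => X n < x ∧ Y n < y)).card : ℝ) - N * x * y| ≤
          11 * (m : ℝ) ^ 2 := by
  have hp2 : (2:ℝ) ≤ p := by exact_mod_cast hp.out.two_le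
  have hp0 : (0:ℝ) < p := by linarith
  have hm' : 128 * (p:ℝ) ^ 5 ≤ m := by exact_mod_cast hm
  have hp5 : (1:ℝ) ≤ (p:ℝ) ^ 4 := one_le_pow₀ (by linarith)
  have hpm : (p:ℝ) ≤ m := by nlinarith
  have hm1 : (1:ℝ) ≤ m := by linarith
  obtain ⟨g, hg⟩ := avg_main
    (D := (Fin m → ZMod p) × (Fin m → ZMod p) × (Fin m → ZMod p) × (Fin m → ZMod p)) m
    (fun d => ext0 d.1) (fun d => ext0 d.2.1) (fun d => ext0 d.2.2.1)
    (fun d b s => if b < m then phi m (ext0 d.2.2.2) b (ext0 d.2.2.2 b + s) else 0)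
    (by
      intro d b
      by_cases hb : b < m
      · simp only [if_pos hb]
        rw [← sum_phi m (ext0 d.2.2.2) hb]
        exact Fintype.sum_equiv (Equiv.addLeft (ext0 d.2.2.2 b)) _ _ (fun _ => rfl)
      · simp only [if_neg hb, Finset.sum_const_zero])
    (by
      intro d b s
      by_cases hb : b < m
      · simp only [if_pos hb]
        exact phi_abs _ _ _ _
      · simp only [if_neg hb, abs_zero]
        exact zero_le_one)
    (1 / (8 * (p:ℝ) ^ 4)) ((m:ℝ) ^ 2) (by positivity)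
    (by
      rw [div_mul_eq_mul_div, one_mul, div_le_one (by positivity)]
      have : (p:ℝ) ^ 2 ≤ (p:ℝ) ^ 4 := pow_le_pow_right₀ (by linarith) (by norm_num)
      nlinarith [pow_pos hp0 2])
    (card_bound hm)
  refine ⟨Xr p m, Yr g m, ?_, ?_⟩
  · intro n
    exact ⟨rho_nonneg _ _ _, rho_lt_one _ _ _, rho_nonneg _ _ _, rho_lt_one _ _ _⟩
  · intro N hN x y hx0 hx1 hy0 hy1
    have h := grid_real g m (2 * (m:ℝ) ^ 2 + 2 * (m:ℝ) ^ 2) ?_ hN hx0 hx1 hy0 hy1
    · refine h.trans ?_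
      nlinarith
    · intro N k l hN hk hl
      have h1 := hg (fun i => dg p N i, fun i => xd p m k i,
        fun i => etaOf g m (dg p N) (xd p m l) i, fun i => xd p m l i)
      have hxl : ∀ i, m ≤ i → xd p m l i = 0 := by
        intro i hi; unfold xd; rw [if_neg (by omega)]
      have hxk : ∀ i, m ≤ i → xd p m k i = 0 := by
        intro i hi; unfold xd; rw [if_neg (by omega)]
      simp only at h1
      rw [ext0_res (dg p N) (fun i hi => dg_eq_zero hN hi), ext0_res (xd p m k) hxk,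
        ext0_res (xd p m l) hxl, ext0_res (etaOf g m (dg p N) (xd p m l))
          (fun i hi => etaOf_ge g m _ _ hxl hi)] at h1
      refine le_trans (le_of_eq ?_) h1
      unfold Dtot
      congr 1
      apply Finset.sum_congr rfl
      intro b hb
      have hb' : b < m := by simpa using hb
      simp only [if_pos hb']

end Pool.Agent.H470R2
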