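import Pool.Agent.H470R2.Count

set_option autoImplicit false
set_option linter.unusedSectionVars false

namespace Pool.Agent.H470R2

open Finset
open scoped Classical

variable {p : ℕ} [hp : Fact p.Prime]

def ltT (m : ℕ) (N : ℕ → ZMod p) (w : Fin m → ZMod p) : Prop := ∃ j < m, topT m j N w

lemma topT_unique {m j j' : ℕ} {N : ℕ → ZMod p} {w : Fin m → ZMod p} (hj : j < m) (hj' : j' < m)
    (h : topT m j N w) (h' : topT m j' N w) : j = j' := by
  rcases Nat.lt_trichotomy j j' with h1 | h1 | h1
  · have e1 := (h ⟨j', hj'⟩).1 h1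
    have e2 := (h' ⟨j', hj'⟩).2 rfl
    rw [e1] at e2; exact absurd e2 (lt_irrefl _)
  · exact h1
  · have e1 := (h' ⟨j, hj⟩).1 h1
    have e2 := (h ⟨j, hj⟩).2 rfl
    rw [e1] at e2; exact absurd e2 (lt_irrefl _)

lemma card_ltT_filter (m : ℕ) (N : ℕ → ZMod p) (P : (Fin m → ZMod p) → Prop)
    [DecidablePred (fun w : Fin m → ZMod p => ltT m N w ∧ P w)]
    [∀ j, DecidablePred (fun w : Fin m → ZMod p => topT m j N w ∧ P w)] :
    ((univ.filter (fun w : Fin m → ZMod p => ltT m N w ∧ P w)).card : ℝ) =
      ∑ j ∈ range m, ((univ.filter (fun w : Fin m → ZMod p => topT m j N w ∧ P w)).card : ℝ) := by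
  have h1 : univ.filter (fun w : Fin m → ZMod p => ltT m N w ∧ P w) =
      (range m).biUnion (fun j => univ.filter (fun w : Fin m → ZMod p => topT m j N w ∧ P w)) := by
    ext w
    simp only [mem_filter, mem_univ, true_and, mem_biUnion, mem_range]
    constructor
    · rintro ⟨⟨j, hj, h⟩, h'⟩
      exact ⟨j, hj, h, h'⟩
    · rintro ⟨j, hj, h, h'⟩
      refine ⟨?_, h'⟩
      exact Exists.intro j ⟨hj, h⟩
  rw [h1, Finset.card_biUnion]
  · push_cast; rfl
  · intro j hj j' hj' hne
    rw [Function.onFun, Finset.disjoint_left]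
    intro w hw hw'
    simp only [mem_filter, mem_univ, true_and] at hw hw'
    exact hne (topT_unique (by simpa using hj) (by simpa using hj') hw.1 hw'.1)

/-- digit functions of `w` itself -/
def Zx (m : ℕ) (i : ℕ) (w : Fin m → ZMod p) : ZMod p := if h : i < m then w ⟨i, h⟩ else 0

lemma Zx_fin (m : ℕ) (i : Fin m) (w : Fin m → ZMod p) : Zx m i w = w i := by
  unfold Zx
  rw [dif_pos i.2]

lemma ltX_iff (m : ℕ) (x : ℕ → ZMod p) (w : Fin m → ZMod p) :
    ltX m x w ↔ ltZ m (Zx m) x w := by
  constructor
  · rintro ⟨a, h1, h2⟩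
    refine ⟨a, a.2, ?_, ?_⟩
    · intro i hi
      have e : Zx m i w = w ⟨i, hi.trans a.2⟩ := Zx_fin m ⟨i, hi.trans a.2⟩ w
      rw [e]
      exact h1 ⟨i, hi.trans a.2⟩ hi
    · rw [Zx_fin]; exact h2
  · rintro ⟨a, ha, h1, h2⟩
    refine ⟨⟨a, ha⟩, ?_, ?_⟩
    · intro i hi
      rw [← Zx_fin m i w]
      exact h1 i hi
    · rw [← Zx_fin m ⟨a, ha⟩ w]
      exact h2

/-- Level sets of the top digit. -/
lemma count_X (m : ℕ) (N x : ℕ → ZMod p) {j : ℕ} (hj : j < m) :
    |((univ.filter (fun w : Fin m → ZMod p => topT m j N w ∧ ltX m x w)).card : ℝ) -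
      rho m x 0 * (univ.filter (fun w : Fin m → ZMod p => topT m j N w)).card| ≤ p := by
  have h1 := telescope_sum m (Zx m) x (univ.filter (fun w : Fin m → ZMod p => topT m j N w)) j
    hj.le
  rw [Finset.filter_filter] at h1
  simp only [← ltX_iff] at h1
  rw [h1]
  have h2 : ∑ b ∈ range j, ∑ w ∈ (univ.filter (fun w : Fin m → ZMod p => topT m j N w)).filter
      (pre (Zx m) x b), phi m x b (Zx m b w) = 0 := by
    apply Finset.sum_eq_zero
    intro b hb
    have hb' : b < j := by simpa using hb
    apply sum_translate_zero _ (fun i => if (i:ℕ) = b then 1 else 0) (Zx m b) 1 _ _ _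
      (sum_phi m x (by omega))
    · intro w hw t
      simp only [mem_filter, mem_univ, true_and] at hw ⊢
      obtain ⟨h3, h4⟩ := hw
      constructor
      · intro i
        constructor
        · intro hi
          simp only
          rw [if_neg (by omega), mul_zero, add_zero]; exact (h3 i).1 hi
        · intro hi
          simp only
          rw [if_neg (by omega), mul_zero, add_zero]; exact (h3 i).2 hi
      · intro i hi
        have h5 := h4 i hi
        unfold Zx at h5 ⊢
        rw [dif_pos (by omega)] at h5 ⊢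
        show w ⟨i, _⟩ + t * (if i = b then 1 else 0) = x i
        rw [if_neg (by omega), mul_zero, add_zero]; exact h5
    · intro w _ t
      unfold Zx
      rw [dif_pos (by omega), dif_pos (by omega)]
      simp
  rw [h2]
  set S := (univ.filter (fun w : Fin m → ZMod p => topT m j N w)).filter (pre (Zx m) x j) with hS
  have h3 : (S.card : ℝ) ≤ p := by
    have : S.card ≤ (univ : Finset (ZMod p)).card := by
      apply Finset.card_le_card_of_injOn (fun w => w ⟨j, hj⟩) (fun _ _ => mem_coe.2 (mem_univ _))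
      intro w hw w' hw' hww'
      simp only [hS, coe_filter, mem_filter, mem_univ, true_and, Set.mem_ofPred_eq] at hw hw'
      funext i
      rcases Nat.lt_trichotomy (i:ℕ) j with h | h | h
      · have e1 := hw.2 i h
        have e2 := hw'.2 i h
        rw [Zx_fin] at e1 e2
        rw [e1, e2]
      · have : i = ⟨j, hj⟩ := Fin.ext h
        rw [this]; exact hww'
      · rw [(hw.1 i).1 h, (hw'.1 i).1 h]
    rw [Finset.card_univ, ZMod.card] at this
    exact_mod_cast this
  have h4 : |∑ w ∈ S, ((if ltX m x w then (1:ℝ) else 0) - rho m x j)| ≤ S.card := by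
    refine (Finset.abs_sum_le_sum_abs _ _).trans ?_
    have : ∀ w ∈ S, |(if ltX m x w then (1:ℝ) else 0) - rho m x j| ≤ 1 := by
      intro w _
      have e1 := rho_nonneg m x j
      have e2 := rho_le_one m x j
      rw [abs_le]
      split_ifs <;> constructor <;> linarith
    refine (Finset.sum_le_sum this).trans ?_
    simp
  have h5 : rho m x 0 * ((univ.filter (fun w : Fin m → ZMod p => topT m j N w)).card : ℝ) + 0 +
      ∑ w ∈ S, ((if ltX m x w then (1:ℝ) else 0) - rho m x j) -
      rho m x 0 * (univ.filter (fun w : Fin m → ZMod p => topT m j N w)).card =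
      ∑ w ∈ S, ((if ltX m x w then (1:ℝ) else 0) - rho m x j) := by ring
  rw [h5]
  exact h4.trans h3

/-- relative targets -/
noncomputable def etaOf (g : ℕ → ℕ → (ZMod p)ˣ) (m : ℕ) (N yv : ℕ → ZMod p) (b : ℕ) : ZMod p :=
  yv b - Yf g m b (fun i => N i)

lemma filter_eq_SS (g : ℕ → ℕ → (ZMod p)ˣ) (m : ℕ) (N x yv : ℕ → ZMod p) (b j : ℕ) :
    (univ.filter (fun w : Fin m → ZMod p => topT m j N w ∧ ltX m x w)).filter
      (pre (fun b w => Yf g m b w) yv b) = SS g m N x (etaOf g m N yv) b j := by
  ext w
  simp only [SS, mem_filter, mem_univ, true_and, and_assoc]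
  have : pre (fun b w => Yf g m b w) yv b w ↔
      ∀ b' < b, Yf g m b' (fun i => w i - N i) = etaOf g m N yv b' := by
    unfold pre etaOf
    constructor
    · intro h b' hb'
      have h5 : Yf g m b' w = yv b' := h b' hb'
      rw [Yf_sub g m b' w (fun i => N i), h5]
    · intro h b' hb'
      have := h b' hb'
      rw [Yf_sub g m b' w (fun i => N i)] at this
      show Yf g m b' w = yv b'
      linear_combination this
  rw [this]

lemma count_Y (g : ℕ → ℕ → (ZMod p)ˣ) (m : ℕ) (N x yv : ℕ → ZMod p) {j : ℕ} (hj : j < m) :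
    |((univ.filter (fun w : Fin m → ZMod p => topT m j N w ∧ ltX m x w ∧
        ltZ m (fun b w => Yf g m b w) yv w)).card : ℝ) -
      rho m yv 0 * (univ.filter (fun w : Fin m → ZMod p => topT m j N w ∧ ltX m x w)).card -
      ∑ b ∈ range (j+1), Dexp g m N x (etaOf g m N yv)
        (fun s => phi m yv b (yv b + s)) b j| ≤ 1 := by
  have h1 := telescope_sum m (fun b w => Yf g m b w) yv
    (univ.filter (fun w : Fin m → ZMod p => topT m j N w ∧ ltX m x w)) (j+1) hj
  have h0 : (univ.filter (fun w : Fin m → ZMod p => topT m j N w ∧ ltX m x w)).filter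
      (ltZ m (fun b w => Yf g m b w) yv) = univ.filter (fun w : Fin m → ZMod p => topT m j N w ∧
        ltX m x w ∧ ltZ m (fun b w => Yf g m b w) yv w) := by
    rw [Finset.filter_filter]
    simp only [and_assoc]
  rw [h0] at h1
  rw [h1]
  have h2 : ∀ b ∈ range (j+1), ∑ w ∈ (univ.filter (fun w : Fin m → ZMod p => topT m j N w ∧
      ltX m x w)).filter (pre (fun b w => Yf g m b w) yv b), phi m yv b (Yf g m b w) =
      Dexp g m N x (etaOf g m N yv) (fun s => phi m yv b (yv b + s)) b j := by
    intro b hb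
    have hb' : b ≤ j := by have := Finset.mem_range.1 hb; omega
    rw [filter_eq_SS]
    rw [← sum_SS g m N x (etaOf g m N yv) (fun s => phi m yv b (yv b + s)) ?_ hb' hj]
    · apply Finset.sum_congr rfl
      intro w _
      congr 1
      rw [Yf_sub g m b w (fun i => N i)]
      unfold etaOf
      ring
    · rw [← sum_phi m yv (show b < m by omega)]
      exact Fintype.sum_equiv (Equiv.addLeft (yv b)) _ _ (fun _ => rfl)
  rw [Finset.sum_congr rfl h2, filter_eq_SS]
  set S := SS g m N x (etaOf g m N yv) (j+1) j with hS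
  have h3 : (S.card : ℝ) ≤ 1 := by
    have : S.card ≤ 1 := by
      rw [Finset.card_le_one]
      intro w hw w' hw'
      simp only [hS, SS, mem_filter, mem_univ, true_and] at hw hw'
      apply eq_of_window g m (j+1) 0 (by omega)
      · intro i hi; omega
      · intro i hi
        rw [(hw.1 i).1 (by omega), (hw'.1 i).1 (by omega)]
      · intro b' hb'
        have e1 := hw.2.2 b' hb'
        have e2 := hw'.2.2 b' hb'
        rw [Yf_sub g m b' _ (fun i => N i)] at e1 e2
        linear_combination e1 - e2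
    exact_mod_cast this
  have h4 : |∑ w ∈ S, ((if ltZ m (fun b w => Yf g m b w) yv w then (1:ℝ) else 0) -
      rho m yv (j+1))| ≤ S.card := by
    refine (Finset.abs_sum_le_sum_abs _ _).trans ?_
    have : ∀ w ∈ S, |(if ltZ m (fun b w => Yf g m b w) yv w then (1:ℝ) else 0) -
        rho m yv (j+1)| ≤ 1 := by
      intro w _
      have e1 := rho_nonneg m yv (j+1)
      have e2 := rho_le_one m yv (j+1)
      rw [abs_le]
      split_ifs <;> constructor <;> linarith
    refine (Finset.sum_le_sum this).trans ?_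
    simp
  refine le_trans (le_of_eq ?_) (h4.trans h3)
  congr 1
  ring

/-- **Grid count.** -/
theorem grid_count (g : ℕ → ℕ → (ZMod p)ˣ) (m : ℕ) (N x yv : ℕ → ZMod p) :
    |((univ.filter (fun w : Fin m → ZMod p => ltT m N w ∧ (ltX m x w ∧
        ltZ m (fun b w => Yf g m b w) yv w))).card : ℝ) -
      rho m x 0 * rho m yv 0 * (univ.filter (fun w : Fin m → ZMod p => ltT m N w ∧ True)).card| ≤
      |∑ b ∈ range m, ∑ j ∈ range m, if b ≤ j then Dexp g m N x (etaOf g m N yv)
        (fun s => phi m yv b (yv b + s)) b j else 0| + m + p * m := by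
  rw [card_ltT_filter, card_ltT_filter]
  have e1 : ∑ b ∈ range m, ∑ j ∈ range m, (if b ≤ j then Dexp g m N x (etaOf g m N yv)
        (fun s => phi m yv b (yv b + s)) b j else 0) = ∑ j ∈ range m, ∑ b ∈ range (j+1),
        Dexp g m N x (etaOf g m N yv) (fun s => phi m yv b (yv b + s)) b j := by
    rw [Finset.sum_comm]
    apply Finset.sum_congr rfl
    intro j hj
    have hj' : j < m := by simpa using hj
    rw [← Finset.sum_filter]
    apply Finset.sum_congr _ (fun _ _ => rfl)
    ext b
    simp only [mem_filter, mem_range]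
    omega
  rw [e1]
  simp only [and_true]
  have e2 : ∀ j ∈ range m, |((univ.filter (fun w : Fin m → ZMod p => topT m j N w ∧ ltX m x w ∧
        ltZ m (fun b w => Yf g m b w) yv w)).card : ℝ) -
      rho m x 0 * rho m yv 0 * (univ.filter (fun w : Fin m → ZMod p => topT m j N w)).card -
      ∑ b ∈ range (j+1), Dexp g m N x (etaOf g m N yv)
        (fun s => phi m yv b (yv b + s)) b j| ≤ 1 + p := by
    intro j hj
    have hj' : j < m := by simpa using hj
    have h1 := count_Y g m N x yv hj'
    have h2 := count_X m N x hj'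
    have h3 : |rho m yv 0 * (((univ.filter (fun w : Fin m → ZMod p => topT m j N w ∧
        ltX m x w)).card : ℝ) -
        rho m x 0 * (univ.filter (fun w : Fin m → ZMod p => topT m j N w)).card)| ≤ p := by
      rw [abs_mul, abs_of_nonneg (rho_nonneg m yv 0)]
      calc _ ≤ 1 * (p:ℝ) := mul_le_mul (rho_le_one m yv 0) h2 (abs_nonneg _) zero_le_one
        _ = p := one_mul _
    refine le_trans (le_of_eq ?_) ((abs_add_le _ _).trans (add_le_add h1 h3))
    congr 1
    ring
  have e3 : ∑ j ∈ range m, (((univ.filter (fun w : Fin m → ZMod p => topT m j N w ∧ ltX m x w ∧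
        ltZ m (fun b w => Yf g m b w) yv w)).card : ℝ)) -
      rho m x 0 * rho m yv 0 * ∑ j ∈ range m,
        ((univ.filter (fun w : Fin m → ZMod p => topT m j N w)).card : ℝ) =
      (∑ j ∈ range m, (((univ.filter (fun w : Fin m → ZMod p => topT m j N w ∧ ltX m x w ∧
        ltZ m (fun b w => Yf g m b w) yv w)).card : ℝ) -
      rho m x 0 * rho m yv 0 * (univ.filter (fun w : Fin m → ZMod p => topT m j N w)).card -
      ∑ b ∈ range (j+1), Dexp g m N x (etaOf g m N yv)
        (fun s => phi m yv b (yv b + s)) b j)) + ∑ j ∈ range m, ∑ b ∈ range (j+1),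
        Dexp g m N x (etaOf g m N yv) (fun s => phi m yv b (yv b + s)) b j := by
    rw [Finset.sum_sub_distrib, Finset.sum_sub_distrib, Finset.mul_sum]
    ring
  rw [e3]
  refine (abs_add_le _ _).trans ?_
  have e4 := (Finset.abs_sum_le_sum_abs _ _).trans (Finset.sum_le_sum e2)
  rw [Finset.sum_const, card_range, nsmul_eq_mul] at e4
  linarith

end Pool.Agent.H470R2
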