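import Pool.Agent.H470R2.Box3

set_option autoImplicit false
set_option linter.unusedSectionVars false

namespace Pool.Agent.H470R2

open MeasureTheory

/-- number of `n < M` with property `P` -/
noncomputable def num (M : ℕ) (P : ℕ → Prop) : ℝ := ({n : ℕ | n < M ∧ P n}.ncard : ℝ)

lemma num_eq_card (M : ℕ) (P : ℕ → Prop) [DecidablePred P] :
    num M P = (((Finset.range M).filter P).card : ℝ) := by
  unfold num
  rw [← Set.ncard_coe_finset]
  congr 2
  ext n
  simp

lemma num_congr {M : ℕ} {P P' : ℕ → Prop} (h : ∀ n < M, (P n ↔ P' n)) : num M P = num M P' := by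
  unfold num
  congr 2
  ext n
  simp only [Set.mem_ofPred_eq]
  constructor
  · rintro ⟨h1, h2⟩; exact ⟨h1, (h n h1).1 h2⟩
  · rintro ⟨h1, h2⟩; exact ⟨h1, (h n h1).2 h2⟩

lemma num_nonneg (M : ℕ) (P : ℕ → Prop) : 0 ≤ num M P := Nat.cast_nonneg _

lemma num_le (M : ℕ) (P : ℕ → Prop) : num M P ≤ M := by
  unfold num
  have h1 : {n : ℕ | n < M ∧ P n} ⊆ (Finset.range M : Set ℕ) := by
    intro n hn
    simpa using hn.1
  have h2 := Set.ncard_le_ncard h1 (Finset.finite_toSet _)
  rw [Set.ncard_coe_finset, Finset.card_range] at h2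
  exact_mod_cast h2

/-- splitting: if `P ⊆ R` then `#R = #P + #(R \ P)` -/
lemma num_split {M : ℕ} {P R S : ℕ → Prop} (h1 : ∀ n < M, (R n ↔ (P n ∨ S n)))
    (h2 : ∀ n < M, ¬ (P n ∧ S n)) : num M R = num M P + num M S := by
  classical
  rw [num_eq_card, num_eq_card, num_eq_card]
  rw [← Nat.cast_add]
  congr 1
  rw [← Finset.card_union_of_disjoint]
  · congr 1
    ext n
    simp only [Finset.mem_filter, Finset.mem_range, Finset.mem_union]
    constructor
    · rintro ⟨h3, h4⟩
      rcases (h1 n h3).1 h4 with h5 | h5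
      · exact Or.inl ⟨h3, h5⟩
      · exact Or.inr ⟨h3, h5⟩
    · rintro (⟨h3, h4⟩ | ⟨h3, h4⟩)
      · exact ⟨h3, (h1 n h3).2 (Or.inl h4)⟩
      · exact ⟨h3, (h1 n h3).2 (Or.inr h4)⟩
  · rw [Finset.disjoint_left]
    intro n hn hn'
    simp only [Finset.mem_filter, Finset.mem_range] at hn hn'
    exact h2 n hn.1 ⟨hn.2, hn'.2⟩

lemma exists_gap (x : ℝ) (Z : ℕ → ℝ) : ∀ M : ℕ, ∃ η : ℝ, 0 < η ∧
    ∀ n < M, x < Z n → x + η ≤ Z n := by
  intro M
  induction M with
  | zero => exact ⟨1, one_pos, fun n hn => absurd hn (Nat.not_lt_zero n)⟩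
  | succ M ih =>
    obtain ⟨η, h1, h2⟩ := ih
    by_cases h : x < Z M
    · refine ⟨min η (Z M - x), lt_min h1 (by linarith), ?_⟩
      intro n hn hx
      rcases Nat.lt_succ_iff_lt_or_eq.1 hn with h3 | h3
      · have := h2 n h3 hx
        linarith [min_le_left η (Z M - x)]
      · rw [h3]
        linarith [min_le_right η (Z M - x)]
    · refine ⟨η, h1, ?_⟩
      intro n hn hx
      rcases Nat.lt_succ_iff_lt_or_eq.1 hn with h3 | h3
      · exact h2 n h3 hx
      · rw [h3] at hx; exact absurd hx h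

/-- from `<` to `≤` in one coordinate -/
lemma closed_of_open {M : ℕ} {Z : ℕ → ℝ} {Q : ℕ → Prop} {c B : ℝ} (hZ : ∀ n < M, Z n < 1)
    (h : ∀ x : ℝ, 0 ≤ x → x ≤ 1 → |num M (fun n => Z n < x ∧ Q n) - x * c| ≤ B)
    (x : ℝ) (hx0 : 0 ≤ x) (hx1 : x ≤ 1) : |num M (fun n => Z n ≤ x ∧ Q n) - x * c| ≤ B := by
  rcases hx1.lt_or_eq with h1 | h1
  · apply le_of_forall_pos_le_add
    intro ε hε
    obtain ⟨η, hη, hη2⟩ := exists_gap x Z M
    set t := min η (min (1 - x) (ε / (|c| + 1))) with ht
    have ht0 : 0 < t := by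
      apply lt_min hη
      apply lt_min (by linarith)
      positivity
    have ht1 : t ≤ η := min_le_left _ _
    have ht2 : t ≤ 1 - x := (min_le_right _ _).trans (min_le_left _ _)
    have ht3 : t ≤ ε / (|c| + 1) := (min_le_right _ _).trans (min_le_right _ _)
    have h2 := h (x + t) (by linarith) (by linarith)
    have h3 : num M (fun n => Z n < x + t ∧ Q n) = num M (fun n => Z n ≤ x ∧ Q n) := by
      apply num_congr
      intro n hn
      constructor
      · rintro ⟨h4, h5⟩
        refine ⟨?_, h5⟩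
        by_contra hcon
        push Not at hcon
        have := hη2 n hn hcon
        linarith
      · rintro ⟨h4, h5⟩
        exact ⟨by linarith, h5⟩
    rw [h3] at h2
    have h4 : |t * c| ≤ ε := by
      rw [abs_mul, abs_of_pos ht0]
      calc t * |c| ≤ (ε / (|c| + 1)) * (|c| + 1) := by
            apply mul_le_mul ht3 (by linarith [abs_nonneg c]) (abs_nonneg c) (by positivity)
        _ = ε := by field_simp
    have h5 : num M (fun n => Z n ≤ x ∧ Q n) - x * c =
        (num M (fun n => Z n ≤ x ∧ Q n) - (x + t) * c) + t * c := by ring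
    rw [h5]
    exact (abs_add_le _ _).trans (add_le_add h2 h4)
  · have h2 := h x hx0 hx1
    have h3 : num M (fun n => Z n < x ∧ Q n) = num M (fun n => Z n ≤ x ∧ Q n) := by
      apply num_congr
      intro n hn
      have := hZ n hn
      rw [h1]
      constructor
      · rintro ⟨h4, h5⟩; exact ⟨h4.le, h5⟩
      · rintro ⟨h4, h5⟩; exact ⟨this, h5⟩
    rw [h3] at h2; exact h2

/-- from anchored half-open intervals to arbitrary subintervals of `[0,1)` -/
lemma interval_of_star {M : ℕ} {Z : ℕ → ℝ} {Q : ℕ → Prop} {c B : ℝ} (hZ : ∀ n < M, Z n < 1)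
    (h : ∀ x : ℝ, 0 ≤ x → x ≤ 1 → |num M (fun n => Z n < x ∧ Q n) - x * c| ≤ B)
    (I : Set ℝ) (hI : I.OrdConnected) (hI1 : I ⊆ Set.Ico 0 1) :
    |num M (fun n => Z n ∈ I ∧ Q n) - (volume I).toReal * c| ≤ 2 * B := by
  have hB : 0 ≤ B := (abs_nonneg _).trans (h 0 le_rfl zero_le_one)
  have hcl := closed_of_open hZ h
  rcases I.eq_empty_or_nonempty with hemp | hne
  · rw [hemp]
    have : num M (fun n => Z n ∈ (∅ : Set ℝ) ∧ Q n) = 0 := by
      unfold num
      simp
    rw [this]
    simp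
    exact hB
  · have hbb : BddBelow I := ⟨0, fun t ht => (hI1 ht).1⟩
    have hba : BddAbove I := ⟨1, fun t ht => (hI1 ht).2.le⟩
    set a := sInf I with ha
    set b := sSup I with hb
    have ha0 : 0 ≤ a := le_csInf hne (fun t ht => (hI1 ht).1)
    have hb1 : b ≤ 1 := csSup_le hne (fun t ht => (hI1 ht).2.le)
    have hab : a ≤ b := csInf_le_csSup hne hbb hba
    have hvol : (volume I).toReal = b - a := by
      have h1 : I ⊆ Set.Icc a b := fun t ht => ⟨csInf_le hbb ht, le_csSup hba ht⟩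
      have h2 : Set.Ioo a b ⊆ I := by
        intro t ht
        obtain ⟨s, hs, hst⟩ := exists_lt_of_csInf_lt hne ht.1
        obtain ⟨s', hs', hst'⟩ := exists_lt_of_lt_csSup hne ht.2
        exact hI.out hs hs' ⟨hst.le, hst'.le⟩
      have h3 := measure_mono (μ := volume) h1
      have h4 := measure_mono (μ := volume) h2
      rw [Real.volume_Icc] at h3
      rw [Real.volume_Ioo] at h4
      rw [le_antisymm h3 h4, ENNReal.toReal_ofReal (by linarith)]
    -- upper part
    have hU : |num M (fun n => (∃ s ∈ I, Z n ≤ s) ∧ Q n) - b * c| ≤ B := by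
      by_cases hbI : b ∈ I
      · have := hcl b (by linarith) hb1
        rw [num_congr (P' := fun n => Z n ≤ b ∧ Q n)]
        · exact this
        · intro n _
          constructor
          · rintro ⟨⟨s, hs, hs'⟩, h5⟩
            exact ⟨hs'.trans (le_csSup hba hs), h5⟩
          · rintro ⟨h4, h5⟩
            exact ⟨⟨b, hbI, h4⟩, h5⟩
      · have := h b (by linarith) hb1
        rw [num_congr (P' := fun n => Z n < b ∧ Q n)]
        · exact this
        · intro n _
          constructor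
          · rintro ⟨⟨s, hs, hs'⟩, h5⟩
            refine ⟨lt_of_le_of_lt hs' (lt_of_le_of_ne (le_csSup hba hs) ?_), h5⟩
            rintro rfl
            exact hbI hs
          · rintro ⟨h4, h5⟩
            obtain ⟨s', hs', hst'⟩ := exists_lt_of_lt_csSup hne h4
            exact ⟨⟨s', hs', hst'.le⟩, h5⟩
    have hL : |num M (fun n => (∀ s ∈ I, Z n < s) ∧ Q n) - a * c| ≤ B := by
      by_cases haI : a ∈ I
      · have := h a ha0 (by linarith)
        rw [num_congr (P' := fun n => Z n < a ∧ Q n)]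
        · exact this
        · intro n _
          constructor
          · rintro ⟨h4, h5⟩
            exact ⟨h4 a haI, h5⟩
          · rintro ⟨h4, h5⟩
            exact ⟨fun s hs => lt_of_lt_of_le h4 (csInf_le hbb hs), h5⟩
      · have := hcl a ha0 (by linarith)
        rw [num_congr (P' := fun n => Z n ≤ a ∧ Q n)]
        · exact this
        · intro n _
          constructor
          · rintro ⟨h4, h5⟩
            exact ⟨le_csInf hne (fun s hs => (h4 s hs).le), h5⟩
          · rintro ⟨h4, h5⟩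
            refine ⟨fun s hs => lt_of_le_of_lt h4 (lt_of_le_of_ne (csInf_le hbb hs) ?_), h5⟩
            intro h6
            rw [← h6] at hs
            exact haI hs
    have hsplit : num M (fun n => (∃ s ∈ I, Z n ≤ s) ∧ Q n) =
        num M (fun n => Z n ∈ I ∧ Q n) + num M (fun n => (∀ s ∈ I, Z n < s) ∧ Q n) := by
      apply num_split
      · intro n _
        constructor
        · rintro ⟨⟨s, hs, hs'⟩, h5⟩
          by_cases h6 : ∀ s ∈ I, Z n < s
          · exact Or.inr ⟨h6, h5⟩
          · push Not at h6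
            obtain ⟨s', hs1, hs2⟩ := h6
            exact Or.inl ⟨hI.out hs1 hs ⟨hs2, hs'⟩, h5⟩
        · rintro (⟨h4, h5⟩ | ⟨h4, h5⟩)
          · exact ⟨⟨Z n, h4, le_rfl⟩, h5⟩
          · obtain ⟨s, hs⟩ := hne
            exact ⟨⟨s, hs, (h4 s hs).le⟩, h5⟩
      · rintro n _ ⟨⟨h4, _⟩, ⟨h5, _⟩⟩
        exact lt_irrefl _ (h5 _ h4)
    rw [hvol]
    have h7 : num M (fun n => Z n ∈ I ∧ Q n) - (b - a) * c =
        (num M (fun n => (∃ s ∈ I, Z n ≤ s) ∧ Q n) - b * c) -
        (num M (fun n => (∀ s ∈ I, Z n < s) ∧ Q n) - a * c) := by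
      rw [hsplit]; ring
    rw [h7]
    have := abs_sub (num M (fun n => (∃ s ∈ I, Z n ≤ s) ∧ Q n) - b * c)
      (num M (fun n => (∀ s ∈ I, Z n < s) ∧ Q n) - a * c)
    linarith

/-- Arbitrary planar boxes. -/
lemma box2_of_star {X Y : ℕ → ℝ} {N : ℕ} {B : ℝ} (hX : InUnit X) (hY : InUnit Y)
    (hb : StarBound X Y N B) (I J : Set ℝ) (hI : I.OrdConnected) (hI1 : I ⊆ Set.Ico 0 1)
    (hJ : J.OrdConnected) (hJ1 : J ⊆ Set.Ico 0 1) :
    |num N (fun n => X n ∈ I ∧ Y n ∈ J) - (volume I).toReal * (volume J).toReal * N| ≤ 4 * B := by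
  have s1 : ∀ x : ℝ, 0 ≤ x → x ≤ 1 →
      |num N (fun n => X n < x ∧ Y n ∈ J) - x * ((volume J).toReal * N)| ≤ 2 * B := by
    intro x hx0 hx1
    have h1 := interval_of_star (M := N) (Z := Y) (Q := fun n => X n < x) (c := x * N) (B := B)
      (fun n _ => (hY n).2) (by
        intro y hy0 hy1
        have := hb x y hx0 hx1 hy0 hy1
        rw [← num_eq_card] at this
        rw [num_congr (P' := fun n => X n < x ∧ Y n < y) (fun n _ => and_comm)]
        have e : y * (x * (N:ℝ)) = N * x * y := by ring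
        rw [e]; exact this) J hJ hJ1
    rw [num_congr (P' := fun n => X n < x ∧ Y n ∈ J) (fun n _ => and_comm)] at h1
    have e : x * ((volume J).toReal * (N:ℝ)) = (volume J).toReal * (x * N) := by ring
    rw [e]; exact h1
  have h2 := interval_of_star (M := N) (Z := X) (Q := fun n => Y n ∈ J)
    (c := (volume J).toReal * N) (B := 2 * B) (fun n _ => (hX n).2) s1 I hI hI1
  rw [mul_assoc]
  linarith

end Pool.Agent.H470R2
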