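import Pool.Agent.H470R2.Alg

set_option autoImplicit false

namespace Pool.Agent.H470R2

open Finset
open scoped Classical

variable {p : ℕ} [hp : Fact p.Prime]

/-- Row functional on `Fin m → ZMod p`. -/
def Yf (g : ℕ → ℕ → (ZMod p)ˣ) (m b : ℕ) (w : Fin m → ZMod p) : ZMod p :=
  ∑ i : Fin m, uu g b i * w i

/-- `w` agrees with `N` above `j` and is smaller at `j`. -/
def topT (m j : ℕ) (N : ℕ → ZMod p) (w : Fin m → ZMod p) : Prop :=
  ∀ i : Fin m, (j < (i:ℕ) → w i = N i) ∧ ((i:ℕ) = j → (w i).val < (N i).val)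

/-- `w` is lexicographically smaller than `x` (digit `0` most significant). -/
def ltX (m : ℕ) (x : ℕ → ZMod p) (w : Fin m → ZMod p) : Prop :=
  ∃ a : Fin m, (∀ i : Fin m, i < a → w i = x i) ∧ (w a).val < (x a).val

lemma Yf_eq (g : ℕ → ℕ → (ZMod p)ˣ) (m b : ℕ) (z : ℕ → ZMod p) :
    Yf g m b (fun i => z i) = ∑ i ∈ range m, uu g b i * z i := by
  unfold Yf
  rw [Finset.sum_range (fun i => uu g b i * z i)]

lemma Yf_sub (g : ℕ → ℕ → (ZMod p)ˣ) (m b : ℕ) (w w' : Fin m → ZMod p) :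
    Yf g m b (fun i => w i - w' i) = Yf g m b w - Yf g m b w' := by
  unfold Yf
  rw [← Finset.sum_sub_distrib]
  apply Finset.sum_congr rfl
  intro i _; ring

lemma Yf_add (g : ℕ → ℕ → (ZMod p)ˣ) (m b : ℕ) (w w' : Fin m → ZMod p) :
    Yf g m b (fun i => w i + w' i) = Yf g m b w + Yf g m b w' := by
  unfold Yf
  rw [← Finset.sum_add_distrib]
  apply Finset.sum_congr rfl
  intro i _; ring

lemma Yf_smul (g : ℕ → ℕ → (ZMod p)ˣ) (m b : ℕ) (c : ZMod p) (w : Fin m → ZMod p) :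
    Yf g m b (fun i => c * w i) = c * Yf g m b w := by
  unfold Yf
  rw [Finset.mul_sum]
  apply Finset.sum_congr rfl
  intro i _; ring

/-- Two vectors agreeing off a window of length `b` and on the first `b` rows are equal. -/
lemma eq_of_window (g : ℕ → ℕ → (ZMod p)ˣ) (m b k : ℕ) (hk : k + b ≤ m)
    (w w' : Fin m → ZMod p) (h1 : ∀ i : Fin m, (i:ℕ) < k → w i = w' i)
    (h2 : ∀ i : Fin m, k + b ≤ (i:ℕ) → w i = w' i)
    (h3 : ∀ b' < b, Yf g m b' w = Yf g m b' w') : w = w' := by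
  set z : ℕ → ZMod p := fun i => if h : i < m then w ⟨i, h⟩ - w' ⟨i, h⟩ else 0 with hz
  have hzi : ∀ i : Fin m, z i = w i - w' i := by
    intro i; simp [hz]
  have := window_ns g m b k z hk
    (by
      intro i hi
      simp only [hz]
      split_ifs with h
      · rw [h1 ⟨i, h⟩ hi, sub_self]
      · rfl)
    (by
      intro i hi
      simp only [hz]
      split_ifs with h
      · rw [h2 ⟨i, h⟩ hi, sub_self]
      · rfl)
    (by
      intro b' hb'
      rw [← Yf_eq]
      have : (fun i : Fin m => z i) = fun i : Fin m => w i - w' i := by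
        funext i; exact hzi i
      rw [this, Yf_sub, h3 b' hb', sub_self])
  funext i
  have h4 := this i
  rw [hzi i] at h4
  exact sub_eq_zero.1 h4

/-- the relative position `H b j`. -/
noncomputable def HH (g : ℕ → ℕ → (ZMod p)ˣ) (ξ η : ℕ → ZMod p) (b j : ℕ) : ZMod p :=
  (∑ i ∈ range j, uu g b i * hh g ξ η b j i) - η b

/-- The point with parameters `τ, δ`. -/
noncomputable def wmap (g : ℕ → ℕ → (ZMod p)ˣ) (m : ℕ) (N x η : ℕ → ZMod p) (b j : ℕ)
    (τ δ : ZMod p) : Fin m → ZMod p :=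
  fun i => N i + hh g (fun i => x i - N i) η b j i + τ * vv g b (j-1) i + δ * vv g b j i

noncomputable def A3 (N : ℕ → ZMod p) (j : ℕ) : Finset (ZMod p) :=
  univ.filter (fun δ => (N j + δ).val < (N j).val)

noncomputable def T1 (g : ℕ → ℕ → (ZMod p)ˣ) (x : ℕ → ZMod p) (b j : ℕ) : Finset (ZMod p) :=
  if b < j then
    univ.filter (fun τ => (x (j-1-b) + τ * vv g b (j-1) (j-1-b)).val < (x (j-1-b)).val)
  else ∅

def EE (g : ℕ → ℕ → (ZMod p)ˣ) (m : ℕ) (N x η : ℕ → ZMod p) (b j : ℕ) (δ : ZMod p) : Prop :=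
  ltX m x (wmap g m N x η b j 0 δ)

/-- The set of points `w` with top deviation at `j`, below `x`, and rows `< b` prescribed. -/
noncomputable def SS (g : ℕ → ℕ → (ZMod p)ˣ) (m : ℕ) (N x η : ℕ → ZMod p) (b j : ℕ) :
    Finset (Fin m → ZMod p) :=
  univ.filter (fun w => topT m j N w ∧ ltX m x w ∧
    ∀ b' < b, Yf g m b' (fun i => w i - N i) = η b')

/-- explicit form of the sum -/
noncomputable def Dexp (g : ℕ → ℕ → (ZMod p)ˣ) (m : ℕ) (N x η : ℕ → ZMod p)
    (φ : ZMod p → ℝ) (b j : ℕ) : ℝ :=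
  ∑ δ ∈ A3 N j, ((∑ τ ∈ T1 g x b j,
      φ (HH g (fun i => x i - N i) η b j + τ * g b (j-1) + δ * g b j)) +
    if EE g m N x η b j δ then φ (HH g (fun i => x i - N i) η b j + δ * g b j) else 0)

lemma Yf_hh (g : ℕ → ℕ → (ZMod p)ˣ) (m : ℕ) (ξ η : ℕ → ZMod p) {b b' j : ℕ} (hb : b ≤ j)
    (hj : j ≤ m) (hb' : b' < b) : Yf g m b' (fun i => hh g ξ η b j i) = η b' := by
  rw [Yf_eq, sum_range_of_support _ _ hj (fun i hi => hh_support g ξ η b j i hb hi)]
  exact hh_rows g ξ η b b' j hb hb'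

lemma Yf_hh_self (g : ℕ → ℕ → (ZMod p)ˣ) (m : ℕ) (ξ η : ℕ → ZMod p) {b j : ℕ} (hb : b ≤ j)
    (hj : j ≤ m) : Yf g m b (fun i => hh g ξ η b j i) - η b = HH g ξ η b j := by
  rw [Yf_eq, sum_range_of_support _ _ hj (fun i hi => hh_support g ξ η b j i hb hi)]
  rfl

lemma Yf_vv_lt (g : ℕ → ℕ → (ZMod p)ˣ) (m : ℕ) {b b' j : ℕ} (hb : b ≤ j)
    (hj : j < m) (hb' : b' < b) : Yf g m b' (fun i => vv g b j i) = 0 := by
  rw [Yf_eq]; exact row_vv_lt g b b' j m hb hj hb'

lemma Yf_vv_self (g : ℕ → ℕ → (ZMod p)ˣ) (m : ℕ) {b j : ℕ} (hb : b ≤ j)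
    (hj : j < m) : Yf g m b (fun i => vv g b j i) = g b j := by
  rw [Yf_eq]; exact row_vv_self g hb hj

/-- Rows of `wmap - N`, expanded. -/
lemma Yf_wmap (g : ℕ → ℕ → (ZMod p)ˣ) (m : ℕ) (N x η : ℕ → ZMod p) (b j b' : ℕ) (τ δ : ZMod p) :
    Yf g m b' (fun i => wmap g m N x η b j τ δ i - N i) =
      Yf g m b' (fun i => hh g (fun i => x i - N i) η b j i) +
        τ * Yf g m b' (fun i => vv g b (j-1) i) + δ * Yf g m b' (fun i => vv g b j i) := by
  rw [← Yf_smul, ← Yf_smul, ← Yf_add, ← Yf_add]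
  congr 1
  funext i
  unfold wmap
  ring

/-- Translation trick: if a finite set is invariant under translations by multiples of `v` and the
row functional moves with nonzero slope, the sum of a mean-zero function vanishes. -/
lemma sum_translate_zero {m : ℕ} (S : Finset (Fin m → ZMod p)) (v : Fin m → ZMod p)
    (F : (Fin m → ZMod p) → ZMod p) (γ : (ZMod p)ˣ)
    (hS : ∀ w ∈ S, ∀ t : ZMod p, (fun i => w i + t * v i) ∈ S)
    (hF : ∀ w ∈ S, ∀ t : ZMod p, F (fun i => w i + t * v i) = F w + t * γ)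
    (φ : ZMod p → ℝ) (hφ : ∑ t, φ t = 0) : ∑ w ∈ S, φ (F w) = 0 := by
  have h1 : ∀ t : ZMod p, ∑ w ∈ S, φ (F w) = ∑ w ∈ S, φ (F w + t * γ) := by
    intro t
    symm
    refine Finset.sum_nbij' (fun w i => w i + t * v i) (fun w i => w i + (-t) * v i) ?_ ?_ ?_ ?_ ?_
    · intro w hw; exact hS w hw t
    · intro w hw; exact hS w hw (-t)
    · intro w _; funext i; ring
    · intro w _; funext i; ring
    · intro w hw; rw [hF w hw t]
  have h2 : ∑ t : ZMod p, ∑ w ∈ S, φ (F w) = 0 := by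
    rw [Finset.sum_congr rfl (fun t _ => h1 t), Finset.sum_comm]
    apply Finset.sum_eq_zero
    intro w _
    rw [← hφ]
    refine Finset.sum_nbij' (fun t => F w + t * γ)
      (fun s => (s - F w) * ((γ⁻¹ : (ZMod p)ˣ) : ZMod p)) ?_ ?_ ?_ ?_ ?_
    · intro _ _; exact mem_univ _
    · intro _ _; exact mem_univ _
    · intro t _
      have : (F w + t * (γ:ZMod p) - F w) = t * γ := by ring
      rw [this, mul_assoc, Units.mul_inv, mul_one]
    · intro s _
      rw [mul_assoc, Units.inv_mul, mul_one]; ring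
    · intro _ _; rfl
  rw [Finset.sum_const, nsmul_eq_mul] at h2
  have h3 : ((univ : Finset (ZMod p)).card : ℝ) ≠ 0 := by
    rw [Finset.card_univ, ZMod.card]
    exact_mod_cast hp.out.ne_zero
  exact (mul_eq_zero.1 h2).resolve_left h3

/-- the part of `SS` with early deviation -/
def P0 (m κ : ℕ) (x : ℕ → ZMod p) (w : Fin m → ZMod p) : Prop :=
  ∃ a : Fin m, (a:ℕ) < κ ∧ (∀ i : Fin m, i < a → w i = x i) ∧ (w a).val < (x a).val

lemma sum_early_zero (g : ℕ → ℕ → (ZMod p)ˣ) (m : ℕ) (N x η : ℕ → ZMod p)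
    (φ : ZMod p → ℝ) (hφ : ∑ t, φ t = 0) {b j : ℕ} (hbj : b < j) (hjm : j < m) :
    ∑ w ∈ (SS g m N x η b j).filter (fun w => P0 m (j-1-b) x w),
      φ (Yf g m b (fun i => w i - N i) - η b) = 0 := by
  apply sum_translate_zero _ (fun i => vv g b (j-1) i)
    (fun w => Yf g m b (fun i => w i - N i) - η b) (g b (j-1)) _ _ φ hφ
  · intro w hw t
    simp only [SS, mem_filter, mem_univ, true_and] at hw ⊢
    obtain ⟨⟨h1, h2, h3⟩, a, ha, ha1, ha2⟩ := hw
    have hsmall : ∀ i : Fin m, (i:ℕ) < j-1-b → w i + t * vv g b (j-1) i = w i := by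
      intro i hi
      rw [vv_eq_zero_of_lt g b (j-1) i (by omega) (by omega)]; ring
    have hlarge : ∀ i : Fin m, j ≤ (i:ℕ) → w i + t * vv g b (j-1) i = w i := by
      intro i hi
      rw [vv_eq_zero_of_gt g b (j-1) i (by omega) (by omega)]; ring
    have hP0 : P0 m (j-1-b) x (fun i => w i + t * vv g b (j-1) i) := by
      refine ⟨a, ha, ?_, ?_⟩
      · intro i hi
        simp only
        rw [hsmall i (by have : (i:ℕ) < a := hi; omega)]
        exact ha1 i hi
      · simp only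
        rw [hsmall a ha]; exact ha2
    refine ⟨⟨?_, ?_, ?_⟩, hP0⟩
    · intro i
      refine ⟨fun hi => ?_, fun hi => ?_⟩
      · simp only
        rw [hlarge i (by omega)]; exact (h1 i).1 hi
      · simp only
        rw [hlarge i (by omega)]; exact (h1 i).2 hi
    · obtain ⟨a', _, h5, h6⟩ := hP0
      exact ⟨a', h5, h6⟩
    · intro b' hb'
      have : Yf g m b' (fun i => w i + t * vv g b (j-1) i - N i) =
          Yf g m b' (fun i => w i - N i) + t * Yf g m b' (fun i => vv g b (j-1) i) := by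
        rw [← Yf_smul, ← Yf_add]
        congr 1
        funext i; ring
      rw [this, h3 b' hb', Yf_vv_lt g m (by omega) (by omega) hb']
      ring
  · intro w _ t
    simp only
    have : Yf g m b (fun i => w i + t * vv g b (j-1) i - N i) =
        Yf g m b (fun i => w i - N i) + t * Yf g m b (fun i => vv g b (j-1) i) := by
      rw [← Yf_smul, ← Yf_add]
      congr 1
      funext i; ring
    rw [this, Yf_vv_self g m (by omega) (by omega)]
    ring

lemma wmap_lt (g : ℕ → ℕ → (ZMod p)ˣ) (m : ℕ) (N x η : ℕ → ZMod p) {b j : ℕ} (hbj : b < j)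
    (τ δ : ZMod p) (i : Fin m) (hi : (i:ℕ) < j-1-b) :
    wmap g m N x η b j τ δ i = x i := by
  unfold wmap
  rw [hh_prefix g _ η b j i (by omega) (by omega), vv_eq_zero_of_lt g b (j-1) i (by omega) (by omega),
    vv_eq_zero_of_lt g b j i (by omega) (by omega)]
  ring

lemma wmap_kap (g : ℕ → ℕ → (ZMod p)ˣ) (m : ℕ) (N x η : ℕ → ZMod p) {b j : ℕ} (hbj : b < j)
    (τ δ : ZMod p) (i : Fin m) (hi : (i:ℕ) = j-1-b) :
    wmap g m N x η b j τ δ i = x i + τ * vv g b (j-1) i := by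
  unfold wmap
  rw [hh_prefix g _ η b j i (by omega) (by omega), vv_eq_zero_of_lt g b j i (by omega) (by omega)]
  ring

lemma wmap_j (g : ℕ → ℕ → (ZMod p)ˣ) (m : ℕ) (N x η : ℕ → ZMod p) {b j : ℕ} (hbj : b < j)
    (τ δ : ZMod p) (i : Fin m) (hi : (i:ℕ) = j) :
    wmap g m N x η b j τ δ i = N i + δ := by
  unfold wmap
  rw [hh_support g _ η b j i (by omega) (by omega), vv_eq_zero_of_gt g b (j-1) i (by omega) (by omega),
    hi, vv_self g b j (by omega)]
  ring

lemma wmap_gt (g : ℕ → ℕ → (ZMod p)ˣ) (m : ℕ) (N x η : ℕ → ZMod p) {b j : ℕ} (hbj : b < j)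
    (τ δ : ZMod p) (i : Fin m) (hi : j < (i:ℕ)) :
    wmap g m N x η b j τ δ i = N i := by
  unfold wmap
  rw [hh_support g _ η b j i (by omega) (by omega), vv_eq_zero_of_gt g b (j-1) i (by omega) (by omega),
    vv_eq_zero_of_gt g b j i (by omega) (by omega)]
  ring

lemma wmap_rows (g : ℕ → ℕ → (ZMod p)ˣ) (m : ℕ) (N x η : ℕ → ZMod p) {b j : ℕ} (hbj : b < j)
    (hjm : j < m) (τ δ : ZMod p) {b' : ℕ} (hb' : b' < b) :
    Yf g m b' (fun i => wmap g m N x η b j τ δ i - N i) = η b' := by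
  rw [Yf_wmap, Yf_hh g m _ η (by omega) (by omega) hb', Yf_vv_lt g m (by omega) (by omega) hb',
    Yf_vv_lt g m (by omega) hjm hb']
  ring

lemma wmap_row_self (g : ℕ → ℕ → (ZMod p)ˣ) (m : ℕ) (N x η : ℕ → ZMod p) {b j : ℕ} (hbj : b < j)
    (hjm : j < m) (τ δ : ZMod p) :
    Yf g m b (fun i => wmap g m N x η b j τ δ i - N i) - η b =
      HH g (fun i => x i - N i) η b j + τ * g b (j-1) + δ * g b j := by
  rw [Yf_wmap, Yf_vv_self g m (by omega) (by omega), Yf_vv_self g m (by omega) hjm,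
    ← Yf_hh_self g m (fun i => x i - N i) η (by omega : b ≤ j) (by omega)]
  ring

/-- The parameter set. -/
noncomputable def CC (g : ℕ → ℕ → (ZMod p)ˣ) (m : ℕ) (N x η : ℕ → ZMod p) (b j : ℕ) :
    Finset (ZMod p × ZMod p) :=
  univ.filter (fun q => q.1 ∈ A3 N j ∧ (q.2 ∈ T1 g x b j ∨ (q.2 = 0 ∧ EE g m N x η b j q.1)))

lemma zero_notMem_T1 (g : ℕ → ℕ → (ZMod p)ˣ) (x : ℕ → ZMod p) (b j : ℕ) :
    (0 : ZMod p) ∉ T1 g x b j := by
  unfold T1
  split_ifs
  · simp
  · simp

lemma sum_late (g : ℕ → ℕ → (ZMod p)ˣ) (m : ℕ) (N x η : ℕ → ZMod p)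
    (φ : ZMod p → ℝ) {b j : ℕ} (hbj : b < j) (hjm : j < m) :
    ∑ w ∈ (SS g m N x η b j).filter (fun w => ¬ P0 m (j-1-b) x w),
      φ (Yf g m b (fun i => w i - N i) - η b) =
    ∑ q ∈ CC g m N x η b j,
      φ (HH g (fun i => x i - N i) η b j + q.2 * g b (j-1) + q.1 * g b j) := by
  have hκm : j - 1 - b < m := by omega
  have hv0 : vv g b (j-1) (j-1-b) ≠ 0 := vv_first_ne_zero g (by omega)
  set κ := j - 1 - b with hκ
  have hprefix : ∀ w ∈ (SS g m N x η b j).filter (fun w => ¬ P0 m κ x w),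
      (∀ i : Fin m, (i:ℕ) < κ → w i = x i) := by
    intro w hw i hi
    simp only [SS, mem_filter, mem_univ, true_and] at hw
    obtain ⟨⟨h1, ⟨a, ha1, ha2⟩, h3⟩, h4⟩ := hw
    by_cases h : (a:ℕ) < κ
    · exact absurd ⟨a, h, ha1, ha2⟩ h4
    · exact ha1 i (by show (i:ℕ) < a; omega)
  have hback : ∀ w ∈ (SS g m N x η b j).filter (fun w => ¬ P0 m κ x w),
      wmap g m N x η b j ((w ⟨κ, hκm⟩ - x κ) * (vv g b (j-1) κ)⁻¹) (w ⟨j, hjm⟩ - N j) = w := by
    intro w hw
    have hp := hprefix w hw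
    simp only [SS, mem_filter, mem_univ, true_and] at hw
    obtain ⟨⟨h1, h2, h3⟩, h4⟩ := hw
    apply eq_of_window g m b (κ+1) (by omega)
    · intro i hi
      rcases Nat.lt_or_ge (i:ℕ) κ with h | h
      · rw [wmap_lt g m N x η hbj _ _ i h, hp i h]
      · have hik : (i:ℕ) = κ := by omega
        rw [wmap_kap g m N x η hbj _ _ i hik, hik]
        have : i = ⟨κ, hκm⟩ := Fin.ext hik
        rw [this]
        field_simp
        ring
    · intro i hi
      rcases Nat.lt_or_ge j (i:ℕ) with h | h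
      · rw [wmap_gt g m N x η hbj _ _ i h, (h1 i).1 h]
      · have hij : (i:ℕ) = j := by omega
        rw [wmap_j g m N x η hbj _ _ i hij, hij]
        have : i = ⟨j, hjm⟩ := Fin.ext hij
        rw [this]
        ring
    · intro b' hb'
      have e1 := wmap_rows g m N x η hbj hjm
        ((w ⟨κ, hκm⟩ - x κ) * (vv g b (j-1) κ)⁻¹) (w ⟨j, hjm⟩ - N j) hb'
      have e2 := h3 b' hb'
      rw [Yf_sub g m b' _ (fun i => N i)] at e1 e2
      linear_combination e1 - e2
  refine Finset.sum_bij' (fun w _ => ((w ⟨j, hjm⟩ - N j, (w ⟨κ, hκm⟩ - x κ) * (vv g b (j-1) κ)⁻¹)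
      : ZMod p × ZMod p)) (fun q _ => wmap g m N x η b j q.2 q.1) ?_ ?_ ?_ ?_ ?_
  · intro w hw
    have hp := hprefix w hw
    have hb := hback w hw
    simp only [SS, mem_filter, mem_univ, true_and] at hw
    obtain ⟨⟨h1, ⟨a, ha1, ha2⟩, h3⟩, h4⟩ := hw
    simp only [CC, mem_filter, mem_univ, true_and, A3]
    constructor
    · have := (h1 ⟨j, hjm⟩).2 rfl
      simpa using this
    · by_cases hτ : (w ⟨κ, hκm⟩ - x κ) * (vv g b (j-1) κ)⁻¹ = 0
      · right
        refine ⟨hτ, ?_⟩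
        unfold EE
        rw [hτ] at hb
        rw [hb]
        exact ⟨a, ha1, ha2⟩
      · left
        unfold T1
        rw [if_pos hbj]
        simp only [mem_filter, mem_univ, true_and]
        rw [← hκ]
        have hx : x κ + (w ⟨κ, hκm⟩ - x κ) * (vv g b (j-1) κ)⁻¹ * vv g b (j-1) κ = w ⟨κ, hκm⟩ := by
          field_simp; ring
        rw [hx]
        have haκ : (a:ℕ) = κ := by
          rcases Nat.lt_trichotomy (a:ℕ) κ with h | h | h
          · exact absurd ⟨a, h, ha1, ha2⟩ h4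
          · exact h
          · exfalso
            apply hτ
            have := ha1 ⟨κ, hκm⟩ h
            rw [this]
            simp
        have : a = ⟨κ, hκm⟩ := Fin.ext haκ
        rw [this] at ha2
        exact ha2
  · intro q hq
    simp only [CC, mem_filter, mem_univ, true_and] at hq
    obtain ⟨hq1, hq2⟩ := hq
    have htop : topT m j N (wmap g m N x η b j q.2 q.1) := by
      intro i
      refine ⟨fun hi => wmap_gt g m N x η hbj _ _ i hi, fun hi => ?_⟩
      rw [wmap_j g m N x η hbj _ _ i hi, hi]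
      simpa [A3] using hq1
    have hlt : ltX m x (wmap g m N x η b j q.2 q.1) := by
      rcases hq2 with h | ⟨h, h'⟩
      · refine ⟨⟨κ, hκm⟩, fun i hi => wmap_lt g m N x η hbj _ _ i hi, ?_⟩
        rw [wmap_kap g m N x η hbj _ _ ⟨κ, hκm⟩ rfl]
        unfold T1 at h
        rw [if_pos hbj] at h
        simp only [mem_filter, mem_univ, true_and] at h
        exact h
      · rw [h]; exact h'
    simp only [SS, mem_filter, mem_univ, true_and]
    refine ⟨⟨htop, hlt, fun b' hb' => wmap_rows g m N x η hbj hjm _ _ hb'⟩, ?_⟩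
    rintro ⟨a, ha, _, ha2⟩
    rw [wmap_lt g m N x η hbj _ _ a ha] at ha2
    exact lt_irrefl _ ha2
  · intro w hw
    exact hback w hw
  · intro q hq
    rw [wmap_j g m N x η hbj _ _ ⟨j, hjm⟩ rfl, wmap_kap g m N x η hbj _ _ ⟨κ, hκm⟩ rfl]
    ext
    · simp
    · simp only
      field_simp
      ring
  · intro w hw
    have hb := hback w hw
    have e := wmap_row_self g m N x η hbj hjm
      ((w ⟨κ, hκm⟩ - x κ) * (vv g b (j-1) κ)⁻¹) (w ⟨j, hjm⟩ - N j)
    rw [hb] at e
    rw [e]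

lemma sum_CC (g : ℕ → ℕ → (ZMod p)ˣ) (m : ℕ) (N x η : ℕ → ZMod p)
    (φ : ZMod p → ℝ) (b j : ℕ) :
    ∑ q ∈ CC g m N x η b j,
      φ (HH g (fun i => x i - N i) η b j + q.2 * g b (j-1) + q.1 * g b j) =
    Dexp g m N x η φ b j := by
  unfold Dexp
  have : CC g m N x η b j = ((A3 N j) ×ˢ univ).filter
      (fun q => q.2 ∈ T1 g x b j ∨ (q.2 = 0 ∧ EE g m N x η b j q.1)) := by
    ext q
    simp [CC]
  rw [this, Finset.sum_filter, Finset.sum_product]
  apply Finset.sum_congr rfl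
  intro δ _
  simp only
  have h1 : ∀ τ : ZMod p, (if τ ∈ T1 g x b j ∨ (τ = 0 ∧ EE g m N x η b j δ) then
      φ (HH g (fun i => x i - N i) η b j + τ * g b (j-1) + δ * g b j) else 0) =
      (if τ ∈ T1 g x b j then
        φ (HH g (fun i => x i - N i) η b j + τ * g b (j-1) + δ * g b j) else 0) +
      (if τ = 0 then (if EE g m N x η b j δ then φ (HH g (fun i => x i - N i) η b j + δ * g b j)
        else 0) else 0) := by
    intro τ
    by_cases h : τ ∈ T1 g x b j
    · have h0 : τ ≠ 0 := by rintro rfl; exact zero_notMem_T1 g x b j h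
      simp [h, h0]
    · by_cases h0 : τ = 0
      · subst h0
        simp [h]
      · simp [h, h0]
  rw [Finset.sum_congr rfl (fun τ _ => h1 τ), Finset.sum_add_distrib]
  congr 1
  · rw [← Finset.sum_filter]
    apply Finset.sum_congr _ (fun _ _ => rfl)
    ext τ; simp
  · simp

/-- the diagonal case `b = j` -/
lemma sum_SS_diag (g : ℕ → ℕ → (ZMod p)ˣ) (m : ℕ) (N x η : ℕ → ZMod p)
    (φ : ZMod p → ℝ) {j : ℕ} (hjm : j < m) :
    ∑ w ∈ SS g m N x η j j, φ (Yf g m j (fun i => w i - N i) - η j) =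
      Dexp g m N x η φ j j := by
  have hgt : ∀ (δ : ZMod p) (i : Fin m), j < (i:ℕ) → wmap g m N x η j j 0 δ i = N i := by
    intro δ i hi
    unfold wmap
    rw [hh_support g _ η j j i le_rfl (by omega), vv_eq_zero_of_gt g j j i le_rfl hi]
    ring
  have hj : ∀ (δ : ZMod p) (i : Fin m), (i:ℕ) = j → wmap g m N x η j j 0 δ i = N i + δ := by
    intro δ i hi
    unfold wmap
    rw [hh_support g _ η j j i le_rfl (by omega), hi, vv_self g j j le_rfl]
    ring
  have hrows : ∀ (δ : ZMod p) (b' : ℕ), b' < j →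
      Yf g m b' (fun i => wmap g m N x η j j 0 δ i - N i) = η b' := by
    intro δ b' hb'
    rw [Yf_wmap, Yf_hh g m _ η le_rfl (by omega) hb', Yf_vv_lt g m le_rfl hjm hb']
    ring
  have hself : ∀ (δ : ZMod p), Yf g m j (fun i => wmap g m N x η j j 0 δ i - N i) - η j =
      HH g (fun i => x i - N i) η j j + δ * g j j := by
    intro δ
    rw [Yf_wmap, Yf_vv_self g m le_rfl hjm,
      ← Yf_hh_self g m (fun i => x i - N i) η (le_refl j) (by omega)]
    ring
  unfold Dexp T1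
  simp only [lt_irrefl, if_false, Finset.sum_empty, zero_add]
  rw [← Finset.sum_filter]
  have hback : ∀ w ∈ SS g m N x η j j,
      wmap g m N x η j j 0 (w ⟨j, hjm⟩ - N j) = w := by
    intro w hw
    simp only [SS, mem_filter, mem_univ, true_and] at hw
    obtain ⟨h1, h2, h3⟩ := hw
    apply eq_of_window g m j 0 (by omega)
    · intro i hi; omega
    · intro i hi
      rcases Nat.lt_or_ge j (i:ℕ) with h | h
      · rw [hgt _ i h, (h1 i).1 h]
      · have hij : (i:ℕ) = j := by omega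
        rw [hj _ i hij, hij]
        have : i = ⟨j, hjm⟩ := Fin.ext hij
        rw [this]
        ring
    · intro b' hb'
      have e1 := hrows (w ⟨j, hjm⟩ - N j) b' hb'
      have e2 := h3 b' hb'
      rw [Yf_sub g m b' _ (fun i => N i)] at e1 e2
      linear_combination e1 - e2
  refine Finset.sum_bij' (fun w _ => w ⟨j, hjm⟩ - N j) (fun δ _ => wmap g m N x η j j 0 δ)
    ?_ ?_ ?_ ?_ ?_
  · intro w hw
    have hb := hback w hw
    simp only [SS, mem_filter, mem_univ, true_and] at hw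
    obtain ⟨h1, h2, h3⟩ := hw
    simp only [mem_filter, mem_univ, true_and, A3]
    constructor
    · have := (h1 ⟨j, hjm⟩).2 rfl
      simpa using this
    · unfold EE
      rw [hb]; exact h2
  · intro δ hδ
    simp only [mem_filter, mem_univ, true_and, A3] at hδ
    simp only [SS, mem_filter, mem_univ, true_and]
    refine ⟨?_, hδ.2, fun b' hb' => hrows δ b' hb'⟩
    intro i
    refine ⟨fun hi => hgt _ i hi, fun hi => ?_⟩
    rw [hj _ i hi, hi]
    exact hδ.1
  · intro w hw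
    exact hback w hw
  · intro δ _
    rw [hj _ ⟨j, hjm⟩ rfl]
    ring
  · intro w hw
    have hb := hback w hw
    have e := hself (w ⟨j, hjm⟩ - N j)
    rw [hb] at e
    rw [e]

lemma sum_SS_of_lt (g : ℕ → ℕ → (ZMod p)ˣ) (m : ℕ) (N x η : ℕ → ZMod p)
    (φ : ZMod p → ℝ) (hφ : ∑ t, φ t = 0) {b j : ℕ} (hbj : b < j) (hjm : j < m) :
    ∑ w ∈ SS g m N x η b j, φ (Yf g m b (fun i => w i - N i) - η b) =
      Dexp g m N x η φ b j := by
  rw [← Finset.sum_filter_add_sum_filter_not (SS g m N x η b j) (fun w => P0 m (j-1-b) x w),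
    sum_early_zero g m N x η φ hφ hbj hjm, zero_add, sum_late g m N x η φ hbj hjm, sum_CC]

/-- **Structural identity.** -/
theorem sum_SS (g : ℕ → ℕ → (ZMod p)ˣ) (m : ℕ) (N x η : ℕ → ZMod p)
    (φ : ZMod p → ℝ) (hφ : ∑ t, φ t = 0) {b j : ℕ} (hbj : b ≤ j) (hjm : j < m) :
    ∑ w ∈ SS g m N x η b j, φ (Yf g m b (fun i => w i - N i) - η b) =
      Dexp g m N x η φ b j := by
  rcases Nat.lt_or_ge b j with h | h
  · exact sum_SS_of_lt g m N x η φ hφ h hjm
  · have : b = j := by omega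
    subst this
    exact sum_SS_diag g m N x η φ hjm

end Pool.Agent.H470R2
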